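import Pool.Agent.Lib.MP_a54f13_nt.Ev.Spec
import Pool.Agent.Lib.MP_a54f13_nt.LocGen

/-!
Removal of the boundedness assumption: truncation of the test function.
-/

set_option autoImplicit false

namespace Pool.Agent.A54.Ev.TrkM

open MeasureTheory Filter Topology Set
open scoped ContDiff ComplexConjugate
open Pool.Agent.A54.Rel Pool.Agent.A54.LocGen

noncomputable section

variable {V : Set ℂ} {q : ℂ → ℝ} {h : ℕ → ℝ} {f : ℕ → ℂ → ℝ}

lemma even_pow_nonneg (k : ℕ) (x : ℝ) : 0 ≤ x ^ (2 * k) := by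
  rw [pow_mul]; positivity

lemma LkBdd_pos {k : ℕ} (hk : 1 ≤ k) {φ : ℂ → ℝ} (hφ : TestR V φ) (hφ0 : ∀ z, 0 ≤ φ z)
    (hf : ∀ i, Continuous (f i)) {C : ℝ} (hC : ∀ i, ∫ z, φ z * f i z ^ (2 * k) ≤ C) :
    LkBdd k {z | 0 < φ z} f := by
  intro ζ hζ
  obtain ⟨Z, hZ0, hZ⟩ := test_bdd hζ
  obtain ⟨δ, hδ, hδ'⟩ : ∃ δ : ℝ, 0 < δ ∧ ∀ z ∈ tsupport ζ, δ ≤ φ z := by
    rcases (tsupport ζ).eq_empty_or_nonempty with he | hne
    · exact ⟨1, one_pos, fun z hz => by rw [he] at hz; exact absurd hz (by simp)⟩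
    · obtain ⟨z0, hz0, hmin⟩ := hζ.cpt.isCompact.exists_isMinOn hne
        hφ.smooth.continuous.continuousOn
      exact ⟨φ z0, hζ.sub hz0, fun z hz => hmin hz⟩
  have hk0 : 2 * k ≠ 0 := by omega
  have hle : ∀ z, ζ z ^ (2 * k) ≤ Z ^ (2 * k) / δ * φ z := by
    intro z
    by_cases hz : z ∈ tsupport ζ
    · have e1 : ζ z ^ (2 * k) ≤ Z ^ (2 * k) := by
        rw [← (even_two_mul k).pow_abs]
        exact pow_le_pow_left₀ (abs_nonneg _) (hZ z) _
      calc _ ≤ Z ^ (2 * k) := e1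
        _ = Z ^ (2 * k) / δ * δ := by field_simp
        _ ≤ _ := mul_le_mul_of_nonneg_left (hδ' z hz) (by positivity)
    · rw [image_eq_zero_of_notMem_tsupport hz]
      have h2 : 0 ≤ Z ^ (2 * k) / δ * φ z := mul_nonneg (by positivity) (hφ0 z)
      rw [zero_pow hk0]
      exact h2
  refine ⟨Z ^ (2 * k) / δ * C, fun i => ?_⟩
  have i1 : Integrable (fun z => ζ z ^ (2 * k) * f i z ^ (2 * k)) := by
    have h1 : HasCompactSupport (fun z => ζ z ^ (2 * k)) :=
      hζ.cpt.comp_left (g := fun x : ℝ => x ^ (2 * k)) (by simp only [zero_pow hk0])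
    exact ((hζ.smooth.continuous.pow _).mul ((hf i).pow _)).integrable_of_hasCompactSupport
      h1.mul_right
  have i2 : Integrable (fun z => Z ^ (2 * k) / δ * (φ z * f i z ^ (2 * k))) :=
    (integrable_testR hφ ((hf i).pow _)).const_mul _
  calc _ ≤ ∫ z, Z ^ (2 * k) / δ * (φ z * f i z ^ (2 * k)) := by
        refine integral_mono i1 i2 fun z => ?_
        calc ζ z ^ (2 * k) * f i z ^ (2 * k) ≤ Z ^ (2 * k) / δ * φ z * f i z ^ (2 * k) :=
              mul_le_mul_of_nonneg_right (hle z) (even_pow_nonneg _ _)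
          _ = _ := by ring
    _ = Z ^ (2 * k) / δ * ∫ z, φ z * f i z ^ (2 * k) := integral_const_mul _ _
    _ ≤ _ := mul_le_mul_of_nonneg_left (hC i) (by positivity)

lemma pow_sub_le {a b B : ℝ} (hb : 0 ≤ b) (hba : b ≤ a) (haB : a ≤ B) (k : ℕ) :
    a ^ (k + 1) - b ^ (k + 1) ≤ (k + 1) * B ^ k * (a - b) := by
  induction k with
  | zero => simp
  | succ k ih =>
    have hB : 0 ≤ B := hb.trans (hba.trans haB)
    have ha : 0 ≤ a := hb.trans hba
    have h1 : a ^ (k + 1 + 1) - b ^ (k + 1 + 1) =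
        a * (a ^ (k + 1) - b ^ (k + 1)) + (a - b) * b ^ (k + 1) := by ring
    have h2 : a * (a ^ (k + 1) - b ^ (k + 1)) ≤ B * ((k + 1) * B ^ k * (a - b)) := by
      refine (mul_le_mul_of_nonneg_left ih ha).trans ?_
      refine mul_le_mul_of_nonneg_right haB ?_
      have : 0 ≤ a - b := by linarith
      positivity
    have h3 : b ^ (k + 1) ≤ B ^ (k + 1) := pow_le_pow_left₀ hb (hba.trans haB) _
    have h4 : (a - b) * b ^ (k + 1) ≤ (a - b) * B ^ (k + 1) :=
      mul_le_mul_of_nonneg_left h3 (by linarith)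
    rw [h1]
    push_cast
    calc _ ≤ B * ((k + 1) * B ^ k * (a - b)) + (a - b) * B ^ (k + 1) := add_le_add h2 h4
      _ = _ := by rw [pow_succ]; ring

lemma cb_nonneg (k : ℕ) : 0 ≤ cb k := by
  unfold cb; positivity

theorem _root_.Pool.Agent.A54.Ev.stmtTrk (hCmb : StmtCmb) : StmtTrk := by
  intro k hk V q h f hS hB2 hNA φ hφ hφ0 ε hε
  by_contra hcon
  rw [Filter.not_eventually] at hcon
  obtain ⟨σ, hσ, hσ'⟩ := Filter.extraction_of_frequently_atTop hcon
  have hlt : ∀ i, (∫ z, φ z) ^ (k - 1) * ∫ z, φ z * f (σ i) z ^ (2 * k) <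
      cb k * (∫ z, φ z * f (σ i) z ^ 2) ^ k - ε := by
    intro i
    have := hσ' i
    rw [not_le] at this
    exact this
  have hfc : ∀ i, Continuous (f i) := fun i => (hS.sol i).smooth.continuous
  -- bounds for the second moments
  obtain ⟨ζ, hζ, hζ01, hζ1⟩ := exists_cutoff hφ.cpt.isCompact hS.pot.isOpen hφ.sub
  obtain ⟨B, hB⟩ := hB2 ζ hζ
  have hB0 : 0 ≤ B := (integral_nonneg fun z => by positivity).trans (hB 0)
  have hle : ∀ (w : ℂ → ℝ) (c : ℝ), 0 ≤ c → Continuous w → HasCompactSupport w →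
      (∀ z, w z ≤ c * ζ z ^ 2) → ∀ i, ∫ z, w z * f i z ^ 2 ≤ c * B := by
    intro w c hc hw hwc hwle i
    have j1 : Integrable (fun z => w z * f i z ^ 2) :=
      (hw.mul ((hfc i).pow 2)).integrable_of_hasCompactSupport hwc.mul_right
    have j2 : Integrable (fun z => c * (ζ z ^ 2 * f i z ^ 2)) := by
      have h1 : HasCompactSupport (fun z => ζ z ^ 2) :=
        hζ.cpt.comp_left (g := fun x : ℝ => x ^ 2) (by simp)
      exact (((hζ.smooth.continuous.pow 2).mul ((hfc i).pow 2)).integrable_of_hasCompactSupport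
        h1.mul_right).const_mul _
    calc _ ≤ ∫ z, c * (ζ z ^ 2 * f i z ^ 2) := by
          refine integral_mono j1 j2 fun z => ?_
          calc w z * f i z ^ 2 ≤ c * ζ z ^ 2 * f i z ^ 2 :=
                mul_le_mul_of_nonneg_right (hwle z) (by positivity)
            _ = _ := by ring
      _ = c * ∫ z, ζ z ^ 2 * f i z ^ 2 := integral_const_mul _ _
      _ ≤ _ := mul_le_mul_of_nonneg_left (hB i) hc
  obtain ⟨Z, hZ0, hZ⟩ := test_bdd hφ
  have hφle : ∀ z, φ z ≤ Z * ζ z ^ 2 := by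
    intro z
    by_cases hz : z ∈ tsupport φ
    · have : ζ z = 1 := hζ1.self_of_nhdsSet z hz
      rw [this]
      have := (le_abs_self _).trans (hZ z)
      linarith
    · rw [image_eq_zero_of_notMem_tsupport hz]
      positivity
  have hA := hle φ Z hZ0 hφ.smooth.continuous hφ.cpt hφle
  have hpos2 : ∀ (w : ℂ → ℝ), (∀ z, 0 ≤ w z) → ∀ i, 0 ≤ ∫ z, w z * f i z ^ 2 := fun w hw i =>
    integral_nonneg fun z => mul_nonneg (hw z) (by positivity)
  have hI00 : 0 ≤ ∫ z, φ z := integral_nonneg hφ0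
  have hcb := cb_nonneg k
  have hk1 : k - 1 ≠ 0 := by omega
  have hk0 : k ≠ 0 := by omega
  have hI0 : 0 < ∫ z, φ z := by
    rcases hI00.eq_or_lt with h0 | h0
    · exfalso
      have hz : φ =ᵐ[volume] 0 := (integral_eq_zero_iff_of_nonneg hφ0 hφ.integrable).mp h0.symm
      have h1 : ∫ z, φ z * f (σ 0) z ^ 2 = 0 := by
        have : ∫ z, φ z * f (σ 0) z ^ 2 = ∫ z : ℂ, (0 : ℝ) := by
          apply integral_congr_ae
          filter_upwards [hz] with z hz
          rw [hz]; simp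
        rw [this, integral_zero]
      have h2 := hlt 0
      rw [h1, ← h0, zero_pow hk1, zero_pow hk0, zero_mul, mul_zero] at h2
      linarith
    · exact h0
  have hAk : 0 < (∫ z, φ z) ^ (k - 1) := pow_pos hI0 _
  -- the moments of order `2k` are bounded
  have hFk : ∀ i, ∫ z, φ z * f (σ i) z ^ (2 * k) ≤
      cb k * (Z * B) ^ k / (∫ z, φ z) ^ (k - 1) := by
    intro i
    rw [le_div_iff₀ hAk]
    have h1 := hlt i
    have h2 : (∫ z, φ z * f (σ i) z ^ 2) ^ k ≤ (Z * B) ^ k :=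
      pow_le_pow_left₀ (hpos2 φ hφ0 _) (hA _) k
    have h3 := mul_le_mul_of_nonneg_left h2 hcb
    linarith
  have hB' : LkBdd k {z | 0 < φ z} (fun i => f (σ i)) :=
    LkBdd_pos (by omega) hφ hφ0 (fun i => hfc (σ i)) hFk
  have hSeq : Seq {z | 0 < φ z} q (fun i => h (σ i)) (fun i => f (σ i)) :=
    Seq.sub hS (isOpen_pos hφ) (pos_sub hφ) hσ.tendsto_atTop
  have hL2 : L2Bdd {z | 0 < φ z} (fun i => f (σ i)) := by
    intro η hη
    obtain ⟨C, hC⟩ := hB2 η ⟨hη.smooth, hη.cpt, hη.sub.trans (pos_sub hφ)⟩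
    exact ⟨C, fun i => hC (σ i)⟩
  have hNA' : Dyn.NAloc {z | 0 < φ z} q (fun i => h (σ i)) (fun i => f (σ i)) := by
    intro V' τ r hV' hτ hSm w hw hw0
    exact hNA V' (fun i => σ (τ i)) r (hV'.trans (pos_sub hφ)) (hσ.comp hτ) hSm w hw hw0
  obtain ⟨χ, hχ, h01, hχ1⟩ := exists_cutoffs hφ
  -- choice of the cutoff
  have hη : Tendsto (fun n : ℕ => cb k * (((k - 1 : ℕ) : ℝ) + 1) * (Z * B) ^ (k - 1) *
      (1 / ((n : ℝ) + 1) * B)) atTop (𝓝 0) := by
    have h0 : Tendsto (fun n : ℕ => 1 / ((n : ℝ) + 1)) atTop (𝓝 0) :=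
      tendsto_one_div_add_atTop_nhds_zero_nat
    have h1 := (h0.mul_const B).const_mul (cb k * (((k - 1 : ℕ) : ℝ) + 1) * (Z * B) ^ (k - 1))
    simpa using h1
  obtain ⟨n, hn⟩ := (hη.eventually (gt_mem_nhds (show 0 < ε / 2 by linarith))).exists
  have hw := TestR.mul_cut hφ (hχ n)
  have hw0 : ∀ z, 0 ≤ φ z * χ n z := fun z => mul_nonneg (hφ0 z) (h01 n z).1
  have hn0 : (0 : ℝ) ≤ 1 / ((n : ℝ) + 1) := by positivity
  obtain ⟨j, hj⟩ := (hCmb k hk {z | 0 < φ z} q (fun i => h (σ i)) (fun i => f (σ i)) hSeq hB' hL2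
    hNA' (fun z => φ z * χ n z) hw hw0 (ε / 2) (by linarith)).exists
  -- comparison of the integrals
  have c1 : ∫ z, φ z * χ n z ≤ ∫ z, φ z :=
    integral_mono hw.integrable hφ.integrable fun z =>
      mul_le_of_le_one_right (hφ0 z) (h01 n z).2
  have c10 : 0 ≤ ∫ z, φ z * χ n z := integral_nonneg hw0
  have c2 := int_cut_le hφ hφ0 (hχ n) (h01 n) (g := fun z => f (σ j) z ^ (2 * k))
    ((hfc _).pow _) (fun z => even_pow_nonneg _ _)
  have c20 : 0 ≤ ∫ z, φ z * χ n z * f (σ j) z ^ (2 * k) :=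
    integral_nonneg fun z => mul_nonneg (hw0 z) (even_pow_nonneg _ _)
  have c3 := int_cut_le hφ hφ0 (hχ n) (h01 n) (g := fun z => f (σ j) z ^ 2)
    ((hfc _).pow _) (fun z => by positivity)
  have c30 : 0 ≤ ∫ z, φ z * χ n z * f (σ j) z ^ 2 := hpos2 _ hw0 _
  have c4 : (∫ z, φ z * f (σ j) z ^ 2) - ∫ z, φ z * χ n z * f (σ j) z ^ 2 ≤
      1 / ((n : ℝ) + 1) * B := by
    have h1 := hle (fun z => φ z * (1 - χ n z)) (1 / ((n : ℝ) + 1)) hn0
      (hφ.smooth.continuous.mul (continuous_const.sub (hχ n).smooth.continuous))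
      hφ.cpt.mul_right (by
        intro z
        by_cases hz : z ∈ tsupport φ
        · have e1 : ζ z = 1 := hζ1.self_of_nhdsSet z hz
          rw [e1]
          by_cases hz2 : 1 / ((n : ℝ) + 1) ≤ φ z
          · rw [hχ1 n z hz2]
            simpa using hn0
          · rw [not_le] at hz2
            have e2 : φ z * (1 - χ n z) ≤ φ z :=
              mul_le_of_le_one_right (hφ0 z) (by linarith [(h01 n z).1])
            linarith
        · rw [image_eq_zero_of_notMem_tsupport hz, zero_mul]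
          positivity) (σ j)
    have e : ∫ z, φ z * (1 - χ n z) * f (σ j) z ^ 2 =
        (∫ z, φ z * f (σ j) z ^ 2) - ∫ z, φ z * χ n z * f (σ j) z ^ 2 := by
      have c2 : Continuous (fun z => f (σ j) z ^ 2) := (hfc _).pow 2
      rw [← integral_sub (integrable_testR hφ c2) (integrable_testR hw c2)]
      congr 1; funext z; ring
    rw [e] at h1
    exact h1
  have c5 : (∫ z, φ z * χ n z) ^ (k - 1) * ∫ z, φ z * χ n z * f (σ j) z ^ (2 * k) ≤
      (∫ z, φ z) ^ (k - 1) * ∫ z, φ z * f (σ j) z ^ (2 * k) :=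
    mul_le_mul (pow_le_pow_left₀ c10 c1 _) c2 c20 hAk.le
  have c6 := pow_sub_le c30 c3 (hA (σ j)) (k - 1)
  have hkk : k - 1 + 1 = k := by omega
  rw [hkk] at c6
  have c7 : cb k * ((∫ z, φ z * f (σ j) z ^ 2) ^ k - (∫ z, φ z * χ n z * f (σ j) z ^ 2) ^ k) ≤
      cb k * (((k - 1 : ℕ) : ℝ) + 1) * (Z * B) ^ (k - 1) * (1 / ((n : ℝ) + 1) * B) := by
    have hZB : 0 ≤ Z * B := mul_nonneg hZ0 hB0
    calc _ ≤ cb k * ((((k - 1 : ℕ) : ℝ) + 1) * (Z * B) ^ (k - 1) *
          ((∫ z, φ z * f (σ j) z ^ 2) - ∫ z, φ z * χ n z * f (σ j) z ^ 2)) :=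
          mul_le_mul_of_nonneg_left c6 hcb
      _ ≤ cb k * ((((k - 1 : ℕ) : ℝ) + 1) * (Z * B) ^ (k - 1) * (1 / ((n : ℝ) + 1) * B)) := by
          refine mul_le_mul_of_nonneg_left (mul_le_mul_of_nonneg_left c4 (by positivity)) hcb
      _ = _ := by ring
  have c8 := hlt j
  nlinarith

end

end Pool.Agent.A54.Ev.TrkM
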