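import Pool.Agent.Lib.MP_a54f13_nt.Ev.Spec
import Pool.Agent.Lib.MP_a54f13_nt.Rel

/-!
Package `Ev`, module `Chn`: the chain of inequalities.
-/

set_option autoImplicit false

namespace Pool.Agent.A54.Ev

open MeasureTheory Filter Topology Set
open scoped ContDiff ComplexConjugate UpperHalfPlane MatrixGroups

noncomputable section

namespace ChnM

variable {V : Set ℂ} {q : ℂ → ℝ}

lemma ee_nonneg (hq : Pot V q) (h : ℝ) (f : ℂ → ℝ) (z : ℂ) : 0 ≤ ee q h f z :=
  add_nonneg (sq_nonneg _) (Rel.nn_nonneg hq 1)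

lemma yy_nonneg (hq : Pot V q) (h : ℝ) (f : ℂ → ℝ) (z : ℂ) : 0 ≤ yy q h f z :=
  div_nonneg (sq_nonneg _) (hq.pos z).le

lemma cont_de {h : ℝ} {f : ℂ → ℝ} (he : ContDiff ℝ ∞ (ee q h f)) : Continuous (de q h f) :=
  (contDiff_const.mul (contDiff_dz (contDiff_ofReal he))).continuous

lemma cont_xx (hq : Pot V q) {h : ℝ} {f : ℂ → ℝ} (hf : ContDiff ℝ ∞ f)
    (he : ContDiff ℝ ∞ (ee q h f)) : Continuous (xx q h f) := by
  unfold xx
  exact (Complex.continuous_re.comp ((contDiff_conj (contDiff_gg hf h 1)).continuous.mul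
    (cont_de he))).div₀ hq.smooth.continuous (fun z => (hq.pos z).ne')

lemma cont_yy (hq : Pot V q) {h : ℝ} {f : ℂ → ℝ}
    (he : ContDiff ℝ ∞ (ee q h f)) : Continuous (yy q h f) := by
  unfold yy
  exact ((cont_de he).norm.pow 2).div₀ hq.smooth.continuous (fun z => (hq.pos z).ne')

lemma ev_lt {u : ℕ → ℝ} (hu : Tendsto u atTop (𝓝 0)) {ε : ℝ} (hε : 0 < ε) :
    ∀ᶠ n in atTop, u n < ε := hu.eventually (gt_mem_nhds hε)

lemma ev_gt {u : ℕ → ℝ} (hu : Tendsto u atTop (𝓝 0)) {ε : ℝ} (hε : 0 < ε) :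
    ∀ᶠ n in atTop, -ε < u n := hu.eventually (lt_mem_nhds (by linarith))

/-- `β_j = binom(2j, j) / 4^j` -/
def be (j : ℕ) : ℝ := (Nat.centralBinom j : ℝ) / 4 ^ j

lemma be_pos (j : ℕ) : 0 < be j :=
  div_pos (by exact_mod_cast Nat.centralBinom_pos j) (by positivity)

lemma be_succ (j : ℕ) : (2 * (j : ℝ) + 2) * be (j + 1) = (2 * (j : ℝ) + 1) * be j := by
  unfold be
  have h1 : ((j : ℝ) + 1) * (Nat.centralBinom (j + 1) : ℝ) =
      2 * (2 * (j : ℝ) + 1) * (Nat.centralBinom j : ℝ) := by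
    have := Nat.succ_mul_centralBinom_succ j
    exact_mod_cast this
  have h2 : (2 * (j : ℝ) + 2) * ((Nat.centralBinom (j + 1) : ℝ) / 4 ^ (j + 1)) =
      (2 * (((j : ℝ) + 1) * (Nat.centralBinom (j + 1) : ℝ))) / 4 ^ (j + 1) := by ring
  rw [h2, h1, pow_succ]
  field_simp
  ring

lemma be_one : be 1 = 1 / 2 := by
  unfold be
  have h1 : Nat.centralBinom 1 = 2 := by decide
  rw [h1]
  norm_num

lemma int3 {A B C F : ℂ → ℝ} (hA : Integrable A) (hB : Integrable B) (hC : Integrable C)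
    (a b c : ℝ) (hF : ∀ z, F z = a * A z + (b * B z + c * C z)) :
    ∫ z, F z = a * (∫ z, A z) + (b * (∫ z, B z) + c * ∫ z, C z) := by
  have hBC : Integrable (fun z => b * B z + c * C z) := (hB.const_mul b).add (hC.const_mul c)
  have e1 : ∫ z, F z = ∫ z, (a * A z + (b * B z + c * C z)) := by
    congr 1
    funext z
    exact hF z
  rw [e1, integral_add (hA.const_mul a) hBC, integral_add (hB.const_mul b) (hC.const_mul c),
    integral_const_mul, integral_const_mul, integral_const_mul]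

/-- the downward induction -/
lemma chain (k : ℕ) (P : ℕ → ℕ → ℝ)
    (hP : ∀ s, s + 1 ≤ k → ∀ ε : ℝ, 0 < ε → ∀ᶠ n in atTop,
      (2 * (s : ℝ) + 1) * P s n - ε ≤ (2 * (s : ℝ) + 2) * P (s + 1) n) :
    ∀ d s, s + d = k → ∀ ε : ℝ, 0 < ε → ∀ᶠ n in atTop, be k * P s n - ε ≤ be s * P k n := by
  intro d
  induction d with
  | zero =>
    intro s hs ε hε
    have : s = k := by omega
    rw [this]
    exact Eventually.of_forall fun n => by linarith
  | succ d ih =>
    intro s hs ε hε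
    have hk := be_pos k
    have h1 := ih (s + 1) (by omega) (ε / 4) (by positivity)
    have h2 := hP s (by omega) (ε / (2 * (be k + 1))) (by positivity)
    filter_upwards [h1, h2] with n g1 g2
    have hs0 : (0 : ℝ) ≤ (s : ℝ) := Nat.cast_nonneg s
    have e1 : be k * (ε / (2 * (be k + 1))) ≤ ε / 2 := by
      rw [mul_div_assoc', div_le_iff₀ (by positivity)]
      nlinarith
    have e2 : (2 * (s : ℝ) + 2) * (be k * P (s + 1) n - ε / 4) ≤
        (2 * (s : ℝ) + 2) * (be (s + 1) * P k n) := mul_le_mul_of_nonneg_left g1 (by positivity)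
    have e3 : be k * ((2 * (s : ℝ) + 1) * P s n - ε / (2 * (be k + 1))) ≤
        be k * ((2 * (s : ℝ) + 2) * P (s + 1) n) := mul_le_mul_of_nonneg_left g2 hk.le
    have e4 : (2 * (s : ℝ) + 2) * (be (s + 1) * P k n) = (2 * (s : ℝ) + 1) * (be s * P k n) := by
      rw [← mul_assoc, be_succ]
      ring
    have e5 : (2 * (s : ℝ) + 1) * (be k * P s n - ε) ≤ (2 * (s : ℝ) + 1) * (be s * P k n) := by
      rw [← e4]
      nlinarith
    exact le_of_mul_le_mul_left e5 (by positivity)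

end ChnM

open ChnM in
theorem stmtChn (hDe : StmtDe) (hI1 : StmtId1) (hI2 : StmtId2) : StmtChn := by
  intro k hk V q h f hS hB φ hφ hφ0
  have hq := hS.pot
  have hf : ∀ n, Continuous (f n) := fun n => (hS.sol n).smooth.continuous
  have hee : ∀ n, ContDiff ℝ ∞ (ee q (h n) (f n)) := fun n => (hDe V q hq (h n) (f n) (hS.sol n)).1
  have he : ∀ n, Continuous (ee q (h n) (f n)) := fun n => (hee n).continuous
  have hx : ∀ n, Continuous (xx q (h n) (f n)) := fun n => cont_xx hq (hS.sol n).smooth (hee n)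
  have hy : ∀ n, Continuous (yy q (h n) (f n)) := fun n => cont_yy hq (hee n)
  have hn : ∀ n, Continuous (nn q (h n) (f n) 1) := fun n => Rel.continuous_nn hq (hS.sol n).smooth _ _
  have hint : ∀ {G : ℂ → ℝ}, Continuous G → Integrable (fun z => φ z * G z) :=
    fun hG => Rel.integrable_testR hφ hG
  have cP : ∀ a b n : ℕ, Continuous (fun z => f n z ^ a * ee q (h n) (f n) z ^ b) :=
    fun a b n => ((hf n).pow a).mul ((he n).pow b)
  have cX : ∀ a b n : ℕ, Continuous (fun z => f n z ^ a * ee q (h n) (f n) z ^ b *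
      xx q (h n) (f n) z) := fun a b n => (cP a b n).mul (hx n)
  have cY : ∀ a m n : ℕ, Continuous (fun z => (2 * f n z ^ a * ee q (h n) (f n) z ^ m +
      (m : ℝ) * f n z ^ a * ee q (h n) (f n) z ^ (m - 1) * nn q (h n) (f n) 1 z) *
        yy q (h n) (f n) z) := fun a m n =>
    (((continuous_const.mul ((hf n).pow a)).mul ((he n).pow m)).add
      (((continuous_const.mul ((hf n).pow a)).mul ((he n).pow (m - 1))).mul (hn n))).mul (hy n)
  -- first step
  have A : ∀ l m, l + m + 2 = k → ∀ ε : ℝ, 0 < ε → ∀ᶠ n in atTop,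
      -ε ≤ ∫ z, φ z * (f n z ^ (2 * l + 1) * ee q (h n) (f n) z ^ m * xx q (h n) (f n) z) := by
    intro l
    induction l with
    | zero =>
      intro m hm ε hε
      have h1 := hI2 0 m k (by omega) V q h f hS hB φ hφ
      filter_upwards [ev_lt h1 (show (0 : ℝ) < 4 * ε by linarith)] with n g
      have i1 := hint (cX (2 * 0 + 1) m n)
      have i2 := hint (cY (2 * 0) m n)
      have e1 : ∫ z, φ z * ((2 * ((0 : ℕ) : ℝ) * f n z ^ (2 * 0 - 1) * ee q (h n) (f n) z ^ (m + 1) -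
          (2 * ((0 : ℕ) : ℝ) + 4) * f n z ^ (2 * 0 + 1) * ee q (h n) (f n) z ^ m) * xx q (h n) (f n) z +
          (2 * f n z ^ (2 * 0) * ee q (h n) (f n) z ^ m +
          (m : ℝ) * f n z ^ (2 * 0) * ee q (h n) (f n) z ^ (m - 1) * nn q (h n) (f n) 1 z) *
          yy q (h n) (f n) z) =
          -4 * (∫ z, φ z * (f n z ^ (2 * 0 + 1) * ee q (h n) (f n) z ^ m * xx q (h n) (f n) z)) +
          ∫ z, φ z * ((2 * f n z ^ (2 * 0) * ee q (h n) (f n) z ^ m +
          (m : ℝ) * f n z ^ (2 * 0) * ee q (h n) (f n) z ^ (m - 1) * nn q (h n) (f n) 1 z) *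
          yy q (h n) (f n) z) := by
        rw [← integral_const_mul, ← integral_add (i1.const_mul _) i2]
        congr 1
        funext z
        push_cast
        ring
      have e2 : 0 ≤ ∫ z, φ z * ((2 * f n z ^ (2 * 0) * ee q (h n) (f n) z ^ m +
          (m : ℝ) * f n z ^ (2 * 0) * ee q (h n) (f n) z ^ (m - 1) * nn q (h n) (f n) 1 z) *
          yy q (h n) (f n) z) := by
        refine integral_nonneg fun z => mul_nonneg (hφ0 z) (mul_nonneg ?_ (yy_nonneg hq _ _ _))
        have h3 := ee_nonneg hq (h n) (f n) z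
        have h4 : 0 ≤ nn q (h n) (f n) 1 z := Rel.nn_nonneg hq 1
        have h5 : 0 ≤ f n z ^ (2 * 0) := (even_two_mul 0).pow_nonneg _
        positivity
      rw [e1] at g
      linarith
    | succ l ih =>
      intro m hm ε hε
      have h1 := hI2 (l + 1) m k (by omega) V q h f hS hB φ hφ
      have hl0 : (0 : ℝ) ≤ (l : ℝ) := Nat.cast_nonneg l
      filter_upwards [ev_lt h1 hε, ih (m + 1) (by omega) ε hε] with n g g'
      have i1 := hint (cX (2 * (l + 1) + 1) m n)
      have i0 := hint (cX (2 * l + 1) (m + 1) n)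
      have i2 := hint (cY (2 * (l + 1)) m n)
      have hexp : 2 * (l + 1) - 1 = 2 * l + 1 := by omega
      rw [hexp] at g
      have e1 : ∫ z, φ z * ((2 * ((l + 1 : ℕ) : ℝ) * f n z ^ (2 * l + 1) *
          ee q (h n) (f n) z ^ (m + 1) -
          (2 * ((l + 1 : ℕ) : ℝ) + 4) * f n z ^ (2 * (l + 1) + 1) * ee q (h n) (f n) z ^ m) *
            xx q (h n) (f n) z +
          (2 * f n z ^ (2 * (l + 1)) * ee q (h n) (f n) z ^ m +
          (m : ℝ) * f n z ^ (2 * (l + 1)) * ee q (h n) (f n) z ^ (m - 1) * nn q (h n) (f n) 1 z) *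
          yy q (h n) (f n) z) =
          2 * ((l : ℝ) + 1) * (∫ z, φ z * (f n z ^ (2 * l + 1) * ee q (h n) (f n) z ^ (m + 1) *
            xx q (h n) (f n) z)) +
          (-(2 * (l : ℝ) + 6) * (∫ z, φ z * (f n z ^ (2 * (l + 1) + 1) * ee q (h n) (f n) z ^ m *
            xx q (h n) (f n) z)) +
          1 * ∫ z, φ z * ((2 * f n z ^ (2 * (l + 1)) * ee q (h n) (f n) z ^ m +
          (m : ℝ) * f n z ^ (2 * (l + 1)) * ee q (h n) (f n) z ^ (m - 1) * nn q (h n) (f n) 1 z) *
          yy q (h n) (f n) z)) := by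
        refine int3 i0 i1 i2 _ _ _ fun z => ?_
        push_cast
        ring
      have e2 : 0 ≤ ∫ z, φ z * ((2 * f n z ^ (2 * (l + 1)) * ee q (h n) (f n) z ^ m +
          (m : ℝ) * f n z ^ (2 * (l + 1)) * ee q (h n) (f n) z ^ (m - 1) * nn q (h n) (f n) 1 z) *
          yy q (h n) (f n) z) := by
        refine integral_nonneg fun z => mul_nonneg (hφ0 z) (mul_nonneg ?_ (yy_nonneg hq _ _ _))
        have h3 := ee_nonneg hq (h n) (f n) z
        have h4 : 0 ≤ nn q (h n) (f n) 1 z := Rel.nn_nonneg hq 1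
        have h5 : 0 ≤ f n z ^ (2 * (l + 1)) := (even_two_mul _).pow_nonneg _
        positivity
      rw [e1] at g
      set P := ∫ z, φ z * (f n z ^ (2 * l + 1) * ee q (h n) (f n) z ^ (m + 1) *
            xx q (h n) (f n) z)
      set Q := ∫ z, φ z * (f n z ^ (2 * (l + 1) + 1) * ee q (h n) (f n) z ^ m *
            xx q (h n) (f n) z)
      have e3 : 2 * ((l : ℝ) + 1) * (-ε) ≤ 2 * ((l : ℝ) + 1) * P :=
        mul_le_mul_of_nonneg_left g' (by positivity)
      have e4 : (2 * (l : ℝ) + 6) * (-ε) ≤ (2 * (l : ℝ) + 6) * Q := by nlinarith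
      exact le_of_mul_le_mul_left e4 (by positivity)
  -- second step
  have B : ∀ s, s + 1 ≤ k → ∀ ε : ℝ, 0 < ε → ∀ᶠ n in atTop,
      (2 * (s : ℝ) + 1) * (∫ z, φ z * (f n z ^ (2 * s) * ee q (h n) (f n) z ^ (k - s))) - ε ≤
        (2 * (s : ℝ) + 2) *
          ∫ z, φ z * (f n z ^ (2 * (s + 1)) * ee q (h n) (f n) z ^ (k - (s + 1))) := by
    intro s hs ε hε
    obtain ⟨i, hi⟩ : ∃ i, s + i + 1 = k := ⟨k - s - 1, by omega⟩
    have hks : k - s = i + 1 := by omega
    have hks1 : k - (s + 1) = i := by omega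
    rw [hks, hks1]
    have h1 := hI1 s i k hi V q h f hS hB φ hφ
    have hi0 : (0 : ℝ) ≤ (i : ℝ) := Nat.cast_nonneg i
    have hR : ∀ᶠ n in atTop, -(ε / 2) ≤ (i : ℝ) * ∫ z, φ z * (f n z ^ (2 * s + 1) *
        ee q (h n) (f n) z ^ (i - 1) * xx q (h n) (f n) z) := by
      rcases Nat.eq_zero_or_pos i with h0 | h0
      · refine Eventually.of_forall fun n => ?_
        rw [h0]
        push_cast
        rw [zero_mul]
        linarith
      · filter_upwards [A s (i - 1) (by omega) (ε / (2 * (i : ℝ))) (by positivity)] with n g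
        have hip : (0 : ℝ) < (i : ℝ) := by exact_mod_cast h0
        have e1 : (i : ℝ) * (-(ε / (2 * (i : ℝ)))) = -(ε / 2) := by field_simp
        rw [← e1]
        exact mul_le_mul_of_nonneg_left g hi0
    filter_upwards [ev_lt h1 (show (0 : ℝ) < ε / 2 by positivity), hR] with n g g'
    have i1 := hint (cP (2 * s) (i + 1) n)
    have i2 := hint (cP (2 * (s + 1)) i n)
    have i3 := hint (cX (2 * s + 1) (i - 1) n)
    have e1 : ∫ z, φ z * ((2 * (s : ℝ) + 1) * f n z ^ (2 * s) * ee q (h n) (f n) z ^ (i + 1) -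
        (2 * (s : ℝ) + 2) * f n z ^ (2 * s + 2) * ee q (h n) (f n) z ^ i +
        (i : ℝ) * f n z ^ (2 * s + 1) * ee q (h n) (f n) z ^ (i - 1) * xx q (h n) (f n) z) =
        (2 * (s : ℝ) + 1) * (∫ z, φ z * (f n z ^ (2 * s) * ee q (h n) (f n) z ^ (i + 1))) +
        (-(2 * (s : ℝ) + 2) * (∫ z, φ z * (f n z ^ (2 * (s + 1)) * ee q (h n) (f n) z ^ i)) +
        (i : ℝ) * ∫ z, φ z * (f n z ^ (2 * s + 1) * ee q (h n) (f n) z ^ (i - 1) *
          xx q (h n) (f n) z)) := by
      refine int3 i1 i2 i3 _ _ _ fun z => ?_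
      ring
    rw [e1] at g
    linarith
  -- third step
  intro ε hε
  have hC := chain k (fun s n => ∫ z, φ z * (f n z ^ (2 * s) * ee q (h n) (f n) z ^ (k - s))) B
    (k - 1) 1 (by omega) (ε / 2) (by positivity)
  filter_upwards [hC] with n g
  simp only [Nat.sub_self, pow_zero, mul_one] at g
  rw [be_one] at g
  have e1 : cb k / 4 ^ (k - 1) = 2 * be k := by
    unfold cb be
    have : (4 : ℝ) ^ k = 4 ^ (k - 1) * 4 := by
      rw [← pow_succ]
      congr 1
      omega
    rw [this]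
    field_simp
    ring
  rw [e1]
  linarith

end

end Pool.Agent.A54.Ev
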