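import Pool.Agent.Lib.MP_a54f13_nt.Ev.Spec

/-!
The Laplacian of the energy density.
-/

set_option autoImplicit false

namespace Pool.Agent.A54.Ev

open MeasureTheory Filter Topology Set
open scoped ContDiff ComplexConjugate UpperHalfPlane MatrixGroups

noncomputable section

namespace DdM

variable {V : Set ℂ} {q : ℂ → ℝ} {h : ℝ} {f : ℂ → ℝ} {z : ℂ}

/-- `1 / q` -/
def iq (q : ℂ → ℝ) (w : ℂ) : ℂ := ((q w : ℂ))⁻¹

lemma q_ne (hq : Pot V q) (w : ℂ) : (q w : ℂ) ≠ 0 := Complex.ofReal_ne_zero.mpr (hq.pos w).ne'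

lemma contDiff_iq (hq : Pot V q) : ContDiff ℝ ∞ (iq q) :=
  (contDiff_ofReal hq.smooth).inv (q_ne hq)

lemma dzb_f (hf : Sol V q h f) :
    (h : ℂ) * dzb (fun w => (f w : ℂ)) z = conj (gg h f 1 z) := by
  have hF : ContDiff ℝ ∞ (fun w => (f w : ℂ)) := contDiff_ofReal hf.smooth
  have e : (fun w => (f w : ℂ)) = fun w => conj ((f w : ℂ)) := by
    funext w; rw [Complex.conj_ofReal]
  have e1 : gg h f 1 z = (h : ℂ) * dz (fun w => (f w : ℂ)) z := rfl
  have e2 : dzb (fun w => (f w : ℂ)) z = conj (dz (fun w => (f w : ℂ)) z) := by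
    rw [← dzb_conj hF]
    exact congrArg (fun g => dzb g z) e
  rw [e2, e1, map_mul, Complex.conj_ofReal]

lemma dzb_g2 (hq : Pot V q) (hf : Sol V q h f) (hz : z ∈ V) :
    (h : ℂ) * dzb (gg h f 2) z = -(q z : ℂ) * gg h f 1 z -
      (h : ℂ) * (dz (fun w => (q w : ℂ)) z * (f z : ℂ)) := by
  have hg1 : ContDiff ℝ ∞ (gg h f 1) := contDiff_gg hf.smooth h 1
  have hQ : ContDiff ℝ ∞ (fun w => (q w : ℂ)) := contDiff_ofReal hq.smooth
  have hF : ContDiff ℝ ∞ (fun w => (f w : ℂ)) := contDiff_ofReal hf.smooth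
  have e1 : gg h f 2 = fun w => (h : ℂ) * dz (gg h f 1) w := rfl
  have e2 : gg h f 1 z = (h : ℂ) * dz (fun w => (f w : ℂ)) z := rfl
  rw [e1, dzb_const_mul _ (contDiff_dz hg1), ← dz_dzb_comm hg1,
    ← dz_const_mul _ (contDiff_dzb hg1), dz_congr hq.isOpen (fun w hw => hf.eq w hw) hz,
    dz_neg (hQ.mul hF), dz_mul hQ hF, e2]
  ring

lemma dzb_cg (hf : Sol V q h f) :
    (h : ℂ) * dzb (fun w => conj (gg h f 1 w)) z = conj (gg h f 2 z) := by
  have e1 : gg h f 2 z = (h : ℂ) * dz (gg h f 1) z := rfl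
  rw [dzb_conj (contDiff_gg hf.smooth h 1), e1, map_mul, Complex.conj_ofReal]

lemma de_eq (hDe : StmtDe) (hq : Pot V q) (hf : Sol V q h f) (hz : z ∈ V) :
    de q h f z = (f z : ℂ) * gg h f 1 z + gg h f 2 z * conj (gg h f 1 z) * iq q z +
      (h : ℂ) * (dz (iq q) z * (gg h f 1 z * conj (gg h f 1 z))) := by
  rw [(hDe V q hq h f hf).2 z hz, Complex.mul_conj', Complex.ofReal_pow, div_eq_mul_inv]
  rfl

lemma main (hDe : StmtDe) (hq : Pot V q) (hf : Sol V q h f) (hz : z ∈ V) :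
    (h : ℂ) * dzb (de q h f) z - ((‖gg h f 2 z‖ ^ 2 / q z - q z * f z ^ 2 : ℝ) : ℂ) =
      (h : ℂ) * (-(dz (fun w => (q w : ℂ)) z * iq q z) * ((f z : ℂ) * conj (gg h f 1 z)) +
        dzb (iq q) z * (gg h f 2 z * conj (gg h f 1 z)) +
        (h : ℂ) * (dzb (dz (iq q)) z * (gg h f 1 z * conj (gg h f 1 z))) +
        -(dz (iq q) z * (q z : ℂ)) * ((f z : ℂ) * conj (gg h f 1 z)) +
        dz (iq q) z * (gg h f 1 z * conj (gg h f 2 z))) := by
  have hg : ∀ m, ContDiff ℝ ∞ (gg h f m) := contDiff_gg hf.smooth h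
  have hF : ContDiff ℝ ∞ (fun w => (f w : ℂ)) := contDiff_ofReal hf.smooth
  have hP := contDiff_iq hq
  have hK := contDiff_dz hP
  have hC : ContDiff ℝ ∞ (fun w => conj (gg h f 1 w)) := contDiff_conj (hg 1)
  have e : dzb (de q h f) z = dzb (fun w => (f w : ℂ) * gg h f 1 w +
      gg h f 2 w * conj (gg h f 1 w) * iq q w +
      (h : ℂ) * (dz (iq q) w * (gg h f 1 w * conj (gg h f 1 w)))) z :=
    dzb_congr hq.isOpen (fun w hw => de_eq hDe hq hf hw) hz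
  rw [e, dzb_add ((hF.mul (hg 1)).add (((hg 2).mul hC).mul hP))
      (contDiff_const.mul (hK.mul ((hg 1).mul hC))),
    dzb_add (hF.mul (hg 1)) (((hg 2).mul hC).mul hP), dzb_mul hF (hg 1),
    dzb_mul ((hg 2).mul hC) hP, dzb_mul (hg 2) hC,
    dzb_const_mul _ (hK.mul ((hg 1).mul hC)), dzb_mul hK ((hg 1).mul hC), dzb_mul (hg 1) hC]
  have e0 := dzb_f (z := z) hf
  have e1 := hf.eq z hz
  have e2 := dzb_g2 hq hf hz
  have e3 := dzb_cg (z := z) hf
  have e4 : (q z : ℂ) * iq q z = 1 := mul_inv_cancel₀ (q_ne hq z)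
  have e5 : ((‖gg h f 2 z‖ ^ 2 / q z - q z * f z ^ 2 : ℝ) : ℂ) =
      gg h f 2 z * conj (gg h f 2 z) * iq q z - (q z : ℂ) * (f z : ℂ) ^ 2 := by
    rw [Complex.mul_conj']
    push_cast
    rw [div_eq_mul_inv]
    rfl
  rw [e5]
  linear_combination (gg h f 1 z) * e0 + ((f z : ℂ) + (h : ℂ) * dz (iq q) z *
      conj (gg h f 1 z)) * e1 + (conj (gg h f 1 z) * iq q z) * e2 +
    (gg h f 2 z * iq q z + (h : ℂ) * dz (iq q) z * gg h f 1 z) * e3 -
    (gg h f 1 z * conj (gg h f 1 z)) * e4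

lemma term {c x y : ℂ} {C s : ℝ} (hc : ‖c‖ ≤ C) (hx : ‖x‖ ≤ s) (hy : ‖y‖ ≤ s) :
    ‖c * (x * y)‖ ≤ C * s ^ 2 := by
  rw [norm_mul, norm_mul, pow_two]
  exact mul_le_mul hc (mul_le_mul hx hy (norm_nonneg _) ((norm_nonneg _).trans hx))
    (mul_nonneg (norm_nonneg _) (norm_nonneg _)) ((norm_nonneg _).trans hc)

lemma le_sm (j : ℕ) (hj : j ∈ Finset.range 3) : ‖gg h f j z‖ ≤ sm h f 2 z :=
  Finset.single_le_sum (f := fun j => ‖gg h f j z‖) (fun _ _ => norm_nonneg _) hj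

end DdM

open DdM in
theorem stmtDd (hDe : StmtDe) : StmtDd := by
  intro V q hq K hK hKV
  have hP := contDiff_iq hq
  have hQ : ContDiff ℝ ∞ (fun w => (q w : ℂ)) := contDiff_ofReal hq.smooth
  have hκ := contDiff_dz hP
  obtain ⟨C1, h1⟩ := hK.exists_bound_of_continuousOn
    (((contDiff_dz hQ).mul hP).neg.continuous.continuousOn (s := K))
  obtain ⟨C2, h2⟩ := hK.exists_bound_of_continuousOn
    ((contDiff_dzb hP).continuous.continuousOn (s := K))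
  obtain ⟨C3, h3⟩ := hK.exists_bound_of_continuousOn
    ((contDiff_dzb hκ).continuous.continuousOn (s := K))
  obtain ⟨C4, h4⟩ := hK.exists_bound_of_continuousOn
    ((hκ.mul hQ).neg.continuous.continuousOn (s := K))
  obtain ⟨C5, h5⟩ := hK.exists_bound_of_continuousOn (hκ.continuous.continuousOn (s := K))
  refine ⟨max (C1 + C2 + C3 + C4 + C5) 0, le_max_right _ _, fun h f hf z hz => ?_⟩
  have hzV := hKV hz
  rw [main hDe hq hf hzV, norm_mul, Complex.norm_real, Real.norm_of_nonneg hf.hpos.le]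
  refine mul_le_mul_of_nonneg_left ?_ hf.hpos.le
  have s0 : ‖(f z : ℂ)‖ ≤ sm h f 2 z := le_sm (h := h) (f := f) (z := z) 0 (by decide)
  have s1 : ‖gg h f 1 z‖ ≤ sm h f 2 z := le_sm 1 (by decide)
  have s2 : ‖gg h f 2 z‖ ≤ sm h f 2 z := le_sm 2 (by decide)
  have s1' : ‖conj (gg h f 1 z)‖ ≤ sm h f 2 z := by rw [RCLike.norm_conj]; exact s1
  have s2' : ‖conj (gg h f 2 z)‖ ≤ sm h f 2 z := by rw [RCLike.norm_conj]; exact s2
  have t1 := term (h1 z hz) s0 s1'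
  have t2 := term (h2 z hz) s2 s1'
  have t3 := term (h3 z hz) s1 s1'
  have t4 := term (h4 z hz) s0 s1'
  have t5 := term (h5 z hz) s1 s2'
  have t3' : ‖(h : ℂ) * (dzb (dz (iq q)) z * (gg h f 1 z * conj (gg h f 1 z)))‖ ≤
      C3 * sm h f 2 z ^ 2 := by
    rw [norm_mul, Complex.norm_real, Real.norm_of_nonneg hf.hpos.le]
    calc _ ≤ 1 * ‖dzb (dz (iq q)) z * (gg h f 1 z * conj (gg h f 1 z))‖ :=
          mul_le_mul_of_nonneg_right hf.hle (norm_nonneg _)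
      _ ≤ _ := by rw [one_mul]; exact t3
  calc _ ≤ (C1 + C2 + C3 + C4 + C5) * sm h f 2 z ^ 2 := by
        refine (norm_add_le_of_le (norm_add_le_of_le (norm_add_le_of_le
          (norm_add_le_of_le t1 t2) t3') t4) t5).trans (le_of_eq ?_)
        ring
    _ ≤ _ := mul_le_mul_of_nonneg_right (le_max_left _ _) (sq_nonneg _)

end

end Pool.Agent.A54.Ev
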