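import Pool.Agent.Lib.MP_a54f13_nt.Ev.Spec

/-!
# `StmtDe`: the derivative of the energy density
-/

set_option autoImplicit false

namespace Pool.Agent.A54.Ev

open MeasureTheory Filter Topology Set
open scoped ContDiff ComplexConjugate UpperHalfPlane MatrixGroups

noncomputable section

namespace DeM

variable {V : Set ℂ} {q : ℂ → ℝ} {h : ℝ} {f : ℂ → ℝ}

lemma smooth (hq : Pot V q) (hf : Sol V q h f) : ContDiff ℝ ∞ (ee q h f) := by
  have h1 : ContDiff ℝ ∞ (fun z => ‖gg h f 1 z‖ ^ 2) := (contDiff_gg hf.smooth h 1).norm_sq ℝ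
  have h2 : ContDiff ℝ ∞ (fun z => ‖gg h f 1 z‖ ^ 2 / q z ^ 1) :=
    h1.div (hq.smooth.pow 1) (fun z => pow_ne_zero 1 (hq.pos z).ne')
  exact (hf.smooth.pow 2).add h2

lemma smooth_inv (hq : Pot V q) : ContDiff ℝ ∞ (fun w => ((q w : ℂ))⁻¹) :=
  (contDiff_ofReal hq.smooth).inv (fun z => Complex.ofReal_ne_zero.2 (hq.pos z).ne')

/-- the energy density as a complex function -/
lemma ee_eq (w : ℂ) : ((ee q h f w : ℝ) : ℂ) =
    gg h f 0 w * gg h f 0 w + gg h f 1 w * conj (gg h f 1 w) * ((q w : ℂ))⁻¹ := by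
  rw [Complex.mul_conj', gg_zero]
  unfold ee nn
  push_cast
  ring

lemma formula (hq : Pot V q) (hf : Sol V q h f) (z : ℂ) (hz : z ∈ V) :
    de q h f z = (f z : ℂ) * gg h f 1 z + gg h f 2 z * conj (gg h f 1 z) / (q z : ℂ) +
      (h : ℂ) * (dz (fun w => ((q w : ℂ))⁻¹) z * (‖gg h f 1 z‖ ^ 2 : ℝ)) := by
  have c0 := contDiff_gg hf.smooth h 0
  have c1 := contDiff_gg hf.smooth h 1
  have cc := contDiff_conj c1
  have cq := smooth_inv hq
  have hqz : (q z : ℂ) ≠ 0 := Complex.ofReal_ne_zero.2 (hq.pos z).ne'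
  have e1 : dz (fun w => ((ee q h f w : ℝ) : ℂ)) z =
      dz (gg h f 0) z * gg h f 0 z + gg h f 0 z * dz (gg h f 0) z +
      ((dz (gg h f 1) z * conj (gg h f 1 z) + gg h f 1 z * conj (dzb (gg h f 1) z)) * ((q z : ℂ))⁻¹ +
        gg h f 1 z * conj (gg h f 1 z) * dz (fun w => ((q w : ℂ))⁻¹) z) := by
    have e2 : (fun w => ((ee q h f w : ℝ) : ℂ)) = fun w =>
        gg h f 0 w * gg h f 0 w + gg h f 1 w * conj (gg h f 1 w) * ((q w : ℂ))⁻¹ := funext ee_eq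
    rw [e2, dz_add (c0.mul c0) ((c1.mul cc).mul cq), dz_mul c0 c0, dz_mul (c1.mul cc) cq, dz_mul c1 cc,
      dz_conj c1]
  have e3 : (h : ℂ) * conj (dzb (gg h f 1) z) = -((q z : ℂ) * (f z : ℂ)) := by
    have e4 := congrArg conj (hf.eq z hz)
    simpa [map_mul, map_neg, Complex.conj_ofReal] using e4
  have e5 : gg h f 2 z = (h : ℂ) * dz (gg h f 1) z := rfl
  have e6 : gg h f 1 z = (h : ℂ) * dz (gg h f 0) z := rfl
  have e7 : ((‖gg h f 1 z‖ ^ 2 : ℝ) : ℂ) = gg h f 1 z * conj (gg h f 1 z) := by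
    rw [Complex.mul_conj']
    push_cast
    ring
  have e8 : gg h f 0 z = (f z : ℂ) := rfl
  unfold de
  rw [e1, e7, e8]
  have e9 : (q z : ℂ) * ((q z : ℂ))⁻¹ = 1 := mul_inv_cancel₀ hqz
  rw [div_eq_mul_inv, e5]
  linear_combination (-2 * (f z : ℂ)) * e6 + gg h f 1 z * ((q z : ℂ))⁻¹ * e3 -
    gg h f 1 z * (f z : ℂ) * e9

end DeM

theorem stmtDe : StmtDe := fun _ _ hq _ _ hf => ⟨DeM.smooth hq hf, DeM.formula hq hf⟩

end

end Pool.Agent.A54.Ev
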