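import Pool.Agent.Lib.MP_a54f13_nt.Ev.Spec
import Pool.Agent.Lib.MP_a54f13_nt.Rel

/-!
# Package `Ev`, module `Dif`: `N Δe = Y - 2 f X` up to `O(h)`
-/

set_option autoImplicit false

namespace Pool.Agent.A54.Ev

open MeasureTheory Filter Topology Set
open scoped ContDiff ComplexConjugate UpperHalfPlane MatrixGroups

noncomputable section

namespace DifM

/-- the exact identity for `e₁ = f g_1 + g_2 conj g_1 / q` -/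
private lemma exact_id (a p : ℝ) (g1 g2 : ℂ) :
    ‖(a : ℂ) * g1 + g2 * conj g1 * (p : ℂ)‖ ^ 2 * p -
      2 * a * ((conj g1 * ((a : ℂ) * g1 + g2 * conj g1 * (p : ℂ))).re * p) =
    ‖g1‖ ^ 2 * p * (‖g2‖ ^ 2 * p ^ 2 - a ^ 2) := by
  simp only [Complex.sq_norm, Complex.normSq_apply, Complex.add_re, Complex.add_im,
    Complex.mul_re, Complex.mul_im, Complex.conj_re, Complex.conj_im, Complex.ofReal_re,
    Complex.ofReal_im]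
  ring

/-- the estimates, in terms of `p = 1 / q` -/
private lemma core {a p h P κ₀ C₁ S : ℝ} {g1 g2 κ D : ℂ} (hh : 0 < h) (hh1 : h ≤ 1) (hp : 0 < p)
    (hpP : p ≤ P) (hκ : ‖κ‖ ≤ κ₀) (hC₁ : 0 ≤ C₁) (ha : |a| ≤ S) (h1 : ‖g1‖ ≤ S) (h2 : ‖g2‖ ≤ S)
    (hD : ‖D - ((‖g2‖ ^ 2 * p - p⁻¹ * a ^ 2 : ℝ) : ℂ)‖ ≤ h * (C₁ * S ^ 2)) :
    ‖g1‖ ^ 2 * p ≤ P * S ^ 2 ∧ a ^ 2 + ‖g1‖ ^ 2 * p ≤ (1 + P) * S ^ 2 ∧
    ‖(a : ℂ) * g1 + g2 * conj g1 * (p : ℂ) + (h : ℂ) * (κ * ((‖g1‖ ^ 2 : ℝ) : ℂ))‖ ≤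
      (1 + P + κ₀) * S ^ 2 ∧
    |‖g1‖ ^ 2 * p * (D.re * p) -
      (‖(a : ℂ) * g1 + g2 * conj g1 * (p : ℂ) + (h : ℂ) * (κ * ((‖g1‖ ^ 2 : ℝ) : ℂ))‖ ^ 2 * p -
        2 * a * ((conj g1 * ((a : ℂ) * g1 + g2 * conj g1 * (p : ℂ) +
          (h : ℂ) * (κ * ((‖g1‖ ^ 2 : ℝ) : ℂ)))).re * p))| ≤
      h * ((P ^ 2 * C₁ + 2 * P * κ₀ * (1 + P + κ₀) + 2 * P * κ₀) * S ^ 4) := by
  have hS : 0 ≤ S := (abs_nonneg a).trans ha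
  have hP : 0 ≤ P := hp.le.trans hpP
  have hκ0 : 0 ≤ κ₀ := (norm_nonneg _).trans hκ
  have hg1 : 0 ≤ ‖g1‖ := norm_nonneg _
  have hg2 : 0 ≤ ‖g2‖ := norm_nonneg _
  have hsq1 : ‖g1‖ ^ 2 ≤ S ^ 2 := by gcongr
  have hsqa : a ^ 2 ≤ S ^ 2 := by rw [← sq_abs a]; gcongr
  have hN : ‖g1‖ ^ 2 * p ≤ P * S ^ 2 := by
    calc ‖g1‖ ^ 2 * p ≤ S ^ 2 * P := by gcongr
      _ = P * S ^ 2 := by ring
  set e1 : ℂ := (a : ℂ) * g1 + g2 * conj g1 * (p : ℂ) with he1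
  set δ : ℂ := (h : ℂ) * (κ * ((‖g1‖ ^ 2 : ℝ) : ℂ)) with hδ
  have hne1 : ‖e1‖ ≤ (1 + P) * S ^ 2 := by
    have e : ‖(a : ℂ) * g1‖ ≤ S * S := by
      rw [norm_mul, Complex.norm_real, Real.norm_eq_abs]
      gcongr
    have e' : ‖g2 * conj g1 * (p : ℂ)‖ ≤ S * S * P := by
      rw [norm_mul, norm_mul, RCLike.norm_conj, Complex.norm_real, Real.norm_eq_abs, abs_of_pos hp]
      gcongr
    calc ‖e1‖ ≤ ‖(a : ℂ) * g1‖ + ‖g2 * conj g1 * (p : ℂ)‖ := norm_add_le _ _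
      _ ≤ S * S + S * S * P := add_le_add e e'
      _ = (1 + P) * S ^ 2 := by ring
  have hnδ : ‖δ‖ ≤ h * (κ₀ * S ^ 2) := by
    rw [hδ, norm_mul, norm_mul, Complex.norm_real, Complex.norm_real, Real.norm_eq_abs,
      Real.norm_eq_abs, abs_of_pos hh, abs_of_nonneg (by positivity : (0 : ℝ) ≤ ‖g1‖ ^ 2)]
    gcongr
  have hnδ1 : ‖δ‖ ≤ κ₀ * S ^ 2 := by
    refine hnδ.trans ?_
    have : 0 ≤ κ₀ * S ^ 2 := by positivity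
    nlinarith
  have hde : ‖e1 + δ‖ ≤ (1 + P + κ₀) * S ^ 2 := by
    calc ‖e1 + δ‖ ≤ ‖e1‖ + ‖δ‖ := norm_add_le _ _
      _ ≤ (1 + P) * S ^ 2 + κ₀ * S ^ 2 := add_le_add hne1 hnδ1
      _ = (1 + P + κ₀) * S ^ 2 := by ring
  refine ⟨hN, ?_, hde, ?_⟩
  · calc a ^ 2 + ‖g1‖ ^ 2 * p ≤ S ^ 2 + P * S ^ 2 := add_le_add hsqa hN
      _ = (1 + P) * S ^ 2 := by ring
  -- the three errors
  have hid := exact_id a p g1 g2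
  rw [← he1] at hid
  have hR : |D.re - (‖g2‖ ^ 2 * p - p⁻¹ * a ^ 2)| ≤ h * (C₁ * S ^ 2) := by
    have := (Complex.abs_re_le_norm (D - ((‖g2‖ ^ 2 * p - p⁻¹ * a ^ 2 : ℝ) : ℂ))).trans hD
    rwa [Complex.sub_re, Complex.ofReal_re] at this
  have hA : |‖g1‖ ^ 2 * p * ((D.re - (‖g2‖ ^ 2 * p - p⁻¹ * a ^ 2)) * p)| ≤
      h * (P ^ 2 * C₁ * S ^ 4) := by
    rw [abs_mul, abs_of_nonneg (by positivity : (0 : ℝ) ≤ ‖g1‖ ^ 2 * p), abs_mul, abs_of_pos hp]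
    calc ‖g1‖ ^ 2 * p * (|D.re - (‖g2‖ ^ 2 * p - p⁻¹ * a ^ 2)| * p)
        ≤ P * S ^ 2 * (h * (C₁ * S ^ 2) * P) := by gcongr
      _ = h * (P ^ 2 * C₁ * S ^ 4) := by ring
  have hB : |(‖e1 + δ‖ ^ 2 - ‖e1‖ ^ 2) * p| ≤ h * (2 * P * κ₀ * (1 + P + κ₀) * S ^ 4) := by
    have e : |‖e1 + δ‖ - ‖e1‖| ≤ ‖δ‖ := by
      have := abs_norm_sub_norm_le (e1 + δ) e1
      rwa [add_sub_cancel_left] at this
    have e' : (‖e1 + δ‖ ^ 2 - ‖e1‖ ^ 2) * p = (‖e1 + δ‖ - ‖e1‖) * (‖e1 + δ‖ + ‖e1‖) * p := by ring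
    have hne1' : ‖e1‖ ≤ (1 + P + κ₀) * S ^ 2 := by
      refine hne1.trans ?_
      have : 0 ≤ κ₀ * S ^ 2 := by positivity
      nlinarith
    rw [e', abs_mul, abs_mul, abs_of_pos hp,
      abs_of_nonneg (by positivity : (0 : ℝ) ≤ ‖e1 + δ‖ + ‖e1‖)]
    calc |‖e1 + δ‖ - ‖e1‖| * (‖e1 + δ‖ + ‖e1‖) * p
        ≤ (h * (κ₀ * S ^ 2)) * ((1 + P + κ₀) * S ^ 2 + (1 + P + κ₀) * S ^ 2) * P := by
          have := e.trans hnδ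
          gcongr
      _ = h * (2 * P * κ₀ * (1 + P + κ₀) * S ^ 4) := by ring
  have hC : |2 * a * ((conj g1 * δ).re * p)| ≤ h * (2 * P * κ₀ * S ^ 4) := by
    have e : |(conj g1 * δ).re| ≤ S * (h * (κ₀ * S ^ 2)) := by
      refine (Complex.abs_re_le_norm _).trans ?_
      rw [norm_mul, RCLike.norm_conj]
      gcongr
    rw [abs_mul, abs_mul, abs_mul, abs_of_pos hp, abs_of_pos (by norm_num : (0 : ℝ) < 2)]
    calc 2 * |a| * (|(conj g1 * δ).re| * p) ≤ 2 * S * (S * (h * (κ₀ * S ^ 2)) * P) := by gcongr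
      _ = h * (2 * P * κ₀ * S ^ 4) := by ring
  have hsplit : ‖g1‖ ^ 2 * p * (D.re * p) -
      (‖e1 + δ‖ ^ 2 * p - 2 * a * ((conj g1 * (e1 + δ)).re * p)) =
      ‖g1‖ ^ 2 * p * ((D.re - (‖g2‖ ^ 2 * p - p⁻¹ * a ^ 2)) * p) -
      (‖e1 + δ‖ ^ 2 - ‖e1‖ ^ 2) * p + 2 * a * ((conj g1 * δ).re * p) := by
    have e : (conj g1 * (e1 + δ)).re = (conj g1 * e1).re + (conj g1 * δ).re := by
      rw [mul_add, Complex.add_re]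
    have e2 : (‖g2‖ ^ 2 * p - p⁻¹ * a ^ 2) * p = ‖g2‖ ^ 2 * p ^ 2 - a ^ 2 := by
      field_simp
    have e3 : ‖g1‖ ^ 2 * p * ((‖g2‖ ^ 2 * p - p⁻¹ * a ^ 2) * p) =
        ‖e1‖ ^ 2 * p - 2 * a * ((conj g1 * e1).re * p) := by
      rw [e2, hid]
    rw [e]
    linear_combination e3
  rw [hsplit]
  calc |‖g1‖ ^ 2 * p * ((D.re - (‖g2‖ ^ 2 * p - p⁻¹ * a ^ 2)) * p) -
        (‖e1 + δ‖ ^ 2 - ‖e1‖ ^ 2) * p + 2 * a * ((conj g1 * δ).re * p)|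
      ≤ |‖g1‖ ^ 2 * p * ((D.re - (‖g2‖ ^ 2 * p - p⁻¹ * a ^ 2)) * p)| +
        |(‖e1 + δ‖ ^ 2 - ‖e1‖ ^ 2) * p| + |2 * a * ((conj g1 * δ).re * p)| :=
        (abs_add_le _ _).trans (add_le_add (abs_sub _ _) le_rfl)
    _ ≤ h * (P ^ 2 * C₁ * S ^ 4) + h * (2 * P * κ₀ * (1 + P + κ₀) * S ^ 4) +
        h * (2 * P * κ₀ * S ^ 4) := add_le_add (add_le_add hA hB) hC
    _ = h * ((P ^ 2 * C₁ + 2 * P * κ₀ * (1 + P + κ₀) + 2 * P * κ₀) * S ^ 4) := by ring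

end DifM

open DifM in
theorem stmtDif (hDe : StmtDe) (hDd : StmtDd) : StmtDif := by
  intro V q hq K hK hKV
  obtain ⟨C₁, hC₁, hDd'⟩ := hDd V q hq K hK hKV
  have hinv : ContDiff ℝ ∞ (fun z => (q z)⁻¹) := hq.smooth.inv fun z => (hq.pos z).ne'
  obtain ⟨P, hP⟩ := hK.exists_bound_of_continuousOn (f := fun z => (q z)⁻¹)
    hinv.continuous.continuousOn
  have hinvc : ContDiff ℝ ∞ (fun w => ((q w : ℂ))⁻¹) := by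
    have e : (fun w => ((q w : ℂ))⁻¹) = fun w => (((q w)⁻¹ : ℝ) : ℂ) := by
      funext w; push_cast; rfl
    rw [e]
    exact contDiff_ofReal hinv
  obtain ⟨κ₀, hκ⟩ := hK.exists_bound_of_continuousOn (f := dz (fun w => ((q w : ℂ))⁻¹))
    (contDiff_dz hinvc).continuous.continuousOn
  refine ⟨max 0 ((1 + |P| + |κ₀|) + (|P| ^ 2 * C₁ + 2 * |P| * |κ₀| * (1 + |P| + |κ₀|) + 2 * |P| * |κ₀|)),
    le_max_left _ _, fun h f hf z hz => ?_⟩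
  have hzV : z ∈ V := hKV hz
  have hqz := hq.pos z
  have hp : 0 < (q z)⁻¹ := inv_pos.mpr hqz
  have hpP : (q z)⁻¹ ≤ |P| := by
    have := hP z hz
    rw [Real.norm_eq_abs, abs_of_pos hp] at this
    exact this.trans (le_abs_self P)
  have hκz : ‖dz (fun w => ((q w : ℂ))⁻¹) z‖ ≤ |κ₀| := (hκ z hz).trans (le_abs_self κ₀)
  have ha : |f z| ≤ sm h f 2 z := by
    have := Rel.norm_gg_le_sm (h := h) (f := f) (z := z) (n := 0) (M := 2) (by norm_num)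
    rwa [gg_zero, Complex.norm_real, Real.norm_eq_abs] at this
  have h1 : ‖gg h f 1 z‖ ≤ sm h f 2 z := Rel.norm_gg_le_sm (by norm_num)
  have h2 : ‖gg h f 2 z‖ ≤ sm h f 2 z := Rel.norm_gg_le_sm (by norm_num)
  have hS : 0 ≤ sm h f 2 z := Rel.sm_nonneg 2
  have hD := hDd' h f hf z hz
  have hdiv : ‖gg h f 2 z‖ ^ 2 / q z - q z * f z ^ 2 =
      ‖gg h f 2 z‖ ^ 2 * (q z)⁻¹ - ((q z)⁻¹)⁻¹ * f z ^ 2 := by
    rw [inv_inv, div_eq_mul_inv]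
  rw [hdiv] at hD
  obtain ⟨hA, hB, hC, hE⟩ := core (κ := dz (fun w => ((q w : ℂ))⁻¹) z) hf.hpos hf.hle hp hpP hκz hC₁
    ha h1 h2 hD
  have hde : de q h f z = (f z : ℂ) * gg h f 1 z +
      gg h f 2 z * conj (gg h f 1 z) * (((q z)⁻¹ : ℝ) : ℂ) +
      (h : ℂ) * (dz (fun w => ((q w : ℂ))⁻¹) z * ((‖gg h f 1 z‖ ^ 2 : ℝ) : ℂ)) := by
    rw [(hDe V q hq h f hf).2 z hzV]
    push_cast
    rw [div_eq_mul_inv]
  rw [← hde] at hC hE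
  have hnn : nn q h f 1 z = ‖gg h f 1 z‖ ^ 2 * (q z)⁻¹ := by
    rw [nn, pow_one, div_eq_mul_inv]
  have hee : ee q h f z = f z ^ 2 + ‖gg h f 1 z‖ ^ 2 * (q z)⁻¹ := by
    rw [ee, hnn]
  have hyy : yy q h f z = ‖de q h f z‖ ^ 2 * (q z)⁻¹ := by rw [yy, div_eq_mul_inv]
  have hxx : xx q h f z = (conj (gg h f 1 z) * de q h f z).re * (q z)⁻¹ := by
    rw [xx, div_eq_mul_inv]
  have hP0 : 0 ≤ |P| := abs_nonneg P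
  have hκ0 : 0 ≤ |κ₀| := abs_nonneg κ₀
  have hr : 0 ≤ |P| ^ 2 * C₁ + 2 * |P| * |κ₀| * (1 + |P| + |κ₀|) + 2 * |P| * |κ₀| := by positivity
  have hS2 : 0 ≤ sm h f 2 z ^ 2 := by positivity
  have hS4 : 0 ≤ sm h f 2 z ^ 4 := by positivity
  have hm := le_max_right (0 : ℝ) ((1 + |P| + |κ₀|) +
    (|P| ^ 2 * C₁ + 2 * |P| * |κ₀| * (1 + |P| + |κ₀|) + 2 * |P| * |κ₀|))
  generalize max (0 : ℝ) ((1 + |P| + |κ₀|) +
    (|P| ^ 2 * C₁ + 2 * |P| * |κ₀| * (1 + |P| + |κ₀|) + 2 * |P| * |κ₀|)) = M at hm ⊢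
  refine ⟨?_, ?_, ?_, ?_⟩
  · rw [hnn]
    refine hA.trans (mul_le_mul_of_nonneg_right ?_ hS2)
    linarith
  · rw [hee]
    refine hB.trans (mul_le_mul_of_nonneg_right ?_ hS2)
    linarith
  · refine hC.trans (mul_le_mul_of_nonneg_right ?_ hS2)
    linarith
  · rw [hnn, hyy, hxx, div_eq_mul_inv]
    refine hE.trans (mul_le_mul_of_nonneg_left (mul_le_mul_of_nonneg_right ?_ hS4) hf.hpos.le)
    linarith

end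

end Pool.Agent.A54.Ev
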