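import Pool.Agent.Lib.MP_a54f13_nt.Ev.Spec
import Pool.Agent.Lib.MP_a54f13_nt.Rel

set_option autoImplicit false

namespace Pool.Agent.A54.Ev

open MeasureTheory Filter Topology Set
open scoped ContDiff ComplexConjugate
open Pool.Agent.A54.Half (H0 qq ff hh)

noncomputable section

namespace Id1M

variable {a : ℂ → ℂ} {z : ℂ}

lemma dzb_pow (ha : ContDiff ℝ ∞ a) (n : ℕ) :
    dzb (fun w => a w ^ n) z = n * a z ^ (n - 1) * dzb a z := by
  induction n with
  | zero =>
    have h1 : (fun w => a w ^ 0) = fun _ => (1 : ℂ) := by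
      funext w
      exact pow_zero _
    rw [h1, dzb_const]
    simp
  | succ n ih =>
    have h1 : (fun w => a w ^ (n + 1)) = fun w => a w ^ n * a w := by
      funext w
      exact pow_succ _ _
    rw [h1, dzb_mul (ha.pow n) ha, ih]
    cases n with
    | zero => simp
    | succ m =>
      simp only [Nat.add_sub_cancel]
      push_cast
      ring

lemma dzb_real {r : ℂ → ℝ} (hr : ContDiff ℝ ∞ r) :
    dzb (fun w => (r w : ℂ)) z = conj (dz (fun w => (r w : ℂ)) z) := by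
  rw [← dzb_conj (contDiff_ofReal hr)]
  simp only [Complex.conj_ofReal]

end Id1M

open Id1M in
theorem stmtId1 (hSml : StmtSml) (hDe : StmtDe) (hDif : StmtDif) : StmtId1 := by
  intro j i k hk V q h f hS hB φ hφ
  have hP := hS.pot
  have hqne : ∀ z, (q z : ℂ) ≠ 0 := fun z => by exact_mod_cast (hP.pos z).ne'
  have hinv : ContDiff ℝ ∞ (fun z => (q z)⁻¹) := hP.smooth.inv fun z => (hP.pos z).ne'
  have hφ1 : TestR V (fun z => φ z * (q z)⁻¹) := hφ.mul_right hinv
  have hφc := hφ1.toTest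
  set φ₁ : ℂ → ℂ := fun z => ((φ z * (q z)⁻¹ : ℝ) : ℂ) with hφ₁
  set K := tsupport φ₁ with hKdef
  obtain ⟨C, hC0, hC⟩ := hDif V q hP K hφc.cpt hφc.sub
  set p : ℕ → ℂ → ℂ := fun n z => (h n : ℂ) * ((f n z : ℂ) ^ (2 * j + 1) *
    (ee q (h n) (f n) z : ℂ) ^ i * gg (h n) (f n) 1 z) with hp
  have hF2 : Tendsto (fun n => ∫ z, dzb φ₁ z * p n z) atTop (𝓝 0) := by
    refine hSml k (by omega) V q h f hS hB (dzb φ₁) hφc.dzb 2 (C ^ i) (by positivity) _
      fun n z => ?_
    have hh := (hS.sol n).hpos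
    by_cases hz : z ∈ K
    · have hs0 := Rel.sm_nonneg (h := h n) (f := f n) (z := z) 2
      have h0 : ‖gg (h n) (f n) 0 z‖ ≤ sm (h n) (f n) 2 z := Rel.norm_gg_le_sm (by norm_num)
      have h1 : ‖gg (h n) (f n) 1 z‖ ≤ sm (h n) (f n) 2 z := Rel.norm_gg_le_sm (by norm_num)
      rw [gg_zero, Complex.norm_real] at h0
      have he0 : 0 ≤ ee q (h n) (f n) z := add_nonneg (sq_nonneg _) (Rel.nn_nonneg hP 1)
      have he : ee q (h n) (f n) z ≤ C * sm (h n) (f n) 2 z ^ 2 :=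
        (hC (h n) (f n) (hS.sol n) z hz).2.1
      simp only [hp, norm_mul, norm_pow, Complex.norm_real]
      rw [Real.norm_of_nonneg hh.le, Real.norm_of_nonneg he0]
      set s := sm (h n) (f n) 2 z with hs
      calc ‖dzb φ₁ z‖ * (h n * (‖f n z‖ ^ (2 * j + 1) * ee q (h n) (f n) z ^ i *
              ‖gg (h n) (f n) 1 z‖))
          ≤ ‖dzb φ₁ z‖ * (h n * (s ^ (2 * j + 1) * (C * s ^ 2) ^ i * s)) := by gcongr
        _ = h n * (C ^ i * (‖dzb φ₁ z‖ * s ^ (2 * k))) := by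
          rw [← hk, mul_pow, ← pow_mul]
          ring
    · have h1 : dzb φ₁ z = 0 := dzb_eq_zero_of_notMem hz
      rw [h1, zero_mul, norm_zero, zero_mul, mul_zero, mul_zero]
  have hsm : ∀ n, ContDiff ℝ ∞ (ee q (h n) (f n)) := fun n =>
    (hDe V q hP (h n) (f n) (hS.sol n)).1
  have hpsm : ∀ n, ContDiff ℝ ∞ (p n) := by
    intro n
    have hf := (hS.sol n).smooth
    exact contDiff_const.mul ((((contDiff_ofReal hf).pow _).mul
      ((contDiff_ofReal (hsm n)).pow _)).mul (contDiff_gg hf (h n) 1))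
  have hkey : ∀ n, ∫ z, φ z * ((2 * (j : ℝ) + 1) * f n z ^ (2 * j) *
        ee q (h n) (f n) z ^ (i + 1) -
      (2 * (j : ℝ) + 2) * f n z ^ (2 * j + 2) * ee q (h n) (f n) z ^ i +
      (i : ℝ) * f n z ^ (2 * j + 1) * ee q (h n) (f n) z ^ (i - 1) * xx q (h n) (f n) z) =
      (-(∫ z, dzb φ₁ z * p n z)).re := by
    intro n
    have hf := (hS.sol n).smooth
    have hU := contDiff_ofReal hf
    have hE := contDiff_ofReal (hsm n)
    have hg := contDiff_gg hf (h n) 1
    have hibp := integral_mul_dzb hφc.smooth (hpsm n) (Or.inl hφc.cpt)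
    have hint : Integrable (fun z => φ₁ z * dzb (p n) z) :=
      (hφc.mul_right (contDiff_dzb (hpsm n))).integrable
    rw [← hibp]
    have h1 : (∫ z, φ₁ z * dzb (p n) z).re = ∫ z, (φ₁ z * dzb (p n) z).re :=
      (integral_re hint).symm
    rw [h1]
    congr 1
    funext z
    by_cases hz : z ∈ V
    · have hdz : dzb (p n) z = (h n : ℂ) *
          (((((2 * j + 1 : ℕ) : ℂ) * (f n z : ℂ) ^ (2 * j) *
            conj (dz (fun w => (f n w : ℂ)) z)) * (ee q (h n) (f n) z : ℂ) ^ i +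
            (f n z : ℂ) ^ (2 * j + 1) * ((i : ℂ) * (ee q (h n) (f n) z : ℂ) ^ (i - 1) *
              conj (dz (fun w => (ee q (h n) (f n) w : ℂ)) z))) * gg (h n) (f n) 1 z +
          (f n z : ℂ) ^ (2 * j + 1) * (ee q (h n) (f n) z : ℂ) ^ i *
            dzb (gg (h n) (f n) 1) z) := by
        rw [hp]
        simp only
        rw [dzb_const_mul _ (((hU.pow _).mul (hE.pow _)).mul hg),
          dzb_mul ((hU.pow _).mul (hE.pow _)) hg, dzb_mul (hU.pow _) (hE.pow _),
          dzb_pow hU, dzb_pow hE, dzb_real hf, dzb_real (hsm n)]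
        simp only [Nat.add_sub_cancel]
      have hg1 : conj (gg (h n) (f n) 1 z) = (h n : ℂ) * conj (dz (fun w => (f n w : ℂ)) z) := by
        have : gg (h n) (f n) 1 z = (h n : ℂ) * dz (fun w => (f n w : ℂ)) z := rfl
        rw [this, map_mul, Complex.conj_ofReal]
      have hde : conj (de q (h n) (f n) z) =
          (h n : ℂ) * conj (dz (fun w => (ee q (h n) (f n) w : ℂ)) z) := by
        rw [de, map_mul, Complex.conj_ofReal]
      have heq := (hS.sol n).eq z hz
      set G := gg (h n) (f n) 1 z with hG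
      set U : ℝ := f n z with hUdef
      set E : ℝ := ee q (h n) (f n) z with hEdef
      have hN : G * conj G = (q z : ℂ) * ((E - U ^ 2 : ℝ) : ℂ) := by
        have h2 : E - U ^ 2 = ‖G‖ ^ 2 / q z := by
          rw [hEdef, ee, nn, pow_one]
          ring
        rw [h2, Complex.mul_conj']
        push_cast
        rw [mul_div_cancel₀ _ (hqne z)]
      have hfull : φ₁ z * dzb (p n) z = (φ z : ℂ) * ((2 * (j : ℂ) + 1) * (U : ℂ) ^ (2 * j) *
            (E : ℂ) ^ i * ((E - U ^ 2 : ℝ) : ℂ) - (U : ℂ) ^ (2 * j + 2) * (E : ℂ) ^ i +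
            (i : ℂ) * (U : ℂ) ^ (2 * j + 1) * (E : ℂ) ^ (i - 1) *
              (conj (de q (h n) (f n) z) * G / (q z : ℂ))) := by
        rw [hdz, hde, hφ₁]
        simp only
        rw [Complex.ofReal_mul, Complex.ofReal_inv]
        have h3 : (q z : ℂ) * (q z : ℂ)⁻¹ = 1 := mul_inv_cancel₀ (hqne z)
        rw [hg1] at hN
        push_cast at hN ⊢
        rw [div_eq_mul_inv]
        linear_combination (φ z : ℂ) * (q z : ℂ)⁻¹ * (2 * (j : ℂ) + 1) * (U : ℂ) ^ (2 * j) *
            (E : ℂ) ^ i * hN + (φ z : ℂ) * (q z : ℂ)⁻¹ * (U : ℂ) ^ (2 * j + 1) *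
            (E : ℂ) ^ i * heq +
          (φ z : ℂ) * ((2 * (j : ℂ) + 1) * (U : ℂ) ^ (2 * j) * (E : ℂ) ^ i *
            ((E : ℂ) - (U : ℂ) ^ 2) - (U : ℂ) ^ (2 * j + 2) * (E : ℂ) ^ i) * h3
      rw [hfull]
      have hX : (conj (de q (h n) (f n) z) * G / (q z : ℂ)).re = xx q (h n) (f n) z := by
        rw [xx, Complex.div_ofReal_re, ← Complex.conj_re (conj (gg (h n) (f n) 1 z) * _),
          map_mul, Complex.conj_conj, mul_comm]
      have h4 : (φ z : ℂ) * ((2 * (j : ℂ) + 1) * (U : ℂ) ^ (2 * j) *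
            (E : ℂ) ^ i * ((E - U ^ 2 : ℝ) : ℂ) - (U : ℂ) ^ (2 * j + 2) * (E : ℂ) ^ i +
            (i : ℂ) * (U : ℂ) ^ (2 * j + 1) * (E : ℂ) ^ (i - 1) *
              (conj (de q (h n) (f n) z) * G / (q z : ℂ))) =
          ((φ z * ((2 * (j : ℝ) + 1) * U ^ (2 * j) * E ^ i * (E - U ^ 2) -
            U ^ (2 * j + 2) * E ^ i) : ℝ) : ℂ) +
          ((φ z * ((i : ℝ) * U ^ (2 * j + 1) * E ^ (i - 1)) : ℝ) : ℂ) *
            (conj (de q (h n) (f n) z) * G / (q z : ℂ)) := by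
        push_cast
        ring
      rw [h4, Complex.add_re, Complex.ofReal_re, Complex.re_ofReal_mul, hX]
      ring
    · rw [hφ.eq_zero hz, hφc.eq_zero hz, zero_mul, zero_mul, Complex.zero_re]
  have hlim : Tendsto (fun n => (-(∫ z, dzb φ₁ z * p n z)).re) atTop (𝓝 0) := by
    have h1 : Tendsto (fun n => (-(∫ z, dzb φ₁ z * p n z)).re) atTop (𝓝 (-(0 : ℂ)).re) :=
      (Complex.continuous_re.tendsto _).comp hF2.neg
    rw [neg_zero, Complex.zero_re] at h1
    exact h1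
  exact hlim.congr fun n => (hkey n).symm

end

end Pool.Agent.A54.Ev
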