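import Pool.Agent.Lib.MP_a54f13_nt.Ev.Spec
import Pool.Agent.Lib.MP_a54f13_nt.Lady

/-! Package `Ev`: Ladyzhenskaya's inequality in the plane for all even exponents. -/

set_option autoImplicit false

namespace Pool.Agent.A54.Ev.LdkM

open MeasureTheory Filter Topology Set
open scoped ContDiff ComplexConjugate ENNReal NNReal
open Pool.Agent.A54.Lady (holder_two)

theorem fderiv_pow_le (k : ℕ) (v : ℂ → ℂ) (hv : ContDiff ℝ ∞ v) (x : ℂ) :
    ‖fderiv ℝ (fun z => v z ^ (k + 1)) x‖ ≤ (k + 1) * (‖v x‖ ^ k * ‖fderiv ℝ v x‖) := by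
  have hd : DifferentiableAt ℝ v x := (hv.differentiable (by simp)).differentiableAt
  have h1 : HasFDerivAt (fun z => v z ^ (k + 1)) (((k + 1 : ℂ) * v x ^ k) • fderiv ℝ v x) x := by
    have h := hd.hasFDerivAt.pow (k + 1)
    refine h.congr_fderiv ?_
    ext1 y
    simp
  rw [h1.fderiv]
  refine (norm_smul_le _ _).trans (le_of_eq ?_)
  rw [norm_mul, norm_pow]
  have h2 : ‖(k + 1 : ℂ)‖ = (k + 1 : ℝ) := by
    have h3 : (k + 1 : ℂ) = ((k + 1 : ℕ) : ℂ) := by push_cast; rfl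
    rw [h3, Complex.norm_natCast]
    push_cast
    rfl
  rw [h2]
  ring

theorem pow_ineq : ∃ C : ℝ, 0 ≤ C ∧ ∀ (k : ℕ) (v : ℂ → ℂ), ContDiff ℝ ∞ v → HasCompactSupport v →
    ∫ z, ‖v z‖ ^ (2 * (k + 1)) ≤ C * (∫ z, ‖fderiv ℝ (fun z => v z ^ (k + 1)) z‖) ^ 2 := by
  set C0 : ℝ≥0 := lintegralPowLePowLIntegralFDerivConst (volume : Measure ℂ) 2 with hC0
  refine ⟨C0, C0.coe_nonneg, fun k v hv hc => ?_⟩
  have hu : ContDiff ℝ 1 (fun z => v z ^ (k + 1)) := (hv.of_le (by simp)).pow (k + 1)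
  have huc : HasCompactSupport (fun z => v z ^ (k + 1)) := by
    have := hc.comp_left (g := fun w : ℂ => w ^ (k + 1)) (by simp)
    exact this
  have key := lintegral_pow_le_pow_lintegral_fderiv (volume : Measure ℂ) hu huc holder_two
  have hi1 : Integrable (fun z => ‖v z‖ ^ (2 * (k + 1))) := by
    refine Continuous.integrable_of_hasCompactSupport (by fun_prop) ?_
    exact hc.comp_left (g := fun w : ℂ => ‖w‖ ^ (2 * (k + 1))) (by simp)
  have hi2 : Integrable (fun z => fderiv ℝ (fun z => v z ^ (k + 1)) z) := by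
    refine Continuous.integrable_of_hasCompactSupport (hu.continuous_fderiv (by simp)) ?_
    exact huc.fderiv ℝ
  have e1 : ∫⁻ x, ‖v x ^ (k + 1)‖ₑ ^ (2 : ℝ) = ENNReal.ofReal (∫ z, ‖v z‖ ^ (2 * (k + 1))) := by
    rw [ofReal_integral_eq_lintegral_ofReal hi1 (ae_of_all _ fun z => by positivity)]
    refine lintegral_congr fun z => ?_
    rw [← ofReal_norm, ENNReal.ofReal_rpow_of_nonneg (norm_nonneg _) (by norm_num)]
    congr 1
    rw [norm_pow, Real.rpow_two, ← pow_mul]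
    congr 1
    ring
  have e2 : ∫⁻ x, ‖fderiv ℝ (fun z => v z ^ (k + 1)) x‖ₑ =
      ENNReal.ofReal (∫ z, ‖fderiv ℝ (fun z => v z ^ (k + 1)) z‖) := by
    rw [ofReal_integral_norm_eq_lintegral_enorm hi2]
  rw [e1, e2, ENNReal.ofReal_rpow_of_nonneg (integral_nonneg fun _ => norm_nonneg _) (by norm_num),
    ← ENNReal.ofReal_coe_nnreal, ← ENNReal.ofReal_mul C0.coe_nonneg] at key
  have h2 := (ENNReal.ofReal_le_ofReal_iff (by positivity)).1 key
  rw [Real.rpow_two] at h2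
  exact h2

/-- one step of the induction -/
theorem step_ineq : ∃ C : ℝ, 0 ≤ C ∧ ∀ (k : ℕ) (v : ℂ → ℂ), 1 ≤ k → ContDiff ℝ ∞ v → HasCompactSupport v →
    ∫ z, ‖v z‖ ^ (2 * (k + 1)) ≤
      C * (k + 1) ^ 2 * (∫ z, ‖v z‖ ^ (2 * k)) * (∫ z, ‖fderiv ℝ v z‖ ^ 2) := by
  obtain ⟨C0, hC0, h0⟩ := pow_ineq
  refine ⟨C0, hC0, fun k v hk1 hv hc => ?_⟩
  have hk0 : k ≠ 0 := by omega
  refine (h0 k v hv hc).trans ?_
  have hdc : Continuous (fderiv ℝ v) := hv.continuous_fderiv (by simp)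
  have hdcs : HasCompactSupport (fderiv ℝ v) := hc.fderiv ℝ
  have hu : ContDiff ℝ 1 (fun z => v z ^ (k + 1)) := (hv.of_le (by simp)).pow (k + 1)
  have huc : HasCompactSupport (fun z => v z ^ (k + 1)) :=
    hc.comp_left (g := fun w : ℂ => w ^ (k + 1)) (by simp)
  have hi2 : Integrable (fun z => fderiv ℝ (fun z => v z ^ (k + 1)) z) := by
    refine Continuous.integrable_of_hasCompactSupport (hu.continuous_fderiv (by simp)) ?_
    exact huc.fderiv ℝ
  have hi3 : Integrable (fun z => ‖v z‖ ^ k * ‖fderiv ℝ v z‖) := by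
    refine Continuous.integrable_of_hasCompactSupport (by fun_prop) ?_
    exact (hc.comp_left (g := fun w : ℂ => ‖w‖ ^ k) (by simp [hk0])).mul_right
  have m1 : MemLp (fun z => ‖v z‖ ^ k) (ENNReal.ofReal 2) := by
    refine Continuous.memLp_of_hasCompactSupport (by fun_prop) ?_
    exact hc.comp_left (g := fun w : ℂ => ‖w‖ ^ k) (by simp [hk0])
  have m2 : MemLp (fun z => ‖fderiv ℝ v z‖) (ENNReal.ofReal 2) := by
    refine Continuous.memLp_of_hasCompactSupport (by fun_prop) ?_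
    exact hdcs.comp_left (g := fun w : ℂ →L[ℝ] ℂ => ‖w‖) (by simp)
  have cs := integral_mul_le_Lp_mul_Lq_of_nonneg (μ := (volume : Measure ℂ))
    Real.HolderConjugate.two_two (ae_of_all _ fun z => (by positivity : (0 : ℝ) ≤ ‖v z‖ ^ k))
    (ae_of_all _ fun z => norm_nonneg (fderiv ℝ v z)) m1 m2
  have h1 : ∫ z, ‖fderiv ℝ (fun z => v z ^ (k + 1)) z‖ ≤ (k + 1) * ∫ z, ‖v z‖ ^ k * ‖fderiv ℝ v z‖ := by
    rw [← integral_const_mul]
    exact integral_mono hi2.norm (hi3.const_mul _) (fderiv_pow_le k v hv)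
  have hpk : ∀ z, (‖v z‖ ^ k) ^ (2 : ℝ) = ‖v z‖ ^ (2 * k) := by
    intro z
    rw [Real.rpow_two, ← pow_mul]
    congr 1
    ring
  simp only [hpk, Real.rpow_two, ← Real.sqrt_eq_rpow] at cs
  set A : ℝ := ∫ z, ‖v z‖ ^ (2 * k) with hA
  set B : ℝ := ∫ z, ‖fderiv ℝ v z‖ ^ 2 with hB
  have hA0 : 0 ≤ A := integral_nonneg fun _ => by positivity
  have hB0 : 0 ≤ B := integral_nonneg fun _ => by positivity
  have h3 : ∫ z, ‖fderiv ℝ (fun z => v z ^ (k + 1)) z‖ ≤ (k + 1) * (√A * √B) :=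
    h1.trans (mul_le_mul_of_nonneg_left cs (by positivity))
  have h4 : 0 ≤ ∫ z, ‖fderiv ℝ (fun z => v z ^ (k + 1)) z‖ := integral_nonneg fun _ => norm_nonneg _
  have h5 : (∫ z, ‖fderiv ℝ (fun z => v z ^ (k + 1)) z‖) ^ 2 ≤ ((k + 1) * (√A * √B)) ^ 2 :=
    pow_le_pow_left₀ h4 h3 2
  have h6 : ((k + 1) * (√A * √B)) ^ 2 = (k + 1) ^ 2 * A * B := by
    rw [mul_pow, mul_pow, Real.sq_sqrt hA0, Real.sq_sqrt hB0]
    ring
  calc C0 * (∫ z, ‖fderiv ℝ (fun z => v z ^ (k + 1)) z‖) ^ 2 ≤ C0 * ((k + 1) ^ 2 * A * B) := by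
        rw [← h6]
        exact mul_le_mul_of_nonneg_left h5 hC0
    _ = C0 * (k + 1) ^ 2 * A * B := by ring

end Pool.Agent.A54.Ev.LdkM

namespace Pool.Agent.A54.Ev

open MeasureTheory LdkM
open scoped ContDiff

/-- Ladyzhenskaya's inequality for even exponents -/
theorem stmtLdk : StmtLdk := by
  intro k hk
  induction k, hk using Nat.le_induction with
  | base =>
    refine ⟨1, zero_le_one, fun v _ _ => ?_⟩
    simp
  | succ k hk ih =>
    obtain ⟨C1, hC1, h1⟩ := ih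
    obtain ⟨C0, hC0, h0⟩ := step_ineq
    refine ⟨C0 * (k + 1) ^ 2 * C1, by positivity, fun v hv hc => ?_⟩
    have hs := h0 k v hk hv hc
    have hi := h1 v hv hc
    set A : ℝ := ∫ z, ‖v z‖ ^ (2 * k) with hA
    set D : ℝ := ∫ z, ‖v z‖ ^ 2 with hD
    set B : ℝ := ∫ z, ‖fderiv ℝ v z‖ ^ 2 with hB
    have hB0 : 0 ≤ B := integral_nonneg fun _ => by positivity
    have hkk : k + 1 - 1 = (k - 1) + 1 := by omega
    rw [hkk, pow_succ]
    refine hs.trans ?_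
    have h2 : C0 * (k + 1) ^ 2 * A * B ≤ C0 * (k + 1) ^ 2 * (C1 * D * B ^ (k - 1)) * B := by
      have h3 : 0 ≤ C0 * ((k : ℝ) + 1) ^ 2 := by positivity
      exact mul_le_mul_of_nonneg_right (mul_le_mul_of_nonneg_left hi h3) hB0
    refine h2.trans (le_of_eq ?_)
    ring

end Pool.Agent.A54.Ev
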