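import Pool.Agent.Lib.MP_a54f13_nt.Ev.Spec
import Pool.Agent.Lib.MP_a54f13_nt.L4

/-!
Local `L^(2k)` bounds for the derivatives of a solution.
-/

set_option autoImplicit false

namespace Pool.Agent.A54.Ev

open MeasureTheory Filter Topology Set
open scoped ContDiff ComplexConjugate UpperHalfPlane MatrixGroups

noncomputable section

namespace LkbM

open L4

variable {V : Set ℂ} {q : ℂ → ℝ}

lemma tang (x r : ℝ) (hx : 0 ≤ x) (hr : 0 ≤ r) (j : ℕ) :
    ((j : ℝ) + 1) * r ^ j * x - j * r ^ (j + 1) ≤ x ^ (j + 1) := by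
  induction j with
  | zero => simp
  | succ j ih =>
    have h1 := mul_le_mul_of_nonneg_left ih hx
    have h2 : 0 ≤ ((j : ℝ) + 1) * r ^ j * (x - r) ^ 2 := by positivity
    have h3 : x ^ (j + 1 + 1) = x * x ^ (j + 1) := by ring
    rw [h3]
    push_cast
    have h4 : x * (((j : ℝ) + 1) * r ^ j * x - j * r ^ (j + 1)) -
        (((j : ℝ) + 1 + 1) * r ^ (j + 1) * x - (j + 1) * r ^ (j + 1 + 1)) =
        ((j : ℝ) + 1) * r ^ j * (x - r) ^ 2 := by ring
    linarith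

lemma holder (j : ℕ) {F w : ℂ → ℝ} (hF : ∀ z, 0 ≤ F z) (hw : ∀ z, 0 ≤ w z) (iw : Integrable w)
    (i1 : Integrable fun z => F z * w z) (i2 : Integrable fun z => F z ^ (j + 1) * w z)
    (hA : 0 < ∫ z, w z) :
    (∫ z, F z * w z) ^ (j + 1) ≤ (∫ z, w z) ^ j * ∫ z, F z ^ (j + 1) * w z := by
  set A := ∫ z, w z with hA'
  set B := ∫ z, F z * w z with hB'
  have hB : 0 ≤ B := integral_nonneg fun z => mul_nonneg (hF z) (hw z)
  set m := B / A with hm
  have hm0 : 0 ≤ m := by positivity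
  have hmA : m * A = B := by
    rw [hm]
    field_simp
  have h1 : ∫ z, (((j : ℝ) + 1) * m ^ j * (F z * w z) - (j * m ^ (j + 1)) * w z) ≤
      ∫ z, F z ^ (j + 1) * w z := by
    refine integral_mono ((i1.const_mul _).sub (iw.const_mul _)) i2 fun z => ?_
    have h2 := mul_le_mul_of_nonneg_right (tang (F z) m (hF z) hm0 j) (hw z)
    simp only
    calc ((j : ℝ) + 1) * m ^ j * (F z * w z) - (j * m ^ (j + 1)) * w z
        = (((j : ℝ) + 1) * m ^ j * F z - j * m ^ (j + 1)) * w z := by ring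
      _ ≤ _ := h2
  rw [integral_sub (i1.const_mul _) (iw.const_mul _), integral_const_mul, integral_const_mul,
    ← hA', ← hB', ← hmA] at h1
  have h3 : ((j : ℝ) + 1) * m ^ j * (m * A) - j * m ^ (j + 1) * A = m ^ (j + 1) * A := by ring
  rw [h3] at h1
  calc B ^ (j + 1) = A ^ j * (m ^ (j + 1) * A) := by
        rw [← hmA]
        ring
    _ ≤ _ := mul_le_mul_of_nonneg_left h1 (by positivity)

lemma centre (hE : StmtErr) (hC : StmtCacc) (hL : StmtLdk) (hP : Pot V q) (k n : ℕ)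
    {ζ : ℂ → ℝ} (hζ : TestR V ζ) :
    ∃ (ζ' : ℂ → ℝ) (C : ℝ), TestR V ζ' ∧ 0 ≤ C ∧ ∀ (h : ℝ) (f w : ℂ → ℝ), Sol V q h f → WC h w →
      h ^ (2 * k) * ∫ z, ζ z ^ (2 * (k + 1)) * w z ^ (2 * (k + 1)) * ‖gg h f n z‖ ^ (2 * (k + 1)) ≤
        C * (∫ z, ζ' z ^ 2 * w z ^ 2 * f z ^ 2) ^ (k + 1) := by
  obtain ⟨χ, hχ, -, hχ1⟩ := exists_cutoff hζ.cpt.isCompact hP.isOpen hζ.sub
  have hχ1' : ∀ z ∈ tsupport ζ, χ z = 1 := fun z hz => hχ1.self_of_nhdsSet z hz
  obtain ⟨ζ', C', h1, h2, h3⟩ := cacc_all hC hP (n + 1) hχ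
  obtain ⟨B0, hB0⟩ := hζ.cpt.exists_bound_of_continuous hζ.smooth.continuous
  obtain ⟨M, hM0, hM⟩ := fderiv_vv hE hP n hζ
  obtain ⟨L, hL0, hL'⟩ := hL (k + 1) (by omega)
  refine ⟨ζ', L * (B0 ^ 2 * C') * (M ^ 2 * ((n : ℝ) + 2) ^ 2 * C') ^ k, h1, by positivity,
    fun h f w hf hw => ?_⟩
  set I := ∫ z, ζ' z ^ 2 * w z ^ 2 * f z ^ 2 with hI
  have hI0 : 0 ≤ I := integral_nonneg fun z => by positivity
  have hg := fun j => contDiff_gg hf.smooth h j
  have hwc := hw.1.continuous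
  have hint : ∀ j, Integrable fun z => χ z ^ 2 * w z ^ 2 * ‖gg h f j z‖ ^ 2 := by
    intro j
    have hgc := (hg j).continuous
    have := integrable_test hχ (F := fun z => w z ^ 2 * ‖gg h f j z‖ ^ 2) (by fun_prop) 1
    refine this.congr (ae_of_all _ fun z => ?_)
    simp only
    ring
  have hv := contDiff_vv hζ.smooth hw.1 (hg n)
  have hvc : HasCompactSupport (vv ζ w (gg h f n)) :=
    hζ.cpt.isCompact.of_isClosed_subset (isClosed_tsupport _) tsupport_vv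
  have key := hL' _ hv hvc
  have e4 : ∀ z, ‖vv ζ w (gg h f n) z‖ ^ (2 * (k + 1)) =
      ζ z ^ (2 * (k + 1)) * w z ^ (2 * (k + 1)) * ‖gg h f n z‖ ^ (2 * (k + 1)) := by
    intro z
    rw [norm_vv, mul_pow, mul_pow]
    congr 2
    · rw [pow_mul, sq_abs, ← pow_mul]
    · rw [pow_mul, sq_abs, ← pow_mul]
  have e2 : ∀ z, ‖vv ζ w (gg h f n) z‖ ^ 2 = ζ z ^ 2 * w z ^ 2 * ‖gg h f n z‖ ^ 2 := by
    intro z
    rw [norm_vv, mul_pow, mul_pow, sq_abs, sq_abs]
  simp only [e4, e2] at key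
  have hk1 : k + 1 - 1 = k := by omega
  rw [hk1] at key
  -- first factor
  have k1 : ∫ z, ζ z ^ 2 * w z ^ 2 * ‖gg h f n z‖ ^ 2 ≤ B0 ^ 2 * C' * I := by
    have k2 : ∫ z, ζ z ^ 2 * w z ^ 2 * ‖gg h f n z‖ ^ 2 ≤
        B0 ^ 2 * ∫ z, χ z ^ 2 * w z ^ 2 * ‖gg h f n z‖ ^ 2 := by
      rw [← integral_const_mul]
      refine integral_mono_of_nonneg (ae_of_all _ fun z => nn3 _ _ _)
        ((hint n).const_mul _) (ae_of_all _ fun z => ?_)
      simp only
      have hle : ζ z ^ 2 ≤ B0 ^ 2 * χ z ^ 2 := by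
        by_cases hz : z ∈ tsupport ζ
        · rw [hχ1' z hz, one_pow, mul_one, ← sq_abs]
          exact pow_le_pow_left₀ (abs_nonneg _) (hB0 z) 2
        · rw [image_eq_zero_of_notMem_tsupport hz, zero_pow two_ne_zero]
          positivity
      have h5 : 0 ≤ w z ^ 2 * ‖gg h f n z‖ ^ 2 := by positivity
      have h6 := mul_le_mul_of_nonneg_right hle h5
      nlinarith
    refine k2.trans ?_
    rw [mul_assoc]
    exact mul_le_mul_of_nonneg_left (h3 h f w hf hw n (by omega)) (by positivity)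
  -- second factor
  have k3 : h ^ 2 * ∫ z, ‖fderiv ℝ (vv ζ w (gg h f n)) z‖ ^ 2 ≤
      M ^ 2 * ((n : ℝ) + 2) ^ 2 * C' * I := by
    have k4 : h ^ 2 * ∫ z, ‖fderiv ℝ (vv ζ w (gg h f n)) z‖ ^ 2 ≤
        ∫ z, M ^ 2 * ((n : ℝ) + 2) * ∑ j ∈ Finset.range (n + 2),
          χ z ^ 2 * w z ^ 2 * ‖gg h f j z‖ ^ 2 := by
      rw [← integral_const_mul]
      refine integral_mono_of_nonneg (ae_of_all _ fun z => mul_nonneg (sq_nonneg _) (sq_nonneg _))
        ((integrable_finsetSum _ fun j _ => hint j).const_mul _) (ae_of_all _ fun z => ?_)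
      simp only
      obtain ⟨hz1, hz2⟩ := hM h f w hf hw.1 hw.2.1 hw.2.2 z
      by_cases hz : z ∈ tsupport ζ
      · have h5 := hz2 hz
        have h6 : 0 ≤ h * ‖fderiv ℝ (vv ζ w (gg h f n)) z‖ :=
          mul_nonneg hf.hpos.le (norm_nonneg _)
        have h7 := pow_le_pow_left₀ h6 h5 2
        have h8 : sm h f (n + 1) z ^ 2 ≤ ((n : ℝ) + 2) *
            ∑ j ∈ Finset.range (n + 2), ‖gg h f j z‖ ^ 2 := by
          have h9 := sq_sum_le_card_mul_sum_sq (s := Finset.range (n + 2))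
            (f := fun j => ‖gg h f j z‖)
          rw [Finset.card_range] at h9
          push_cast at h9
          exact h9
        rw [hχ1' z hz, one_pow]
        simp only [one_mul]
        rw [← Finset.mul_sum]
        calc h ^ 2 * ‖fderiv ℝ (vv ζ w (gg h f n)) z‖ ^ 2
            = (h * ‖fderiv ℝ (vv ζ w (gg h f n)) z‖) ^ 2 := by ring
          _ ≤ (M * (w z * sm h f (n + 1) z)) ^ 2 := h7
          _ = M ^ 2 * w z ^ 2 * sm h f (n + 1) z ^ 2 := by ring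
          _ ≤ M ^ 2 * w z ^ 2 * (((n : ℝ) + 2) *
              ∑ j ∈ Finset.range (n + 2), ‖gg h f j z‖ ^ 2) :=
              mul_le_mul_of_nonneg_left h8 (by positivity)
          _ = _ := by ring
      · rw [hz1 hz, norm_zero]
        have : 0 ≤ M ^ 2 * ((n : ℝ) + 2) * ∑ j ∈ Finset.range (n + 2),
            χ z ^ 2 * w z ^ 2 * ‖gg h f j z‖ ^ 2 :=
          mul_nonneg (by positivity) (Finset.sum_nonneg fun j _ => by positivity)
        simpa using this
    refine k4.trans ?_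
    rw [integral_const_mul, integral_finsetSum _ fun j _ => hint j]
    have h5 : ∑ j ∈ Finset.range (n + 2), ∫ z, χ z ^ 2 * w z ^ 2 * ‖gg h f j z‖ ^ 2 ≤
        ((n : ℝ) + 2) * (C' * I) := by
      have h6 : ∑ j ∈ Finset.range (n + 2), ∫ z, χ z ^ 2 * w z ^ 2 * ‖gg h f j z‖ ^ 2 ≤
          ∑ j ∈ Finset.range (n + 2), C' * I :=
        Finset.sum_le_sum fun j hj => h3 h f w hf hw j (by
          have := Finset.mem_range.mp hj
          omega)
      rw [Finset.sum_const, Finset.card_range, nsmul_eq_mul] at h6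
      push_cast at h6
      exact h6
    calc M ^ 2 * ((n : ℝ) + 2) *
          ∑ j ∈ Finset.range (n + 2), ∫ z, χ z ^ 2 * w z ^ 2 * ‖gg h f j z‖ ^ 2
        ≤ M ^ 2 * ((n : ℝ) + 2) * (((n : ℝ) + 2) * (C' * I)) :=
          mul_le_mul_of_nonneg_left h5 (by positivity)
      _ = _ := by ring
  have hk0 : 0 ≤ h ^ 2 * ∫ z, ‖fderiv ℝ (vv ζ w (gg h f n)) z‖ ^ 2 :=
    mul_nonneg (by positivity) (integral_nonneg fun z => by positivity)
  have hh := hf.hpos.le
  calc h ^ (2 * k) * ∫ z, ζ z ^ (2 * (k + 1)) * w z ^ (2 * (k + 1)) *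
        ‖gg h f n z‖ ^ (2 * (k + 1))
      ≤ h ^ (2 * k) * (L * (∫ z, ζ z ^ 2 * w z ^ 2 * ‖gg h f n z‖ ^ 2) *
        (∫ z, ‖fderiv ℝ (vv ζ w (gg h f n)) z‖ ^ 2) ^ k) :=
        mul_le_mul_of_nonneg_left key (by positivity)
    _ = L * (∫ z, ζ z ^ 2 * w z ^ 2 * ‖gg h f n z‖ ^ 2) *
        (h ^ 2 * ∫ z, ‖fderiv ℝ (vv ζ w (gg h f n)) z‖ ^ 2) ^ k := by
        rw [mul_pow, pow_mul]
        ring
    _ ≤ L * (B0 ^ 2 * C' * I) * (M ^ 2 * ((n : ℝ) + 2) ^ 2 * C' * I) ^ k := by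
        refine mul_le_mul (mul_le_mul_of_nonneg_left k1 hL0) (pow_le_pow_left₀ hk0 k3 k)
          (pow_nonneg hk0 k) (by positivity)
    _ = _ := by
        rw [mul_pow, pow_succ]
        ring

end LkbM

open L4 LkbM in
theorem stmtLkb (hE : StmtErr) (hC : StmtCacc) (hL : StmtLdk) : StmtLkb := by
  intro k' hk' V q hP n ζ hζ
  obtain ⟨k, rfl⟩ : ∃ k, k' = k + 1 := ⟨k' - 1, by omega⟩
  obtain ⟨ζ', C3, h1, h2, h3⟩ := centre hE hC hL hP k n hζ
  have hc0 := integral_w1_pow_pos 1 (by norm_num)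
  have hc1 := integral_w1_pow_pos (k + 2) (by omega)
  have hc2 := integral_w1_pow_pos (2 * (k + 1)) (by omega)
  set c0 := ∫ y, w1 y ^ 1 with hc0'
  set c1 := ∫ y, w1 y ^ (k + 2) with hc1'
  set c2 := ∫ y, w1 y ^ (2 * (k + 1)) with hc2'
  refine ⟨ζ', C3 * c0 ^ k * c1 / c2, h1, by positivity, fun h f hf => ?_⟩
  have hh := hf.hpos
  have hgc := (contDiff_gg hf.smooth h n).continuous
  have hfc := hf.smooth.continuous
  have iA1 : Integrable fun z => ζ z ^ (2 * (k + 1)) * ‖gg h f n z‖ ^ (2 * (k + 1)) :=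
    integrable_test hζ (F := fun z => ‖gg h f n z‖ ^ (2 * (k + 1))) (by fun_prop) (2 * k + 1)
  have iA2 : Integrable fun z => ζ' z ^ (2 * (k + 1)) * f z ^ (2 * (k + 1)) :=
    integrable_test h1 (F := fun z => f z ^ (2 * (k + 1))) (by fun_prop) (2 * k + 1)
  have key : ∀ x0, h ^ (2 * k) * ∫ z, (ζ z ^ (2 * (k + 1)) * ‖gg h f n z‖ ^ (2 * (k + 1))) *
        w1 (h⁻¹ • (x0 - z)) ^ (2 * (k + 1)) ≤
      (C3 * (h ^ 2 * c0) ^ k) * ∫ z, (ζ' z ^ (2 * (k + 1)) * f z ^ (2 * (k + 1))) *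
        w1 (h⁻¹ • (x0 - z)) ^ (k + 2) := by
    intro x0
    have hwc : Continuous (wt h x0) := (contDiff_wt h x0).continuous
    have k0 := h3 h f (wt h x0) hf (wc_wt hh x0)
    have hwint : ∫ z, wt h x0 z = h ^ 2 * c0 := by
      rw [hc0', ← integral_wt_pow hh x0 1]
      congr 1
      funext z
      rw [pow_one]
    have iw : Integrable (wt h x0) := by
      have := integrable_wt_pow hh x0 1 (by norm_num)
      refine this.congr (ae_of_all _ fun z => ?_)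
      simp only
      rw [pow_one]
    have i1 : Integrable fun z => (ζ' z ^ 2 * wt h x0 z * f z ^ 2) * wt h x0 z := by
      have := integrable_test h1 (F := fun z => wt h x0 z ^ 2 * f z ^ 2) (by fun_prop) 1
      refine this.congr (ae_of_all _ fun z => ?_)
      simp only
      ring
    have e2 : ∀ z, (ζ' z ^ 2 * wt h x0 z * f z ^ 2) ^ (k + 1) * wt h x0 z =
        (ζ' z ^ (2 * (k + 1)) * f z ^ (2 * (k + 1))) * wt h x0 z ^ (k + 2) := by
      intro z
      rw [pow_mul, pow_mul, mul_pow, mul_pow]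
      ring
    have i2 : Integrable fun z => (ζ' z ^ 2 * wt h x0 z * f z ^ 2) ^ (k + 1) * wt h x0 z := by
      have := integrable_test h1 (F := fun z => f z ^ (2 * (k + 1)) * wt h x0 z ^ (k + 2))
        (by fun_prop) (2 * k + 1)
      refine this.congr (ae_of_all _ fun z => ?_)
      simp only
      rw [e2 z, mul_assoc]
      rfl
    have cs := holder k (F := fun z => ζ' z ^ 2 * wt h x0 z * f z ^ 2) (w := wt h x0)
      (fun z => mul_nonneg (mul_nonneg (sq_nonneg _) (wt_pos h x0 z).le) (sq_nonneg _))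
      (fun z => (wt_pos h x0 z).le) iw i1 i2 (by rw [hwint]; positivity)
    rw [hwint] at cs
    have e1 : ∫ z, (ζ' z ^ 2 * wt h x0 z * f z ^ 2) * wt h x0 z =
        ∫ z, ζ' z ^ 2 * wt h x0 z ^ 2 * f z ^ 2 := by
      congr 1
      funext z
      ring
    have e2' : ∫ z, (ζ' z ^ 2 * wt h x0 z * f z ^ 2) ^ (k + 1) * wt h x0 z =
        ∫ z, (ζ' z ^ (2 * (k + 1)) * f z ^ (2 * (k + 1))) * w1 (h⁻¹ • (x0 - z)) ^ (k + 2) := by
      congr 1
      funext z
      rw [e2 z]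
      rfl
    have e3 : ∫ z, ζ z ^ (2 * (k + 1)) * wt h x0 z ^ (2 * (k + 1)) *
          ‖gg h f n z‖ ^ (2 * (k + 1)) =
        ∫ z, (ζ z ^ (2 * (k + 1)) * ‖gg h f n z‖ ^ (2 * (k + 1))) *
          w1 (h⁻¹ • (x0 - z)) ^ (2 * (k + 1)) := by
      congr 1
      funext z
      unfold wt
      ring
    rw [e1, e2'] at cs
    rw [e3] at k0
    refine k0.trans ((mul_le_mul_of_nonneg_left cs h2).trans (le_of_eq ?_))
    rw [mul_assoc]
  have iW4 := integrable_scale hh (2 * (k + 1)) (by omega)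
  have iW2 := integrable_scale hh (k + 2) (by omega)
  have m1 := integral_mono ((integrable_conv iA1 iW4).const_mul (h ^ (2 * k)))
    ((integrable_conv iA2 iW2).const_mul (C3 * (h ^ 2 * c0) ^ k)) key
  rw [integral_const_mul, integral_const_mul, integral_conv iA1 iW4, integral_conv iA2 iW2,
    integral_scale hh, integral_scale hh, ← hc2', ← hc1'] at m1
  rw [div_mul_eq_mul_div, le_div_iff₀ hc2]
  have h4 : 0 < h ^ (2 * k + 2) := by positivity
  refine le_of_mul_le_mul_left (a := h ^ (2 * k + 2)) ?_ h4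
  calc h ^ (2 * k + 2) * ((∫ z, ζ z ^ (2 * (k + 1)) * ‖gg h f n z‖ ^ (2 * (k + 1))) * c2)
      = h ^ (2 * k) * ((∫ z, ζ z ^ (2 * (k + 1)) * ‖gg h f n z‖ ^ (2 * (k + 1))) *
          (h ^ 2 * c2)) := by ring
    _ ≤ C3 * (h ^ 2 * c0) ^ k * ((∫ z, ζ' z ^ (2 * (k + 1)) * f z ^ (2 * (k + 1))) *
          (h ^ 2 * c1)) := m1
    _ = _ := by
        rw [mul_pow, ← pow_mul]
        ring

end

end Pool.Agent.A54.Ev
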