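import Pool.Agent.Lib.MP_a54f13_nt.Ev.Spec
import Pool.Agent.Lib.MP_a54f13_nt.Odd
import Pool.Agent.Lib.MP_a54f13_nt.Rel

/-!
Integrals of small functions (module Sml of the package Ev).
-/

set_option autoImplicit false

namespace Pool.Agent.A54.Ev

open MeasureTheory Filter Topology Set
open scoped ContDiff ComplexConjugate

noncomputable section

namespace SmlM

variable {V : Set ℂ} {q : ℂ → ℝ}

lemma sm_pow_le (k : ℕ) (hk : 1 ≤ k) (h : ℝ) (f : ℂ → ℝ) (M : ℕ) (z : ℂ) :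
    sm h f M z ^ (2 * k) ≤ ((M + 1 : ℕ) : ℝ) ^ (2 * k - 1) *
      ∑ j ∈ Finset.range (M + 1), ‖gg h f j z‖ ^ (2 * k) := by
  obtain ⟨m, hm⟩ : ∃ m, 2 * k = m + 1 := ⟨2 * k - 1, by omega⟩
  have e : 2 * k - 1 = m := by omega
  rw [e, hm]
  have hp := pow_sum_div_card_le_sum_pow (s := Finset.range (M + 1)) (f := fun j => ‖gg h f j z‖)
    (fun j _ => norm_nonneg _) m
  rw [Finset.card_range, div_le_iff₀ (by positivity), mul_comm] at hp
  exact hp

lemma integrable_phi (k : ℕ) {φ : ℂ → ℂ} (hφ : Test V φ) {h : ℝ} {f : ℂ → ℝ}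
    (hf : ContDiff ℝ ∞ f) (M : ℕ) :
    Integrable (fun z => ‖φ z‖ * sm h f M z ^ (2 * k)) := by
  refine Continuous.integrable_of_hasCompactSupport ?_ ?_
  · exact hφ.smooth.continuous.norm.mul ((Rel.continuous_sm hf h M).pow (2 * k))
  · exact HasCompactSupport.mul_right hφ.cpt.norm

lemma integrable_zeta (k : ℕ) (hk : 1 ≤ k) {ζ : ℂ → ℝ} (hζ : TestR V ζ) {h : ℝ} {f : ℂ → ℝ}
    (hf : ContDiff ℝ ∞ f) (j : ℕ) :
    Integrable (fun z => ζ z ^ (2 * k) * ‖gg h f j z‖ ^ (2 * k)) := by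
  have h1 : HasCompactSupport (fun z => ζ z ^ (2 * k)) :=
    hζ.cpt.comp_left (g := fun x : ℝ => x ^ (2 * k)) (zero_pow (by omega))
  exact ((hζ.smooth.continuous.pow (2 * k)).mul
      ((contDiff_gg hf h j).continuous.norm.pow (2 * k))).integrable_of_hasCompactSupport
        h1.mul_right

lemma even_pow_nonneg (x : ℝ) (k : ℕ) : 0 ≤ x ^ (2 * k) := by
  rw [pow_mul]
  positivity

/-- Uniform bound of the integrals of the powers `2k`. -/
lemma bdd (hL : StmtLkb) (k : ℕ) (hk : 1 ≤ k) {h : ℕ → ℝ} {f : ℕ → ℂ → ℝ} (hS : Seq V q h f)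
    (hB : LkBdd k V f) {φ : ℂ → ℂ} (hφ : Test V φ) (N : ℕ) :
    ∃ B : ℝ, ∀ i, ∫ z, ‖φ z‖ * sm (h i) (f i) N z ^ (2 * k) ≤ B := by
  obtain ⟨ζ, hζ, hζ01, hζ1⟩ := exists_cutoff hφ.cpt hS.pot.isOpen hφ.sub
  have hζ1' : ∀ z ∈ tsupport φ, ζ z = 1 := fun z hz => hζ1.self_of_nhdsSet z hz
  obtain ⟨M, hM⟩ := hφ.cpt.exists_bound_of_continuous hφ.smooth.continuous
  have hM0 : 0 ≤ M := (norm_nonneg _).trans (hM 0)
  choose ζ' C' hζ' hC'0 hC' using fun n : ℕ => hL k hk V q hS.pot n ζ hζ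
  choose B' hB' using fun n : ℕ => hB (ζ' n) (hζ' n)
  have hint4 : ∀ i j, Integrable (fun z => ζ z ^ (2 * k) * ‖gg (h i) (f i) j z‖ ^ (2 * k)) :=
    fun i j => integrable_zeta k hk hζ (hS.sol i).smooth j
  refine ⟨M * ((N + 1 : ℕ) : ℝ) ^ (2 * k - 1) *
    ∑ j ∈ Finset.range (N + 1), C' j * |B' j|, fun i => ?_⟩
  have hpt : ∀ z, ‖φ z‖ * sm (h i) (f i) N z ^ (2 * k) ≤
      M * ((N + 1 : ℕ) : ℝ) ^ (2 * k - 1) *
        ∑ j ∈ Finset.range (N + 1), ζ z ^ (2 * k) * ‖gg (h i) (f i) j z‖ ^ (2 * k) := by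
    intro z
    by_cases hz : z ∈ tsupport φ
    · rw [hζ1' z hz]
      simp only [one_pow, one_mul]
      rw [mul_assoc]
      exact mul_le_mul (hM z) (sm_pow_le k hk (h i) (f i) N z)
        (pow_nonneg (Rel.sm_nonneg N) _) hM0
    · rw [image_eq_zero_of_notMem_tsupport hz, norm_zero, zero_mul]
      have h0 : 0 ≤ ∑ j ∈ Finset.range (N + 1),
          ζ z ^ (2 * k) * ‖gg (h i) (f i) j z‖ ^ (2 * k) :=
        Finset.sum_nonneg fun j _ => mul_nonneg (even_pow_nonneg _ _) (even_pow_nonneg _ _)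
      exact mul_nonneg (mul_nonneg hM0 (pow_nonneg (Nat.cast_nonneg _) _)) h0
  have hint2 : Integrable (fun z => ∑ j ∈ Finset.range (N + 1),
      ζ z ^ (2 * k) * ‖gg (h i) (f i) j z‖ ^ (2 * k)) :=
    integrable_finsetSum _ fun j _ => hint4 i j
  calc ∫ z, ‖φ z‖ * sm (h i) (f i) N z ^ (2 * k)
      ≤ ∫ z, (M * ((N + 1 : ℕ) : ℝ) ^ (2 * k - 1) *
        ∑ j ∈ Finset.range (N + 1), ζ z ^ (2 * k) * ‖gg (h i) (f i) j z‖ ^ (2 * k)) :=
        integral_mono (integrable_phi k hφ (hS.sol i).smooth N) (hint2.const_mul _) hpt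
    _ = M * ((N + 1 : ℕ) : ℝ) ^ (2 * k - 1) *
        ∑ j ∈ Finset.range (N + 1), ∫ z, ζ z ^ (2 * k) * ‖gg (h i) (f i) j z‖ ^ (2 * k) := by
        rw [integral_const_mul, integral_finsetSum _ fun j _ => hint4 i j]
    _ ≤ _ := by
        refine mul_le_mul_of_nonneg_left ?_
          (mul_nonneg hM0 (pow_nonneg (Nat.cast_nonneg _) _))
        refine Finset.sum_le_sum fun j _ => ?_
        refine (hC' j (h i) (f i) (hS.sol i)).trans ?_
        exact mul_le_mul_of_nonneg_left ((hB' j i).trans (le_abs_self _)) (hC'0 j)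

end SmlM

/-- **Sml** integrals of small functions -/
theorem stmtSml (hL : StmtLkb) : StmtSml := by
  intro k hk V q h f hS hB φ hφ M C hC F hF
  obtain ⟨B, hB'⟩ := SmlM.bdd hL k hk hS hB hφ M
  rw [tendsto_zero_iff_norm_tendsto_zero]
  have h1 : Tendsto (fun i => h i * (C * B)) atTop (𝓝 0) := by
    simpa using hS.lim.mul_const (C * B)
  refine squeeze_zero (fun i => norm_nonneg _) (fun i => ?_) h1
  have hint : Integrable (fun z => h i * (C * (‖φ z‖ * sm (h i) (f i) M z ^ (2 * k)))) :=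
    ((SmlM.integrable_phi k hφ (hS.sol i).smooth M).const_mul _).const_mul _
  refine (norm_integral_le_of_norm_le hint (Eventually.of_forall (hF i))).trans ?_
  rw [integral_const_mul, integral_const_mul]
  have := (hS.sol i).hpos
  exact mul_le_mul_of_nonneg_left (mul_le_mul_of_nonneg_left (hB' i) hC) this.le

end

end Pool.Agent.A54.Ev
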