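import Pool.Agent.Lib.MP_a54f13_nt.Ev.Spec

/-!
Module `Cmb`: from the chain, the odd relation and the sharp fourth moment to all even moments (local version).
-/

set_option autoImplicit false

namespace Pool.Agent.A54.Ev

open MeasureTheory Filter Topology Set
open scoped ContDiff ComplexConjugate UpperHalfPlane MatrixGroups

noncomputable section

namespace CmbM

/-- the tangent line inequality for powers -/
lemma tang {x r : ℝ} (hx : 0 ≤ x) (hr : 0 ≤ r) (j : ℕ) :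
    ((j : ℝ) + 1) * r ^ j * x ≤ x ^ (j + 1) + j * r ^ (j + 1) := by
  induction j with
  | zero => simp
  | succ j ih =>
    have h1 := mul_le_mul_of_nonneg_left ih hx
    have h2 : 0 ≤ ((j : ℝ) + 1) * r ^ j * (x - r) ^ 2 := by positivity
    push_cast
    have e1 : r ^ (j + 1) = r ^ j * r := pow_succ _ _
    have e2 : r ^ (j + 1 + 1) = r ^ j * r * r := by rw [pow_succ, pow_succ]
    have e3 : x ^ (j + 1 + 1) = x * x ^ (j + 1) := by rw [pow_succ x (j + 1)]; ring
    rw [e2, e3, e1]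
    rw [e1] at h1
    nlinarith

/-- the algebra of the moments -/
lemma alg {A S Q M ε ε' B : ℝ} (hA : 0 < A) (hS : 0 ≤ S) (hSB : S ≤ B) (hε : 0 < ε) (j : ℕ)
    (hε' : ε' = ε / ((j + 1) * (4 * B) ^ j + 1)) (h2 : 4 * S ^ 2 - ε' ≤ A * Q)
    (hM : ((j : ℝ) + 1) * (4 * S / A) ^ j * Q ≤ M + j * (4 * S / A) ^ (j + 1) * S) :
    4 ^ (j + 1) * S ^ (j + 2) - ε ≤ A ^ (j + 1) * M := by
  have hB : 0 ≤ B := hS.trans hSB
  have hd : 0 < ((j : ℝ) + 1) * (4 * B) ^ j + 1 := by positivity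
  have hε0 : 0 ≤ ε' := by rw [hε']; positivity
  have h3 : A ^ (j + 1) * (((j : ℝ) + 1) * (4 * S / A) ^ j * Q) ≤
      A ^ (j + 1) * (M + j * (4 * S / A) ^ (j + 1) * S) :=
    mul_le_mul_of_nonneg_left hM (by positivity)
  have e1 : A ^ (j + 1) * (((j : ℝ) + 1) * (4 * S / A) ^ j * Q) =
      ((j : ℝ) + 1) * (4 * S) ^ j * (A * Q) := by
    rw [div_pow, pow_succ]
    field_simp
  have e2 : A ^ (j + 1) * (M + j * (4 * S / A) ^ (j + 1) * S) =
      A ^ (j + 1) * M + j * (4 * S) ^ (j + 1) * S := by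
    rw [div_pow]
    field_simp
  rw [e1, e2] at h3
  have h4 : ((j : ℝ) + 1) * (4 * S) ^ j * (4 * S ^ 2 - ε') ≤
      ((j : ℝ) + 1) * (4 * S) ^ j * (A * Q) := mul_le_mul_of_nonneg_left h2 (by positivity)
  have h5 : ((j : ℝ) + 1) * (4 * S) ^ j * ε' ≤ ε := by
    have h6 : ((j : ℝ) + 1) * (4 * S) ^ j ≤ ((j : ℝ) + 1) * (4 * B) ^ j + 1 := by
      have : (4 * S) ^ j ≤ (4 * B) ^ j := pow_le_pow_left₀ (by positivity) (by linarith) j
      have h7 := mul_le_mul_of_nonneg_left this (by positivity : (0 : ℝ) ≤ (j : ℝ) + 1)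
      linarith
    calc ((j : ℝ) + 1) * (4 * S) ^ j * ε' ≤ (((j : ℝ) + 1) * (4 * B) ^ j + 1) * ε' :=
          mul_le_mul_of_nonneg_right h6 hε0
      _ = ε := by rw [hε']; field_simp
  have e3 : ((j : ℝ) + 1) * (4 * S) ^ j * (4 * S ^ 2 - ε') =
      j * (4 * S) ^ (j + 1) * S + 4 ^ (j + 1) * S ^ (j + 2) -
        ((j : ℝ) + 1) * (4 * S) ^ j * ε' := by
    rw [mul_pow, mul_pow, pow_succ, pow_succ S j, pow_add S j 2]
    ring
  linarith

lemma pow_le {x : ℝ} {k : ℕ} (hk : 2 ≤ k) : x ^ 4 ≤ 1 + x ^ (2 * k) := by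
  have h0 : 0 ≤ x ^ 2 := sq_nonneg x
  have e1 : x ^ 4 = (x ^ 2) ^ 2 := by ring
  rw [e1, pow_mul]
  rcases le_total (x ^ 2) 1 with h | h
  · have h1 : (x ^ 2) ^ 2 ≤ 1 := pow_le_one₀ h0 h
    have h2 : 0 ≤ (x ^ 2) ^ k := pow_nonneg h0 k
    linarith
  · have h1 : (x ^ 2) ^ 2 ≤ (x ^ 2) ^ k := pow_le_pow_right₀ h hk
    linarith

lemma l4 {V : Set ℂ} {f : ℕ → ℂ → ℝ} {k : ℕ} (hk : 2 ≤ k) (hc : ∀ i, Continuous (f i))
    (h : LkBdd k V f) : L4Bdd V f := by
  intro ζ hζ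
  obtain ⟨C, hC⟩ := h ζ hζ
  refine ⟨(∫ z, (tsupport ζ).indicator (fun _ => (1 : ℝ)) z) + C, fun i => ?_⟩
  have hK : IsCompact (tsupport ζ) := hζ.cpt
  have hind : Integrable ((tsupport ζ).indicator (fun _ => (1 : ℝ))) := by
    rw [integrable_indicator_iff hK.measurableSet]
    exact integrableOn_const hK.measure_lt_top.ne
  have hcs : ∀ m : ℕ, m ≠ 0 → Integrable (fun z => ζ z ^ m * f i z ^ m) := by
    intro m hm
    apply Continuous.integrable_of_hasCompactSupport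
    · exact (hζ.smooth.continuous.pow m).mul ((hc i).pow m)
    · apply HasCompactSupport.mul_right
      apply hζ.cpt.mono
      intro z hz hz0
      apply hz
      simp only
      rw [hz0, zero_pow hm]
  have h2 := hcs (2 * k) (by omega)
  calc ∫ z, ζ z ^ 4 * f i z ^ 4 ≤
        ∫ z, ((tsupport ζ).indicator (fun _ => (1 : ℝ)) z + ζ z ^ (2 * k) * f i z ^ (2 * k)) := by
        apply integral_mono (hcs 4 (by norm_num)) (hind.add h2)
        intro z
        change ζ z ^ 4 * f i z ^ 4 ≤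
          (tsupport ζ).indicator (fun _ => (1 : ℝ)) z + ζ z ^ (2 * k) * f i z ^ (2 * k)
        rw [← mul_pow, ← mul_pow]
        by_cases hz : z ∈ tsupport ζ
        · rw [indicator_of_mem hz]
          exact pow_le hk
        · rw [indicator_of_notMem hz, image_eq_zero_of_notMem_tsupport hz, zero_mul,
            zero_pow (by norm_num), zero_pow (by omega)]
          norm_num
    _ = (∫ z, (tsupport ζ).indicator (fun _ => (1 : ℝ)) z) +
        ∫ z, ζ z ^ (2 * k) * f i z ^ (2 * k) := integral_add hind h2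
    _ ≤ _ := by linarith [hC i]

lemma cb_nonneg (k : ℕ) : 0 ≤ cb k := by
  unfold cb
  positivity

theorem main (hDe : StmtDe) (hChn : StmtChn) (hOdd : StmtOdd) (hR : Dyn.StmtRatioS) :
    StmtCmb := by
  intro k hk V q h f hs hLk hL2 hNA φ hφ hφ0 ε hε
  obtain ⟨j, rfl⟩ : ∃ j, k = j + 2 := ⟨k - 2, by omega⟩
  have hk1 : j + 2 - 1 = j + 1 := rfl
  have hfc : ∀ i, Continuous (f i) := fun i => (hs.sol i).smooth.continuous
  have hec : ∀ i, Continuous (ee q (h i) (f i)) := fun i =>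
    (hDe V q hs.pot (h i) (f i) (hs.sol i)).1.continuous
  have hφc : Continuous φ := hφ.smooth.continuous
  have hL4 : L4Bdd V f := l4 hk hfc hLk
  have hint : ∀ g : ℂ → ℝ, Continuous g → Integrable (fun z => φ z * g z) := fun g hg =>
    (hφc.mul hg).integrable_of_hasCompactSupport hφ.cpt.mul_right
  have hnn0 : ∀ i n z, 0 ≤ nn q (h i) (f i) n z := fun i n z =>
    div_nonneg (sq_nonneg _) (pow_nonneg (hs.pot.pos z).le n)
  have hee0 : ∀ i z, 0 ≤ ee q (h i) (f i) z := fun i z =>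
    add_nonneg (sq_nonneg _) (hnn0 i 1 z)
  rw [hk1]
  set A : ℝ := ∫ z, φ z with hA
  have hA0 : 0 ≤ A := integral_nonneg hφ0
  rcases hA0.eq_or_lt with hA1 | hA1
  · have h0 : φ =ᵐ[volume] 0 :=
      (integral_eq_zero_iff_of_nonneg hφ0 hφ.integrable).mp hA1.symm
    refine Eventually.of_forall fun i => ?_
    have h1 : ∫ z, φ z * f i z ^ 2 = 0 := by
      have : ∫ z, φ z * f i z ^ 2 = ∫ z : ℂ, (0 : ℝ) := by
        apply integral_congr_ae
        filter_upwards [h0] with z hz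
        rw [hz]; simp
      rw [this, integral_zero]
    rw [h1, ← hA1, zero_pow (by omega), zero_pow (by omega)]
    linarith
  -- bound for the second moment
  obtain ⟨ζ, hζ, hζ1, hζK⟩ := exists_cutoff hφ.cpt hs.pot.isOpen hφ.sub
  have hζK' : ∀ z ∈ tsupport φ, ζ z = 1 := fun z hz => hζK.self_of_nhdsSet z hz
  obtain ⟨B₀, hB₀⟩ := hφ.cpt.exists_bound_of_continuous hφc
  have hB₀0 : 0 ≤ B₀ := (norm_nonneg _).trans (hB₀ 0)
  obtain ⟨C₂, hC₂⟩ := hL2 ζ hζ
  have h2nn : ∀ i, 0 ≤ ∫ z, φ z * f i z ^ 2 := fun i =>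
    integral_nonneg fun z => mul_nonneg (hφ0 z) (sq_nonneg _)
  have h2le : ∀ i, ∫ z, φ z * f i z ^ 2 ≤ B₀ * C₂ := by
    intro i
    have hi : Integrable (fun z => ζ z ^ 2 * f i z ^ 2) := by
      apply Continuous.integrable_of_hasCompactSupport
      · exact (hζ.smooth.continuous.pow 2).mul ((hfc i).pow 2)
      · apply HasCompactSupport.mul_right
        apply hζ.cpt.mono
        intro z hz hz0
        apply hz
        simp only
        rw [hz0, zero_pow (by norm_num)]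
    have h1 : ∫ z, φ z * f i z ^ 2 ≤ ∫ z, B₀ * (ζ z ^ 2 * f i z ^ 2) := by
      apply integral_mono (hint _ ((hfc i).pow 2)) (hi.const_mul B₀)
      intro z
      simp only
      by_cases hz : z ∈ tsupport φ
      · rw [hζK' z hz, one_pow, one_mul]
        have h3 := (le_abs_self _).trans (hB₀ z)
        exact mul_le_mul_of_nonneg_right h3 (sq_nonneg _)
      · rw [image_eq_zero_of_notMem_tsupport hz, zero_mul]
        positivity
    rw [integral_const_mul] at h1
    exact h1.trans (mul_le_mul_of_nonneg_left (hC₂ i) hB₀0)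
  set B : ℝ := B₀ * C₂ with hB
  have hB0 : 0 ≤ B := (h2nn 0).trans (h2le 0)
  -- parameters
  set c : ℝ := cb (j + 2) / 4 ^ (j + 1) with hc
  have hc0 : 0 ≤ c := div_nonneg (cb_nonneg _) (by positivity)
  set ε₁ : ℝ := ε / (2 * (c + 1)) with hε₁
  have hε₁0 : 0 < ε₁ := by positivity
  set ε₂ : ℝ := ε₁ / ((j + 1) * (4 * B) ^ j + 1) with hε₂
  have hε₂0 : 0 < ε₂ := by positivity
  have ev1 := hR V q h f hs hL2 hNA φ hφ hφ0 (3 / 8 * ε₂) (by positivity)
  have ev2 := (hOdd V q h f hs hL4 φ hφ).eventually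
    (lt_mem_nhds (show -(ε₂ / (2 * A)) < 0 by have : 0 < ε₂ / (2 * A) := by positivity
                                              linarith))
  have ev3 := hChn (j + 2) hk V q h f hs hLk φ hφ hφ0 (ε / (2 * A ^ (j + 1))) (by positivity)
  filter_upwards [ev1, ev2, ev3] with i h1 h2 h3
  rw [hk1] at h3
  set S : ℝ := ∫ z, φ z * f i z ^ 2 with hS
  set Q : ℝ := ∫ z, φ z * f i z ^ 4 with hQ
  set P : ℝ := ∫ z, φ z * f i z ^ (2 * (j + 2)) with hP
  set M : ℝ := ∫ z, φ z * (f i z ^ 2 * ee q (h i) (f i) z ^ (j + 1)) with hM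
  have hnnc : Continuous (fun z => nn q (h i) (f i) 1 z) := by
    have : (fun z => nn q (h i) (f i) 1 z) = fun z => ee q (h i) (f i) z - f i z ^ 2 := by
      funext z; unfold ee; ring
    rw [this]
    exact (hec i).sub ((hfc i).pow 2)
  have hnn00 : ∀ z, nn q (h i) (f i) 0 z = f i z ^ 2 := by
    intro z
    unfold nn
    rw [gg_zero, pow_zero, div_one, Complex.norm_real, Real.norm_eq_abs, sq_abs]
  have hE : ∫ z, φ z * (f i z ^ 2 * ee q (h i) (f i) z) =
      (∫ z, φ z * (nn q (h i) (f i) 1 z * nn q (h i) (f i) 0 z)) + Q := by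
    have g1 : Integrable (fun z => φ z * (nn q (h i) (f i) 1 z * nn q (h i) (f i) 0 z)) := by
      apply hint (fun z => nn q (h i) (f i) 1 z * nn q (h i) (f i) 0 z)
      simp only [hnn00]
      exact hnnc.mul ((hfc i).pow 2)
    have g2 : Integrable (fun z => φ z * f i z ^ 4) := hint _ ((hfc i).pow 4)
    rw [hQ, ← integral_add g1 g2]
    apply integral_congr_ae
    refine Eventually.of_forall fun z => ?_
    simp only [hnn00]
    unfold ee
    ring
  have hAE : 4 * S ^ 2 - ε₂ ≤ A * ∫ z, φ z * (f i z ^ 2 * ee q (h i) (f i) z) := by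
    rw [hE]
    have h4 : A * (-(ε₂ / (2 * A))) ≤ A * ((∫ z, φ z * (nn q (h i) (f i) 1 z *
        nn q (h i) (f i) 0 z)) - 1 / 3 * Q) := mul_le_mul_of_nonneg_left h2.le hA0
    have h5 : A * (-(ε₂ / (2 * A))) = -(ε₂ / 2) := by field_simp
    rw [h5] at h4
    nlinarith
  set r : ℝ := 4 * S / A with hr
  have hS0 : 0 ≤ S := h2nn i
  have hr0 : 0 ≤ r := by positivity
  have hle : ∫ z, ((j : ℝ) + 1) * r ^ j * (φ z * (f i z ^ 2 * ee q (h i) (f i) z)) ≤
      ∫ z, (φ z * (f i z ^ 2 * ee q (h i) (f i) z ^ (j + 1)) +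
      j * r ^ (j + 1) * (φ z * f i z ^ 2)) := by
    apply integral_mono ((hint _ (((hfc i).pow 2).mul (hec i))).const_mul _)
      ((hint _ (((hfc i).pow 2).mul ((hec i).pow (j + 1)))).add
        ((hint _ ((hfc i).pow 2)).const_mul _))
    intro z
    simp only
    have g1 := tang (hee0 i z) hr0 j
    have g2 := mul_le_mul_of_nonneg_left g1 (mul_nonneg (hφ0 z) (sq_nonneg (f i z)))
    calc ((j : ℝ) + 1) * r ^ j * (φ z * (f i z ^ 2 * ee q (h i) (f i) z)) =
        φ z * f i z ^ 2 * (((j : ℝ) + 1) * r ^ j * ee q (h i) (f i) z) := by ring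
      _ ≤ φ z * f i z ^ 2 * (ee q (h i) (f i) z ^ (j + 1) + j * r ^ (j + 1)) := g2
      _ = φ z * (f i z ^ 2 * ee q (h i) (f i) z ^ (j + 1)) +
        j * r ^ (j + 1) * (φ z * f i z ^ 2) := by ring
  have g3 : Integrable (fun z => φ z * (f i z ^ 2 * ee q (h i) (f i) z ^ (j + 1))) :=
    hint _ (((hfc i).pow 2).mul ((hec i).pow (j + 1)))
  have g4 : Integrable (fun z => j * r ^ (j + 1) * (φ z * f i z ^ 2)) :=
    (hint _ ((hfc i).pow 2)).const_mul _
  rw [integral_const_mul, integral_add g3 g4, integral_const_mul] at hle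
  have hfin := alg hA1 hS0 (h2le i) hε₁0 j hε₂ hAE hle
  -- conclusion
  have k1 : A ^ (j + 1) * (c * M - ε / (2 * A ^ (j + 1))) ≤ A ^ (j + 1) * P :=
    mul_le_mul_of_nonneg_left h3 (by positivity)
  have k2 : A ^ (j + 1) * (c * M - ε / (2 * A ^ (j + 1))) = c * (A ^ (j + 1) * M) - ε / 2 := by
    field_simp
  have k3 : c * (4 ^ (j + 1) * S ^ (j + 2) - ε₁) ≤ c * (A ^ (j + 1) * M) :=
    mul_le_mul_of_nonneg_left hfin hc0
  have k4 : c * ε₁ ≤ ε / 2 := by
    rw [hε₁, ← mul_div_assoc, div_le_div_iff₀ (by positivity) (by norm_num)]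
    nlinarith
  have k5 : c * 4 ^ (j + 1) = cb (j + 2) := by
    rw [hc]; field_simp
  have k6 : c * (4 ^ (j + 1) * S ^ (j + 2) - ε₁) = cb (j + 2) * S ^ (j + 2) - c * ε₁ := by
    rw [← k5]; ring
  rw [k2] at k1
  rw [k6] at k3
  linarith

end CmbM

theorem stmtCmb (hDe : StmtDe) (hChn : StmtChn) (hOdd : StmtOdd) (hR : Dyn.StmtRatioS) : StmtCmb :=
  CmbM.main hDe hChn hOdd hR

end

end Pool.Agent.A54.Ev
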