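import Pool.Agent.Lib.MP_a54f13_nt.Ev.Spec
import Pool.Agent.Lib.MP_a54f13_nt.Rel

/-!
Package `Ev`, module `Id2`: the divergence of `N f^(2l) e^m ∇e`.
-/

set_option autoImplicit false

namespace Pool.Agent.A54.Ev

open MeasureTheory Filter Topology Set
open scoped ContDiff ComplexConjugate UpperHalfPlane MatrixGroups

noncomputable section

namespace Id2M

variable {V : Set ℂ} {q : ℂ → ℝ}

lemma dzb_ofReal {u : ℂ → ℝ} (hu : ContDiff ℝ ∞ u) (z : ℂ) :
    dzb (fun w => (u w : ℂ)) z = conj (dz (fun w => (u w : ℂ)) z) := by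
  rw [← dzb_conj (contDiff_ofReal hu)]
  simp only [Complex.conj_ofReal]

lemma dzb_pow {g : ℂ → ℂ} (hg : ContDiff ℝ ∞ g) (n : ℕ) (z : ℂ) :
    dzb (fun w => g w ^ n) z = (n : ℂ) * g z ^ (n - 1) * dzb g z := by
  induction n with
  | zero => simp [dzb_const]
  | succ n ih =>
    have h1 : (fun w => g w ^ (n + 1)) = fun w => g w ^ n * g w := by
      funext w
      rw [pow_succ]
    rw [h1, dzb_mul (hg.pow n) hg, ih]
    cases n with
    | zero => simp
    | succ n =>
      simp only [Nat.add_sub_cancel]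
      push_cast
      rw [pow_succ]
      ring

lemma nn_eq (h : ℝ) (f : ℂ → ℝ) (z : ℂ) : nn q h f 1 z = ee q h f z - f z ^ 2 := by
  unfold ee
  ring

/-- the formula for `h ∂̄ (L de)` -/
lemma div_eq {h : ℝ} {f : ℂ → ℝ} (hf : ContDiff ℝ ∞ f)
    (he : ContDiff ℝ ∞ (ee q h f)) (l m : ℕ) (z : ℂ) :
    (h : ℂ) * dzb (fun w => ((f w : ℂ) ^ (2 * l) * (ee q h f w : ℂ) ^ (m + 1) -
      (f w : ℂ) ^ (2 * l + 2) * (ee q h f w : ℂ) ^ m) * de q h f w) z =
    (((2 * (l : ℝ) * f z ^ (2 * l - 1) * ee q h f z ^ (m + 1) -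
      (2 * (l : ℝ) + 2) * f z ^ (2 * l + 1) * ee q h f z ^ m : ℝ) : ℂ)) *
        (conj (gg h f 1 z) * de q h f z) +
    ((((m : ℝ) + 1) * f z ^ (2 * l) * ee q h f z ^ m -
      (m : ℝ) * f z ^ (2 * l + 2) * ee q h f z ^ (m - 1) : ℝ) : ℂ) *
        ((‖de q h f z‖ ^ 2 : ℝ) : ℂ) +
    ((f z ^ (2 * l) * ee q h f z ^ (m + 1) - f z ^ (2 * l + 2) * ee q h f z ^ m : ℝ) : ℂ) *
      ((h : ℂ) * dzb (de q h f) z) := by
  have cf := contDiff_ofReal hf
  have ce := contDiff_ofReal he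
  have cd : ContDiff ℝ ∞ (de q h f) := contDiff_const.mul (contDiff_dz ce)
  have hg1 : (h : ℂ) * dzb (fun w => (f w : ℂ)) z = conj (gg h f 1 z) := by
    rw [dzb_ofReal hf]
    show _ = conj ((h : ℂ) * dz (fun w => (f w : ℂ)) z)
    rw [map_mul, Complex.conj_ofReal]
  have hg2 : (h : ℂ) * dzb (fun w => (ee q h f w : ℂ)) z = conj (de q h f z) := by
    rw [dzb_ofReal he]
    show _ = conj ((h : ℂ) * dz (fun w => (ee q h f w : ℂ)) z)
    rw [map_mul, Complex.conj_ofReal]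
  have hd2 : ((‖de q h f z‖ ^ 2 : ℝ) : ℂ) = conj (de q h f z) * de q h f z := by
    rw [Complex.conj_mul']
    push_cast
    rfl
  have hi : 2 * l + 2 - 1 = 2 * l + 1 := by omega
  rw [dzb_mul (((cf.pow _).mul (ce.pow _)).sub ((cf.pow _).mul (ce.pow _))) cd,
    dzb_sub ((cf.pow _).mul (ce.pow _)) ((cf.pow _).mul (ce.pow _)),
    dzb_mul (cf.pow _) (ce.pow _), dzb_mul (cf.pow _) (ce.pow _),
    dzb_pow cf, dzb_pow ce, dzb_pow cf, dzb_pow ce, hd2, ← hg1, ← hg2, hi, Nat.add_sub_cancel]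
  push_cast
  ring

end Id2M

open Id2M in
theorem stmtId2 (hSml : StmtSml) (hDe : StmtDe) (hDif : StmtDif) : StmtId2 := by
  intro l m k hk V q h f hS hB φ hφ
  have hq := hS.pot
  have hk1 : 1 ≤ k := by omega
  have hee : ∀ n, ContDiff ℝ ∞ (ee q (h n) (f n)) := fun n => (hDe V q hq (h n) (f n) (hS.sol n)).1
  have hφ1 : TestR V (fun z => φ z * (q z ^ 1)⁻¹) := hφ.mul_right (Rel.contDiff_inv_pow hq 1)
  have hφ1c := hφ1.toTest
  have hφc := hφ.toTest
  set K := tsupport φ with hKdef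
  have hK : IsCompact K := hφ.cpt
  obtain ⟨C, hC0, hC⟩ := hDif V q hq K hK hφ.sub
  have hKz : ∀ z, z ∉ K → φ z = 0 := fun z hz => image_eq_zero_of_notMem_tsupport hz
  have hK1z : ∀ z, z ∉ K → dzb (fun z => ((φ z * (q z ^ 1)⁻¹ : ℝ) : ℂ)) z = 0 := by
    intro z hz
    refine dzb_eq_zero_of_notMem fun h1 => hz ?_
    have h2 : tsupport (fun z => ((φ z * (q z ^ 1)⁻¹ : ℝ) : ℂ)) ⊆ tsupport (fun z => φ z * (q z ^ 1)⁻¹) :=
      tsupport_comp_subset (g := fun x : ℝ => (x : ℂ)) (by simp) _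
    exact (tsupport_mul_subset_left (f := φ) (g := fun z => (q z ^ 1)⁻¹)) (h2 h1)
  -- the functions
  let P : ℕ → ℂ → ℂ := fun n w => ((f n w : ℂ) ^ (2 * l) * (ee q (h n) (f n) w : ℂ) ^ (m + 1) -
      (f n w : ℂ) ^ (2 * l + 2) * (ee q (h n) (f n) w : ℂ) ^ m) * de q (h n) (f n) w
  let F1 : ℕ → ℂ → ℂ := fun n z =>
    dzb (fun z => ((φ z * (q z ^ 1)⁻¹ : ℝ) : ℂ)) z * ((h n : ℂ) * P n z)
  let D : ℕ → ℂ → ℝ := fun n z => ((h n : ℂ) * dzb (de q (h n) (f n)) z).re
  let R : ℕ → ℂ → ℝ := fun n z => φ z * (f n z ^ (2 * l) * ee q (h n) (f n) z ^ m *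
    (nn q (h n) (f n) 1 z * (D n z / q z) - (yy q (h n) (f n) z - 2 * f n z * xx q (h n) (f n) z)))
  let T : ℕ → ℂ → ℝ := fun n z => φ z *
    ((2 * (l : ℝ) * f n z ^ (2 * l - 1) * ee q (h n) (f n) z ^ (m + 1) -
        (2 * (l : ℝ) + 4) * f n z ^ (2 * l + 1) * ee q (h n) (f n) z ^ m) * xx q (h n) (f n) z +
      (2 * f n z ^ (2 * l) * ee q (h n) (f n) z ^ m +
        (m : ℝ) * f n z ^ (2 * l) * ee q (h n) (f n) z ^ (m - 1) * nn q (h n) (f n) 1 z) *
          yy q (h n) (f n) z)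
  -- bounds
  have hfS : ∀ n z, |f n z| ≤ sm (h n) (f n) 2 z := by
    intro n z
    have h1 : ‖gg (h n) (f n) 0 z‖ ≤ sm (h n) (f n) 2 z := Rel.norm_gg_le_sm (by norm_num)
    rw [gg_zero, Complex.norm_real] at h1
    exact h1
  have he0 : ∀ n z, 0 ≤ ee q (h n) (f n) z := fun n z =>
    add_nonneg (sq_nonneg _) (Rel.nn_nonneg hq 1)
  have hfe : ∀ n, ∀ z ∈ K, 0 ≤ f n z ^ (2 * l) * ee q (h n) (f n) z ^ m ∧
      f n z ^ (2 * l) * ee q (h n) (f n) z ^ m ≤ C ^ m * sm (h n) (f n) 2 z ^ (2 * l + 2 * m) := by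
    intro n z hz
    have hs0 := Rel.sm_nonneg (h := h n) (f := f n) (z := z) 2
    have h1 : 0 ≤ f n z ^ (2 * l) := (even_two_mul l).pow_nonneg _
    have h2 : f n z ^ (2 * l) ≤ sm (h n) (f n) 2 z ^ (2 * l) := by
      rw [← (even_two_mul l).pow_abs]
      exact pow_le_pow_left₀ (abs_nonneg _) (hfS n z) _
    have h3 : ee q (h n) (f n) z ^ m ≤ (C * sm (h n) (f n) 2 z ^ 2) ^ m :=
      pow_le_pow_left₀ (he0 n z) (hC (h n) (f n) (hS.sol n) z hz).2.1 m
    refine ⟨mul_nonneg h1 (pow_nonneg (he0 n z) m), ?_⟩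
    calc _ ≤ sm (h n) (f n) 2 z ^ (2 * l) * (C * sm (h n) (f n) 2 z ^ 2) ^ m :=
          mul_le_mul h2 h3 (pow_nonneg (he0 n z) m) (by positivity)
      _ = _ := by rw [mul_pow, ← pow_mul, pow_add]; ring
  have hkk : 2 * k = 2 * l + 2 * m + 4 := by omega
  have hF1 : Tendsto (fun n => ∫ z, F1 n z) atTop (𝓝 0) := by
    refine hSml k hk1 V q h f hS hB _ hφ1c.dzb 2 (C ^ m * (C * C)) (by positivity) F1 fun n z => ?_
    have hh := (hS.sol n).hpos
    by_cases hz : z ∈ K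
    · have hs0 := Rel.sm_nonneg (h := h n) (f := f n) (z := z) 2
      obtain ⟨c1, c2, c3, -⟩ := hC (h n) (f n) (hS.sol n) z hz
      obtain ⟨c4, c5⟩ := hfe n z hz
      have c6 : 0 ≤ nn q (h n) (f n) 1 z := Rel.nn_nonneg hq 1
      have hL : ((f n z : ℂ) ^ (2 * l) * (ee q (h n) (f n) z : ℂ) ^ (m + 1) -
          (f n z : ℂ) ^ (2 * l + 2) * (ee q (h n) (f n) z : ℂ) ^ m) =
          ((f n z ^ (2 * l) * ee q (h n) (f n) z ^ m * nn q (h n) (f n) 1 z : ℝ) : ℂ) := by
        rw [nn_eq]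
        push_cast
        ring
      simp only [F1, P]
      rw [hL, norm_mul, norm_mul, norm_mul, Complex.norm_real, Complex.norm_real,
        Real.norm_of_nonneg hh.le, Real.norm_of_nonneg (mul_nonneg c4 c6)]
      calc _ ≤ ‖dzb (fun z => ((φ z * (q z ^ 1)⁻¹ : ℝ) : ℂ)) z‖ *
            (h n * ((C ^ m * sm (h n) (f n) 2 z ^ (2 * l + 2 * m) *
              (C * sm (h n) (f n) 2 z ^ 2)) * (C * sm (h n) (f n) 2 z ^ 2))) := by
            gcongr
        _ = _ := by rw [hkk, pow_add _ (2 * l + 2 * m) 4]; ring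
    · simp only [F1]
      rw [hK1z z hz, zero_mul, norm_zero, zero_mul, mul_zero, mul_zero]
  have hF2 : Tendsto (fun n => ∫ z, ((R n z : ℝ) : ℂ)) atTop (𝓝 0) := by
    refine hSml k hk1 V q h f hS hB _ hφc 2 (C ^ m * C) (by positivity) _ fun n z => ?_
    have hh := (hS.sol n).hpos
    by_cases hz : z ∈ K
    · have hs0 := Rel.sm_nonneg (h := h n) (f := f n) (z := z) 2
      obtain ⟨c1, c2, c3, c7⟩ := hC (h n) (f n) (hS.sol n) z hz
      obtain ⟨c4, c5⟩ := hfe n z hz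
      simp only [R]
      rw [Complex.norm_real, norm_mul, norm_mul, Real.norm_of_nonneg c4, Complex.norm_real]
      calc _ ≤ ‖φ z‖ * (C ^ m * sm (h n) (f n) 2 z ^ (2 * l + 2 * m) *
            (h n * (C * sm (h n) (f n) 2 z ^ 4))) := by
            refine mul_le_mul_of_nonneg_left ?_ (norm_nonneg _)
            exact mul_le_mul c5 c7 (norm_nonneg _) (by positivity)
        _ = _ := by rw [hkk, pow_add _ (2 * l + 2 * m) 4]; ring
    · simp only [R]
      rw [hKz z hz, zero_mul, Complex.ofReal_zero, norm_zero, zero_mul, mul_zero, mul_zero]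
  -- the identity
  have hkey : ∀ n, ∫ z, T n z = -((∫ z, F1 n z) + ∫ z, ((R n z : ℝ) : ℂ)).re := by
    intro n
    have hf := (hS.sol n).smooth
    have he := hee n
    have cf := contDiff_ofReal hf
    have ce := contDiff_ofReal he
    have cd : ContDiff ℝ ∞ (de q (h n) (f n)) := contDiff_const.mul (contDiff_dz ce)
    have cP : ContDiff ℝ ∞ (P n) := (((cf.pow _).mul (ce.pow _)).sub ((cf.pow _).mul (ce.pow _))).mul cd
    have hibp := integral_mul_dzb hφ1c.smooth (b := fun z => (h n : ℂ) * P n z)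
      (contDiff_const.mul cP) (Or.inl hφ1c.cpt)
    have hI : Integrable (fun z => ((φ z * (q z ^ 1)⁻¹ : ℝ) : ℂ) *
        dzb (fun z => (h n : ℂ) * P n z) z) :=
      (hφ1c.mul_right (contDiff_dzb (contDiff_const.mul cP))).integrable
    -- continuity
    have hcf : Continuous (f n) := hf.continuous
    have hce : Continuous (ee q (h n) (f n)) := he.continuous
    have hcn : Continuous (nn q (h n) (f n) 1) := Rel.continuous_nn hq hf _ _
    have hcx : Continuous (xx q (h n) (f n)) := by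
      unfold xx
      exact (Complex.continuous_re.comp ((contDiff_conj (contDiff_gg hf (h n) 1)).continuous.mul
        cd.continuous)).div₀ hq.smooth.continuous (fun z => (hq.pos z).ne')
    have hcy : Continuous (yy q (h n) (f n)) := by
      unfold yy
      exact (cd.continuous.norm.pow 2).div₀ hq.smooth.continuous (fun z => (hq.pos z).ne')
    have hcD : Continuous (D n) :=
      Complex.continuous_re.comp (continuous_const.mul (contDiff_dzb cd).continuous)
    have hIT : Integrable (T n) := Rel.integrable_testR hφ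
      ((((continuous_const.mul (hcf.pow _)).mul (hce.pow _)).sub
        ((continuous_const.mul (hcf.pow _)).mul (hce.pow _))).mul hcx |>.add
        ((((continuous_const.mul (hcf.pow _)).mul (hce.pow _)).add
          (((continuous_const.mul (hcf.pow _)).mul (hce.pow _)).mul hcn)).mul hcy))
    have hIR : Integrable (R n) := Rel.integrable_testR hφ
      (((hcf.pow _).mul (hce.pow _)).mul ((hcn.mul (hcD.div₀ hq.smooth.continuous
        (fun z => (hq.pos z).ne'))).sub (hcy.sub ((continuous_const.mul hcf).mul hcx))))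
    -- pointwise
    have hpt : ∀ z, (((φ z * (q z ^ 1)⁻¹ : ℝ) : ℂ) * dzb (fun z => (h n : ℂ) * P n z) z).re =
        T n z + R n z := by
      intro z
      have hqz := (hq.pos z).ne'
      rw [dzb_const_mul _ cP, div_eq hf he l m z, Complex.re_ofReal_mul, Complex.add_re,
        Complex.add_re, Complex.re_ofReal_mul, Complex.re_ofReal_mul, Complex.re_ofReal_mul,
        Complex.ofReal_re]
      have e1 : (conj (gg (h n) (f n) 1 z) * de q (h n) (f n) z).re =
          xx q (h n) (f n) z * q z := by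
        unfold xx
        field_simp
      have e2 : ‖de q (h n) (f n) z‖ ^ 2 = yy q (h n) (f n) z * q z := by
        unfold yy
        field_simp
      have e3 : ((h n : ℂ) * dzb (de q (h n) (f n)) z).re = D n z := rfl
      have e4 : (m : ℝ) * ee q (h n) (f n) z ^ (m - 1) * ee q (h n) (f n) z =
          (m : ℝ) * ee q (h n) (f n) z ^ m := by
        cases m with
        | zero => simp
        | succ m =>
          rw [Nat.add_sub_cancel, pow_succ]
          ring
      rw [e1, e2, e3]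
      simp only [T, R]
      rw [nn_eq]
      set E := ee q (h n) (f n) z
      set X := xx q (h n) (f n) z
      set Y := yy q (h n) (f n) z
      set u := f n z
      have e5 : D n z = (D n z / q z) * q z := by field_simp
      set Dq := D n z / q z
      rw [e5]
      have e6 : φ z * (q z ^ 1)⁻¹ * ((2 * (l : ℝ) * u ^ (2 * l - 1) * E ^ (m + 1) -
          (2 * (l : ℝ) + 2) * u ^ (2 * l + 1) * E ^ m) * (X * q z) +
          (((m : ℝ) + 1) * u ^ (2 * l) * E ^ m - (m : ℝ) * u ^ (2 * l + 2) * E ^ (m - 1)) *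
            (Y * q z) +
          (u ^ (2 * l) * E ^ (m + 1) - u ^ (2 * l + 2) * E ^ m) * (Dq * q z)) =
          φ z * ((2 * (l : ℝ) * u ^ (2 * l - 1) * E ^ (m + 1) -
          (2 * (l : ℝ) + 2) * u ^ (2 * l + 1) * E ^ m) * X +
          (((m : ℝ) + 1) * u ^ (2 * l) * E ^ m - (m : ℝ) * u ^ (2 * l + 2) * E ^ (m - 1)) * Y +
          (u ^ (2 * l) * E ^ (m + 1) - u ^ (2 * l + 2) * E ^ m) * Dq) := by
        rw [pow_one]
        field_simp
      rw [e6]
      linear_combination (-(φ z * u ^ (2 * l) * Y)) * e4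
    have h1 : ∫ z, (((φ z * (q z ^ 1)⁻¹ : ℝ) : ℂ) * dzb (fun z => (h n : ℂ) * P n z) z).re =
        (∫ z, ((φ z * (q z ^ 1)⁻¹ : ℝ) : ℂ) * dzb (fun z => (h n : ℂ) * P n z) z).re :=
      Complex.reCLM.integral_comp_comm hI
    have h2 : ∫ z, (((φ z * (q z ^ 1)⁻¹ : ℝ) : ℂ) * dzb (fun z => (h n : ℂ) * P n z) z).re =
        (∫ z, T n z) + ∫ z, R n z := by
      rw [← integral_add hIT hIR]
      congr 1
      funext z
      exact hpt z
    have h3 : ∫ z, ((R n z : ℝ) : ℂ) = ((∫ z, R n z : ℝ) : ℂ) := integral_complex_ofReal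
    have h4 : ∫ z, F1 n z = -∫ z, ((φ z * (q z ^ 1)⁻¹ : ℝ) : ℂ) *
        dzb (fun z => (h n : ℂ) * P n z) z := by
      rw [hibp, neg_neg]
    rw [h4, h3, Complex.add_re, Complex.neg_re, Complex.ofReal_re, ← h1, h2]
    ring
  show Tendsto (fun n => ∫ z, T n z) atTop (𝓝 0)
  simp_rw [hkey]
  have h5 := (Complex.continuous_re.tendsto 0).comp (by simpa using hF1.add hF2)
  have h6 := h5.neg
  simpa using h6

end

end Pool.Agent.A54.Ev
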