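import Pool.Agent.Lib.MP_a54f13_nt.Ev.Top
import Pool.Agent.Lib.MP_a54f13_nt.EM.Fin

/-!
# The even moments, with the case `n = 2`
-/

set_option autoImplicit false

namespace Pool.Agent.A54.Ev

open MeasureTheory Filter Topology Set
open scoped ContDiff ComplexConjugate UpperHalfPlane MatrixGroups

/-- lower bounds for the even moments from the case `n = 2` -/
theorem even_of_two {f : ℕ → ℍ → ℝ} {t : ℕ → ℝ} (hf : ∀ i, IsHeckeMaass (f i) (t i))
    (ht : Tendsto t atTop atTop) {ψ : ℍ → ℝ} (hψ : TestX ψ) (hψ0 : ∀ z, 0 ≤ ψ z)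
    (h2 : Tendsto (fun i => ∫ z in ModularGroup.fdo, ψ z * f i z ^ 2) atTop (𝓝 (∫ z in ModularGroup.fdo, ψ z)))
    (k : ℕ) (hk : 1 ≤ k) (ε : ℝ) (hε : 0 < ε) :
    ∀ᶠ i in atTop, ((2 * k).choose k : ℝ) / 2 * (∫ z in ModularGroup.fdo, ψ z) - ε ≤
      ∫ z in ModularGroup.fdo, ψ z * f i z ^ (2 * k) := by
  have hnn : ∀ i, 0 ≤ ∫ z in ModularGroup.fdo, ψ z * f i z ^ (2 * k) := fun i =>
    integral_nonneg fun z => mul_nonneg (hψ0 z) (by rw [pow_mul]; positivity)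
  have hc0 : 0 ≤ ∫ z in ModularGroup.fdo, ψ z := integral_nonneg hψ0
  rcases hc0.eq_or_lt with hc | hc
  · refine Eventually.of_forall fun i => ?_
    rw [← hc, mul_zero]
    linarith [hnn i]
  rcases hk.eq_or_lt with rfl | hk2
  · filter_upwards [h2.eventually (lt_mem_nhds (sub_lt_self _ hε))] with i hi
    have h3 : ((2 * 1).choose 1 : ℝ) = 2 := by norm_num
    rw [h3]
    simpa using hi.le
  · set c := ∫ z in ModularGroup.fdo, ψ z with hcd
    have hcp : 0 < c ^ (k - 1) := pow_pos hc _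
    have hb : (0 : ℝ) ≤ ((2 * k).choose k : ℝ) / 2 := by positivity
    have h5 : Tendsto (fun i => ((2 * k).choose k : ℝ) / 2 * (∫ z in ModularGroup.fdo, ψ z * f i z ^ 2) ^ k) atTop
        (𝓝 (((2 * k).choose k : ℝ) / 2 * c ^ k)) := (h2.pow k).const_mul _
    have hδ : 0 < ε * c ^ (k - 1) / 2 := by positivity
    filter_upwards [finalK hf ht k hk2 ψ hψ hψ0 (ε * c ^ (k - 1) / 2) hδ,
      h5.eventually (lt_mem_nhds (sub_lt_self _ hδ))] with i h6 h7
    have h6' : ((2 * k).choose k : ℝ) / 2 * (∫ z in ModularGroup.fdo, ψ z * f i z ^ 2) ^ k - ε * c ^ (k - 1) / 2 ≤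
        c ^ (k - 1) * ∫ z in ModularGroup.fdo, ψ z * f i z ^ (2 * k) := h6
    have h8 : ((2 * k).choose k : ℝ) / 2 * c ^ k - ε * c ^ (k - 1) ≤
        c ^ (k - 1) * ∫ z in ModularGroup.fdo, ψ z * f i z ^ (2 * k) := by linarith
    have h9 : c ^ k = c ^ (k - 1) * c := by
      rw [← pow_succ]
      congr 1
      omega
    have h10 : c ^ (k - 1) * (((2 * k).choose k : ℝ) / 2 * c - ε) ≤
        c ^ (k - 1) * ∫ z in ModularGroup.fdo, ψ z * f i z ^ (2 * k) := by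
      rw [h9] at h8
      nlinarith
    exact le_of_mul_le_mul_left h10 hcp

/-- log-convexity of the normalised even moments, in the form of the hand-in -/
theorem logc {f : ℕ → ℍ → ℝ} {t : ℕ → ℝ} (hf : ∀ i, IsHeckeMaass (f i) (t i))
    (ht : Tendsto t atTop atTop) {ψ : ℍ → ℝ} (hψ : TestX ψ) (hψ0 : ∀ z, 0 ≤ ψ z) (s : ℕ → ℕ → ℝ)
    (hs : ∀ k i, s k i =
      2 ^ k * (∫ z in ModularGroup.fdo, ψ z * f i z ^ (2 * k)) / ((2 * k).choose k : ℝ))
    (k : ℕ) (B ε : ℝ) (hε : 0 < ε) : ∀ᶠ i in atTop,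
      s (k + 2) i ≤ B → s (k + 1) i ^ 2 ≤ s k i * s (k + 2) i + ε := by
  have hc : (0 : ℝ) < ((2 * (k + 2)).choose (k + 2) : ℝ) := by
    exact_mod_cast Nat.choose_pos (by omega)
  filter_upwards [EM.logConvex hf ht hψ hψ0 k
    (B * ((2 * (k + 2)).choose (k + 2) : ℝ) / 2 ^ (k + 2)) ε hε] with i hi hB
  rw [hs (k + 2) i] at hB
  have h := hi (by
    rw [le_div_iff₀ (by positivity)]
    rw [div_le_iff₀ hc] at hB
    linarith)
  rw [hs k i, hs (k + 1) i, hs (k + 2) i]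
  exact h

end Pool.Agent.A54.Ev
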