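import Pool.Agent.Lib.MP_a54f13_nt.Dyn.Spec3

/-!
# Package `Ev`: even moments of Hecke–Maass forms

Architect: helper91. GOAL (Top): for every sequence of real Hecke–Maass cusp forms `f_i` of `SL(2, ℤ)` with `t_i → ∞`, every `ψ ≥ 0` in `C_c^∞(X)` and every `k ≥ 2`
`liminf ((∫ ψ)^(k-1) ∫ ψ f_i^(2k) - (1/2) binom(2k, k) (∫ ψ f_i²)^k) ≥ 0`, without hypotheses (constants `3, 10, 35, 126, …` instead of `3, 9, 27, 81, …` in `EvenMomentsSharp`).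

IDEA (flat model `Δ u = - u`, `N = |∇u|²`, `e = u² + N` the energy density, `X = ∇u · ∇e`, `Y = |∇e|²`). Then `N Δe = Y - 2 u X` exactly. Integration by parts against a test function, up to `o(1)`:
(I1) `∫ φ ((2j+1) u^(2j) e^(i+1) - (2j+2) u^(2j+2) e^i + i u^(2j+1) e^(i-1) X) = 0` (divergence of `u^(2j+1) e^i ∇u`),
(I2) `∫ φ ((2l u^(2l-1) e^(m+1) - (2l+4) u^(2l+1) e^m) X + (2 u^(2l) e^m + m u^(2l) e^(m-1) N) Y) = 0` (divergence of `N u^(2l) e^m ∇e`).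
By (I2) and induction on `l` all `∫ φ u^(2l+1) e^m X ≥ - o(1)` for `φ ≥ 0`; then (I1) gives `(2j+2) ∫ φ u^(2j+2) e^i ≥ (2j+1) ∫ φ u^(2j) e^(i+1) - o(1)`, so `∫ φ u^(2k) ≥ c_k ∫ φ u² e^(k-1) - o(1)`,
`c_k = 2 binom(2k,k) / 4^k`; `∫ φ u² e = (4/3) ∫ φ u⁴ + o(1)` (`StmtOdd`), `(∫ φ) ∫ φ u⁴ ≥ 3 (∫ φ u²)² - o(1)` (`Dyn.StmtRatioS`) and Jensen's inequality.

CONVENTIONS. Module `X` is the file `Pool/Agent/Lib/MP_a54f13_nt/Ev/<Name>.lean` importing `Pool.Agent.Lib.MP_a54f13_nt.Ev.Spec` (and models), private names in `namespace Pool.Agent.A54.Ev.<Name>M`,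
final theorem `Pool.Agent.A54.Ev.stmt<Name>`; the used statements are hypotheses of the final theorem (in the order of the text). No straight double quotes, no open holes, standard axioms only; at most 60 seconds.
-/

set_option autoImplicit false

namespace Pool.Agent.A54.Ev

open MeasureTheory Filter Topology Set
open scoped ContDiff ComplexConjugate UpperHalfPlane MatrixGroups
open Pool.Agent.A54.Half (H0 qq ff hh)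

noncomputable section

/-- the energy density `e = f² + N_1` -/
def ee (q : ℂ → ℝ) (h : ℝ) (f : ℂ → ℝ) (z : ℂ) : ℝ := f z ^ 2 + nn q h f 1 z

/-- `h ∂ e` -/
def de (q : ℂ → ℝ) (h : ℝ) (f : ℂ → ℝ) (z : ℂ) : ℂ := (h : ℂ) * dz (fun w => (ee q h f w : ℂ)) z

/-- `X = Re (conj g_1 · h ∂ e) / q` -/
def xx (q : ℂ → ℝ) (h : ℝ) (f : ℂ → ℝ) (z : ℂ) : ℝ := (conj (gg h f 1 z) * de q h f z).re / q z

/-- `Y = |h ∂ e|² / q` -/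
def yy (q : ℂ → ℝ) (h : ℝ) (f : ℂ → ℝ) (z : ℂ) : ℝ := ‖de q h f z‖ ^ 2 / q z

/-- the powers `f^(2k)` have bounded integrals over compact sets (`k = 2`: `L4Bdd`) -/
def LkBdd (k : ℕ) (V : Set ℂ) (f : ℕ → ℂ → ℝ) : Prop :=
  ∀ ζ : ℂ → ℝ, TestR V ζ → ∃ C : ℝ, ∀ i, ∫ z, ζ z ^ (2 * k) * f i z ^ (2 * k) ≤ C

/-- the constant `(1/2) binom(2k, k)` -/
def cb (k : ℕ) : ℝ := (Nat.centralBinom k : ℝ) / 2

/-- **Ldk** (model: Lady.lean). Proof: induction on `k`; for `k + 1` apply the inequality `∫ ‖u‖² ≤ C₀ (∫ ‖∇u‖)²` to `u = v^(k+1)`: `‖∇u‖ ≤ (k+1) ‖v‖^k ‖∇v‖`, Cauchy–Schwarz: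
`∫ ‖v‖^(2k+2) ≤ C₀ (k+1)² (∫ ‖v‖^(2k)) ∫ ‖∇v‖²`. -/
def StmtLdk : Prop := ∀ k : ℕ, 1 ≤ k → ∃ C : ℝ, 0 ≤ C ∧ ∀ v : ℂ → ℂ, ContDiff ℝ ∞ v →
  HasCompactSupport v → ∫ z, ‖v z‖ ^ (2 * k) ≤ C * (∫ z, ‖v z‖ ^ 2) * (∫ z, ‖fderiv ℝ v z‖ ^ 2) ^ (k - 1)

/-- **Lkb** local `L^(2k)` bounds (uses `StmtErr`, `StmtCacc`, `StmtLdk`; model: L4.lean, all of whose lemmas can be used). Proof. As `L4.one_centre`: `h^(2(k-1)) ∫ ζ^(2k) w^(2k) |g_n|^(2k) ≤ C (∫ ζ'² w² f²)^k` for the weights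
`w = wt h x0`. Jensen (Hölder) for the measure `w dz`: `(∫ (w ζ'² f²) w)^k ≤ (∫ w)^(k-1) ∫ (w ζ'² f²)^k w`, `∫ w = h² c`; integrate over the centres `x0` as in `stmtL4` (`integral_conv`, `integrable_scale`; all powers of `h` cancel). -/
def StmtLkb : Prop := ∀ k : ℕ, 1 ≤ k → ∀ (V : Set ℂ) (q : ℂ → ℝ), Pot V q → ∀ (n : ℕ) (ζ : ℂ → ℝ), TestR V ζ →
  ∃ (ζ' : ℂ → ℝ) (C : ℝ), TestR V ζ' ∧ 0 ≤ C ∧ ∀ (h : ℝ) (f : ℂ → ℝ), Sol V q h f →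
    ∫ z, ζ z ^ (2 * k) * ‖gg h f n z‖ ^ (2 * k) ≤ C * ∫ z, ζ' z ^ (2 * k) * f z ^ (2 * k)

/-- **Sml** integrals of small functions (uses `StmtLkb`; model: `Odd.bdd`, `Odd.small` in Odd.lean, `Rel.sm_L4` in Rel.lean). -/
def StmtSml : Prop := ∀ k : ℕ, 1 ≤ k → ∀ (V : Set ℂ) (q : ℂ → ℝ) (h : ℕ → ℝ) (f : ℕ → ℂ → ℝ), Seq V q h f →
  LkBdd k V f → ∀ φ : ℂ → ℂ, Test V φ → ∀ (M : ℕ) (C : ℝ), 0 ≤ C → ∀ F : ℕ → ℂ → ℂ,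
    (∀ i z, ‖F i z‖ ≤ h i * (C * (‖φ z‖ * sm (h i) (f i) M z ^ (2 * k)))) →
      Tendsto (fun i => ∫ z, F i z) atTop (𝓝 0)

/-- **De** exact formula for `h ∂ e` on `V` (no hypotheses). Proof: `e = f² + g_1 conj g_1 / q` as complex functions, `h ∂ f = g_1`, `h ∂ g_1 = g_2`, `h ∂ conj g_1 = conj (h ∂̄ g_1) = - q f` (`Sol.eq`, `dz_conj`); product rule
(`dz_mul`, `dz_add`). Second part: `e` is smooth. -/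
def StmtDe : Prop := ∀ (V : Set ℂ) (q : ℂ → ℝ), Pot V q → ∀ (h : ℝ) (f : ℂ → ℝ), Sol V q h f →
  ContDiff ℝ ∞ (ee q h f) ∧ ∀ z ∈ V, de q h f z = (f z : ℂ) * gg h f 1 z +
    gg h f 2 z * conj (gg h f 1 z) / (q z : ℂ) +
    (h : ℂ) * (dz (fun w => ((q w : ℂ))⁻¹) z * (‖gg h f 1 z‖ ^ 2 : ℝ))

/-- **Dd** the Laplacian of `e` (uses `StmtDe`). Proof: on the open set `V` replace `de` by the formula of `De` (`dzb_congr`), then the product rule: `h ∂̄ f = conj g_1` (`dzb_conj`), `h ∂̄ g_1 = - q f`, `h ∂̄ g_2 = - q g_1 - h (∂q) f`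
(`h ∂̄ g_2 = h ∂ (h ∂̄ g_1)`, `dz_dzb_comm`; see Err.lean), `h ∂̄ conj g_1 = conj g_2`, `h ∂ g_1 = g_2`. The terms without a further factor `h` are
`|g_1|² - q f² + (- q |g_1|² + |g_2|²) / q`; all other terms have a factor `h`, smooth coefficients and two factors `f, g_1, g_2` (or conjugates). -/
def StmtDd : Prop := ∀ (V : Set ℂ) (q : ℂ → ℝ), Pot V q → ∀ K : Set ℂ, IsCompact K → K ⊆ V →
  ∃ C : ℝ, 0 ≤ C ∧ ∀ (h : ℝ) (f : ℂ → ℝ), Sol V q h f → ∀ z ∈ K,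
    ‖(h : ℂ) * dzb (de q h f) z - ((‖gg h f 2 z‖ ^ 2 / q z - q z * f z ^ 2 : ℝ) : ℂ)‖ ≤
      h * (C * sm h f 2 z ^ 2)

/-- **Dif** (uses `StmtDe`, `StmtDd`). Proof: with `e₁ = f g_1 + g_2 conj g_1 / q` (so `de = e₁ + h κ |g_1|²`), `Y₀ = |e₁|²/q`, `X₀ = Re (conj g_1 e₁)/q`, `N = |g_1|²/q`:
`Y₀ - 2 f X₀ = N (|g_2|²/q² - f²)` exactly (expand; `Re (g_1² conj g_2) = Re (g_2 conj g_1 ²)`), and `Y - Y₀`, `X - X₀` are small; then `Dd`. -/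
def StmtDif : Prop := ∀ (V : Set ℂ) (q : ℂ → ℝ), Pot V q → ∀ K : Set ℂ, IsCompact K → K ⊆ V →
  ∃ C : ℝ, 0 ≤ C ∧ ∀ (h : ℝ) (f : ℂ → ℝ), Sol V q h f → ∀ z ∈ K,
    nn q h f 1 z ≤ C * sm h f 2 z ^ 2 ∧ ee q h f z ≤ C * sm h f 2 z ^ 2 ∧
    ‖de q h f z‖ ≤ C * sm h f 2 z ^ 2 ∧
    |nn q h f 1 z * (((h : ℂ) * dzb (de q h f) z).re / q z) -
      (yy q h f z - 2 * f z * xx q h f z)| ≤ h * (C * sm h f 2 z ^ 4)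

/-- **Id1** (uses `StmtSml`, `StmtDe`, `StmtDif`; model: Odd.lean). Proof: `0 = ∫ h ∂̄ (φ₁ F g_1)`, `φ₁ = φ / q`, `F = f^(2j+1) e^i`: `h ∂̄ F = (2j+1) f^(2j) e^i conj g_1 + i f^(2j+1) e^(i-1) conj de`, `h ∂̄ g_1 = - q f` on `V`; real part,
`|g_1|²/q = N = e - f²`; the remaining term `∫ h (∂̄ φ₁) F g_1` is small by `Sml` (`|F g_1| ≤ C sm^(2k)`, `k = j + i + 1`). -/
def StmtId1 : Prop := ∀ j i k : ℕ, j + i + 1 = k → ∀ (V : Set ℂ) (q : ℂ → ℝ) (h : ℕ → ℝ) (f : ℕ → ℂ → ℝ),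
  Seq V q h f → LkBdd k V f → ∀ φ : ℂ → ℝ, TestR V φ →
    Tendsto (fun n => ∫ z, φ z * ((2 * (j : ℝ) + 1) * f n z ^ (2 * j) * ee q (h n) (f n) z ^ (i + 1) -
      (2 * (j : ℝ) + 2) * f n z ^ (2 * j + 2) * ee q (h n) (f n) z ^ i +
      (i : ℝ) * f n z ^ (2 * j + 1) * ee q (h n) (f n) z ^ (i - 1) * xx q (h n) (f n) z)) atTop (𝓝 0)

/-- **Id2** (uses `StmtSml`, `StmtDe`, `StmtDif`; model: Odd.lean). Proof: `0 = ∫ h ∂̄ (φ₁ L de)`, `φ₁ = φ / q`, `L = f^(2l) e^(m+1) - f^(2l+2) e^m = N f^(2l) e^m`: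
`h ∂̄ L = (2l f^(2l-1) e^(m+1) - (2l+2) f^(2l+1) e^m) conj g_1 + ((m+1) f^(2l) e^m - m f^(2l+2) e^(m-1)) conj de`, and `L (h ∂̄ de) / q = f^(2l) e^m (Y - 2 f X) + small` (`Dif`); take real parts. -/
def StmtId2 : Prop := ∀ l m k : ℕ, l + m + 2 = k → ∀ (V : Set ℂ) (q : ℂ → ℝ) (h : ℕ → ℝ) (f : ℕ → ℂ → ℝ),
  Seq V q h f → LkBdd k V f → ∀ φ : ℂ → ℝ, TestR V φ →
    Tendsto (fun n => ∫ z, φ z * ((2 * (l : ℝ) * f n z ^ (2 * l - 1) * ee q (h n) (f n) z ^ (m + 1) -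
        (2 * (l : ℝ) + 4) * f n z ^ (2 * l + 1) * ee q (h n) (f n) z ^ m) * xx q (h n) (f n) z +
      (2 * f n z ^ (2 * l) * ee q (h n) (f n) z ^ m +
        (m : ℝ) * f n z ^ (2 * l) * ee q (h n) (f n) z ^ (m - 1) * nn q (h n) (f n) 1 z) *
          yy q (h n) (f n) z)) atTop (𝓝 0)

/-- **Chn** the chain (uses `StmtDe`, `StmtId1`, `StmtId2`; `StmtDe` gives continuity of `ee`, `de`, hence integrability). Proof. First `∀ l m, l + m + 2 = k → ∀ ε > 0, ∀ᶠ n, -ε ≤ ∫ φ f^(2l+1) e^m X` by induction on `l` (for all `m`) from `Id2`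
(the factor of `Y` is `≥ 0`). Then from `Id1`: for `j + i + 1 = k`, eventually `(2j+1) ∫ φ f^(2j) e^(i+1) - ε ≤ (2j+2) ∫ φ f^(2j+2) e^i` (for `i ≥ 1` use the first step with `l = j`, `m = i - 1`). Then induction:
`∫ φ f^(2k) ≥ (∏_{j = s}^{k-1} (2j+1)/(2j+2)) ∫ φ f^(2s) e^(k-s) - ε` down to `s = 1`; `cb k / 4^(k-1) = ∏_{j=1}^{k-1} (2j+1)/(2j+2)` (`Nat.succ_mul_centralBinom_succ`). -/
def StmtChn : Prop := ∀ k : ℕ, 2 ≤ k → ∀ (V : Set ℂ) (q : ℂ → ℝ) (h : ℕ → ℝ) (f : ℕ → ℂ → ℝ), Seq V q h f →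
  LkBdd k V f → ∀ φ : ℂ → ℝ, TestR V φ → (∀ z, 0 ≤ φ z) → ∀ ε : ℝ, 0 < ε → ∀ᶠ n in atTop,
    cb k / 4 ^ (k - 1) * (∫ z, φ z * (f n z ^ 2 * ee q (h n) (f n) z ^ (k - 1))) - ε ≤
      ∫ z, φ z * f n z ^ (2 * k)

/-- **Cmb** (uses `StmtDe`, `StmtChn`, `StmtOdd`, `Dyn.StmtRatioS`; model: `X3M.tang`, `X3M.alg` in Dyn/X3.lean). Proof. `L4Bdd V f` from `LkBdd k V f`: `(ζ f)⁴ ≤ 1 + (ζ f)^(2k)` on `tsupport ζ`. With `A = ∫ φ`, `S = ∫ φ f²` (bounded, by `L2Bdd` and a cutoff function),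
`Q = ∫ φ f⁴`: `∫ φ f² e = ∫ φ f⁴ + ∫ φ N_1 N_0 = (4/3) Q + o(1)` (`StmtOdd`), `A Q ≥ 3 S² - o(1)` (`StmtRatioS`), so `A ∫ φ f² e ≥ 4 S² - o(1)`. Tangent line: `f² e^(k-1) ≥ f² ((k-1) r^(k-2) e - (k-2) r^(k-1))`, `r = 4 S / A`; so
`A^(k-1) ∫ φ f² e^(k-1) ≥ 4^(k-1) S^k - o(1)`, then `Chn`. If `A = 0` then `φ = 0`. -/
def StmtCmb : Prop := ∀ k : ℕ, 2 ≤ k → ∀ (V : Set ℂ) (q : ℂ → ℝ) (h : ℕ → ℝ) (f : ℕ → ℂ → ℝ), Seq V q h f →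
  LkBdd k V f → L2Bdd V f → Dyn.NAloc V q h f → ∀ φ : ℂ → ℝ, TestR V φ → (∀ z, 0 ≤ φ z) →
    ∀ ε : ℝ, 0 < ε → ∀ᶠ n in atTop,
      cb k * (∫ z, φ z * f n z ^ 2) ^ k - ε ≤ (∫ z, φ z) ^ (k - 1) * ∫ z, φ z * f n z ^ (2 * k)

/-- **Trk** (uses `StmtCmb`). Proof. Otherwise, along a subsequence `τ` (`extraction_of_frequently_atTop`), `A^(k-1) ∫ φ f^(2k) < cb k S^k - ε`; `S ≤ B` by `L2Bdd`; `A > 0` (else `φ = 0`), so `∫ φ f^(2k) ≤ C₁` along `τ`. For small `δ > 0` let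
`V' = {z | δ/2 < φ z}` (open, in `V`), `φ' = φ · smoothTransition ((φ - 3δ/4)/(δ/4))`: `φ' ∈ TestR V'`, `0 ≤ φ' ≤ φ`, `φ - φ' ≤ δ`. The sequence `f ∘ τ` on `V'` satisfies `LkBdd k` (`ζ^(2k) ≤ Z (2/δ) φ`), `L2Bdd`, `NAloc` (monotone in `V`, subsequences), so by `Cmb` for `φ'`
eventually `cb k S'^k - ε/2 ≤ A'^(k-1) ∫ φ' f^(2k) ≤ A^(k-1) ∫ φ f^(2k)`, while `S - S' ≤ δ ∫ ζ₁² f² ≤ δ C₂` and `S^k - S'^k ≤ k B^(k-1) (S - S')`: contradiction for `δ` small. -/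
def StmtTrk : Prop := ∀ k : ℕ, 2 ≤ k → ∀ (V : Set ℂ) (q : ℂ → ℝ) (h : ℕ → ℝ) (f : ℕ → ℂ → ℝ), Seq V q h f →
  L2Bdd V f → Dyn.NAloc V q h f → ∀ φ : ℂ → ℝ, TestR V φ → (∀ z, 0 ≤ φ z) →
    ∀ ε : ℝ, 0 < ε → ∀ᶠ n in atTop,
      cb k * (∫ z, φ z * f n z ^ 2) ^ k - ε ≤ (∫ z, φ z) ^ (k - 1) * ∫ z, φ z * f n z ^ (2 * k)

/-- even moments against test functions with support in the open fundamental domain -/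
def HalfK (k : ℕ) (f : ℕ → ℍ → ℝ) : Prop :=
  ∀ φ : ℂ → ℝ, TestR Ofd φ → (∀ z, 0 ≤ φ z) → ∀ ε : ℝ, 0 < ε → ∀ᶠ i in atTop,
    cb k * (∫ z : ℍ, φ z * f i z ^ 2) ^ k - ε ≤ (∫ z : ℍ, φ z) ^ (k - 1) * ∫ z : ℍ, φ z * f i z ^ (2 * k)

/-- the final statement for one `k` -/
def FinalK (k : ℕ) (f : ℕ → ℍ → ℝ) : Prop :=
  ∀ ψ : ℍ → ℝ, TestX ψ → (∀ z, 0 ≤ ψ z) → ∀ ε : ℝ, 0 < ε → ∀ᶠ i in atTop,
    cb k * (∫ z in ModularGroup.fdo, ψ z * f i z ^ 2) ^ k - ε ≤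
      (∫ z in ModularGroup.fdo, ψ z) ^ (k - 1) * ∫ z in ModularGroup.fdo, ψ z * f i z ^ (2 * k)

/-- **Hlk** from the local theorem to the half-plane (uses `StmtInt`, `StmtLap`, `StmtTrk`, `Dyn.StmtNAf`; model: Dyn/Half3.lean, first part, whose lemmas can be used). -/
def StmtHlk : Prop := ∀ (f : ℕ → ℍ → ℝ) (t : ℕ → ℝ), Dyn.HM f t → ∀ k : ℕ, 2 ≤ k → HalfK k f

/-- **Xk** from the half-plane to the modular surface (no hypotheses; model: `X3M.ratio` in Dyn/X3.lean, with `3, 2, 4` replaced by `cb k, k, 2k`; `x² ≤ η x^(2k) + C_η`). -/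
def StmtXk : Prop := ∀ (f : ℕ → ℍ → ℝ) (t : ℕ → ℝ), (∀ i, IsHeckeMaass (f i) (t i)) → ∀ k : ℕ, 2 ≤ k →
  HalfK k f → FinalK k f

end

end Pool.Agent.A54.Ev
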