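import Pool.Agent.Lib.MP_a54f13_nt.Ev.Spec
import Pool.Agent.Lib.MP_a54f13_nt.X2

/-!
Even moments: from the half-plane to the modular surface.
-/

set_option autoImplicit false

namespace Pool.Agent.A54.Ev

open MeasureTheory Filter Topology Set
open scoped ContDiff ComplexConjugate UpperHalfPlane MatrixGroups

noncomputable section

namespace XkM

open Pool.Agent.A54.X Pool.Agent.A54.X2

lemma cb_pos (k : ℕ) : 0 < cb k := by
  unfold cb
  have := Nat.centralBinom_pos k
  positivity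

lemma le_pow {y η : ℝ} (hy : 0 ≤ y) (hη : 0 < η) (j : ℕ) :
    y ≤ η * y ^ (j + 2) + (1 + 1 / η) := by
  have h1 : 0 < 1 / η := by positivity
  by_cases h : y ≤ 1 + 1 / η
  · have : 0 ≤ η * y ^ (j + 2) := by positivity
    linarith
  · push Not at h
    have hy1 : 1 ≤ y := by linarith
    have h2 : y ≤ y ^ (j + 1) := le_self_pow₀ hy1 (by omega)
    have h3 : 1 ≤ η * y ^ (j + 1) := by
      have h4 : 1 / η ≤ y ^ (j + 1) := by linarith
      rw [div_le_iff₀ hη] at h4
      linarith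
    have h5 : y * 1 ≤ y * (η * y ^ (j + 1)) := mul_le_mul_of_nonneg_left h3 hy
    have h6 : y * (η * y ^ (j + 1)) = η * y ^ (j + 2) := by ring
    linarith

lemma pow_sub {x y B : ℝ} (hy : 0 ≤ y) (hyx : y ≤ x) (hxB : x ≤ B) (j : ℕ) :
    x ^ (j + 1) - y ^ (j + 1) ≤ ((j : ℝ) + 1) * B ^ j * (x - y) := by
  have hx : 0 ≤ x := hy.trans hyx
  have hB : 0 ≤ B := hx.trans hxB
  have hd : 0 ≤ x - y := by linarith
  induction j with
  | zero => simp
  | succ j ih =>
    have h0 : 0 ≤ x ^ (j + 1) - y ^ (j + 1) := by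
      have := pow_le_pow_left₀ hy hyx (j + 1)
      linarith
    have h1 : x * (x ^ (j + 1) - y ^ (j + 1)) ≤ B * (((j : ℝ) + 1) * B ^ j * (x - y)) :=
      mul_le_mul hxB ih h0 hB
    have h2 : (x - y) * y ^ (j + 1) ≤ (x - y) * B ^ (j + 1) :=
      mul_le_mul_of_nonneg_left (pow_le_pow_left₀ hy (hyx.trans hxB) _) hd
    have e : x ^ (j + 1 + 1) - y ^ (j + 1 + 1) =
        x * (x ^ (j + 1) - y ^ (j + 1)) + (x - y) * y ^ (j + 1) := by ring
    rw [e]
    push_cast
    have e2 : ((j : ℝ) + 1 + 1) * B ^ (j + 1) * (x - y) =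
        B * (((j : ℝ) + 1) * B ^ j * (x - y)) + (x - y) * B ^ (j + 1) := by ring
    rw [e2]
    linarith

lemma main (f : ℕ → ℍ → ℝ) (t : ℕ → ℝ) (hf : ∀ i, IsHeckeMaass (f i) (t i)) (j : ℕ)
    (hR : HalfK (j + 2) f) : FinalK (j + 2) f := by
  intro ψ hψ hψ0 ε hε
  obtain ⟨Y, hY⟩ := hψ.cusp
  have hψc : Continuous ψ := continuous_of_ext hψ.smooth
  have hYo : ∀ z ∈ ModularGroup.fdo, Y < z.im → ψ z = 0 := fun z hz h =>
    hY z (ModularGroup.fdo_subset_fd hz) h
  have hfc : ∀ i, Continuous (f i) := fun i => continuous_of_ext (hf i).smooth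
  have hψi : IntegrableOn ψ ModularGroup.fdo := integrableOn_fdo hψc hYo
  have him : ∀ i m, IntegrableOn (fun z => ψ z * f i z ^ m) ModularGroup.fdo := fun i m =>
    integrableOn_fdo (hψc.mul ((hfc i).pow m)) (fun z hz h => by rw [hYo z hz h, zero_mul])
  set A : ℝ := ∫ z in ModularGroup.fdo, ψ z with hA
  have hA0 : 0 ≤ A := integral_nonneg hψ0
  have hcb := cb_pos (j + 2)
  set c : ℝ := cb (j + 2) with hc
  rw [show j + 2 - 1 = j + 1 by omega]
  rcases hA0.eq_or_lt with hA1 | hA1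
  · have h0 : ψ =ᵐ[volume.restrict ModularGroup.fdo] 0 :=
      (integral_eq_zero_iff_of_nonneg hψ0 hψi).mp hA1.symm
    refine Eventually.of_forall fun i => ?_
    have h1 : ∫ z in ModularGroup.fdo, ψ z * f i z ^ 2 = 0 := by
      have : ∫ z in ModularGroup.fdo, ψ z * f i z ^ 2 = ∫ z in ModularGroup.fdo, (0 : ℝ) := by
        apply integral_congr_ae
        filter_upwards [h0] with z hz
        rw [hz]; simp
      rw [this, integral_zero]
    rw [h1, ← hA1, zero_pow (by omega), zero_pow (by omega)]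
    linarith
  -- bound for `ψ`
  obtain ⟨B₀, hB₀⟩ := (ModularGroup.isCompact_truncatedFundamentalDomain Y).exists_bound_of_continuousOn
    hψc.continuousOn
  set B : ℝ := max B₀ 0 + 1 with hB
  have hB0 : 0 < B := by
    have := le_max_right B₀ 0
    linarith
  have hψB : ∀ z ∈ ModularGroup.fdo, ψ z ≤ B := by
    intro z hz
    by_cases h : Y < z.im
    · rw [hYo z hz h]; exact hB0.le
    · have h1 := hB₀ z (fdo_inter_sub Y ⟨hz, not_lt.mp h⟩)
      have h2 := le_max_left B₀ 0
      have h3 := le_abs_self (ψ z)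
      rw [Real.norm_eq_abs] at h1
      linarith
  -- the square of a form is integrable
  have hf2 : ∀ i, IntegrableOn (fun z => f i z ^ 2) ModularGroup.fdo := by
    intro i
    by_contra h
    have h1 := (hf i).normalised
    rw [integral_undef h] at h1
    have := Real.pi_pos
    linarith
  set S : ℝ := B * (Real.pi / 3) with hS
  have hS0 : 0 < S := by have := Real.pi_pos; positivity
  have h2le : ∀ i, ∫ z in ModularGroup.fdo, ψ z * f i z ^ 2 ≤ S := by
    intro i
    rw [hS, ← (hf i).normalised, ← integral_const_mul]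
    apply setIntegral_mono_on (him i 2) ((hf2 i).const_mul B) measurableSet_fdo
    intro z hz
    exact mul_le_mul_of_nonneg_right (hψB z hz) (sq_nonneg _)
  have h2nn : ∀ i, 0 ≤ ∫ z in ModularGroup.fdo, ψ z * f i z ^ 2 := fun i =>
    integral_nonneg fun z => mul_nonneg (hψ0 z) (sq_nonneg _)
  -- parameters
  set D : ℝ := c * (((j + 1 : ℕ) : ℝ) + 1) * S ^ (j + 1) with hD
  have hD0 : 0 < D := by positivity
  set e : ℝ := ε / (4 * D) with he
  have he0 : 0 < e := by positivity
  set C : ℝ := c * S ^ (j + 2) / A ^ (j + 1) with hC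
  have hC0 : 0 < C := by positivity
  set η : ℝ := e / C with hη
  have hη0 : 0 < η := by positivity
  have hη1 : 0 < 1 + 1 / η := by positivity
  obtain ⟨K, hK, hKO, hKi⟩ := exists_compact ψ hψi (ε := e / (1 + 1 / η)) (by positivity)
  obtain ⟨χ, hχ, hχ1, hχK⟩ := exists_cutoff hK isOpen_O hKO
  have hχK' : ∀ z ∈ K, χ z = 1 := fun z hz => hχK.self_of_nhdsSet z hz
  have hχc : Continuous (fun z : ℍ => χ z) := hχ.smooth.continuous.comp UpperHalfPlane.continuous_coe
  have hφ := testR_cut' hψ.smooth hχ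
  have hφ0 : ∀ z, 0 ≤ χ z * ext ψ z := fun z => mul_nonneg (hχ1 z).1 (hψ0 _)
  have hmain := hR _ hφ hφ0 (ε / 2) (by positivity)
  rw [show j + 2 - 1 = j + 1 by omega] at hmain
  have herr : ∫ z in ModularGroup.fdo, (1 - χ z) * ψ z ≤ e / (1 + 1 / η) :=
    (cut_error hK hχ1 hχK' hχ.smooth.continuous hψi hψ0).trans hKi.le
  have hint : ∫ z : ℍ, χ z * ext ψ z = ∫ z in ModularGroup.fdo, χ z * ψ z := by
    have := integral_cut hχ ψ (fun _ => 1)
    simpa using this
  have hχψ : IntegrableOn (fun z : ℍ => χ z * ψ z) ModularGroup.fdo :=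
    integrableOn_fdo (hχc.mul hψc) (fun z hz h => by rw [hYo z hz h, mul_zero])
  have hχA : ∫ z in ModularGroup.fdo, χ z * ψ z ≤ A := by
    apply integral_mono hχψ hψi
    intro z
    simp only
    nlinarith [(hχ1 z).2, hψ0 z]
  have hχA0 : 0 ≤ ∫ z in ModularGroup.fdo, χ z * ψ z :=
    integral_nonneg fun z => mul_nonneg (hχ1 z).1 (hψ0 z)
  filter_upwards [hmain] with i hi
  rw [hint, integral_cut hχ ψ (fun z => f i z ^ 2),
    integral_cut hχ ψ (fun z => f i z ^ (2 * (j + 2)))] at hi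
  have jm : ∀ m : ℕ, IntegrableOn (fun z : ℍ => χ z * ψ z * f i z ^ m) ModularGroup.fdo := fun m =>
    integrableOn_fdo ((hχc.mul hψc).mul ((hfc i).pow m)) (fun z hz h => by
      rw [hYo z hz h]; ring)
  have hev : ∀ z, (0 : ℝ) ≤ f i z ^ (2 * (j + 2)) := fun z => Even.pow_nonneg ⟨j + 2, by ring⟩ _
  set Q : ℝ := ∫ z in ModularGroup.fdo, ψ z * f i z ^ (2 * (j + 2)) with hQ
  set S' : ℝ := ∫ z in ModularGroup.fdo, ψ z * f i z ^ 2 with hS'
  set T : ℝ := ∫ z in ModularGroup.fdo, χ z * ψ z * f i z ^ 2 with hT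
  set P : ℝ := ∫ z in ModularGroup.fdo, χ z * ψ z * f i z ^ (2 * (j + 2)) with hP
  have hS'S : S' ≤ S := h2le i
  have hS'0 : 0 ≤ S' := h2nn i
  have hPQ : P ≤ Q := by
    apply integral_mono (jm _) (him i _)
    intro z
    simp only
    have h8 : χ z * ψ z ≤ ψ z := by nlinarith [(hχ1 z).2, hψ0 z]
    exact mul_le_mul_of_nonneg_right h8 (hev z)
  have hP0 : 0 ≤ P := integral_nonneg fun z =>
    mul_nonneg (mul_nonneg (hχ1 z).1 (hψ0 z)) (hev z)
  have hT0 : 0 ≤ T := integral_nonneg fun z =>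
    mul_nonneg (mul_nonneg (hχ1 z).1 (hψ0 z)) (sq_nonneg _)
  have hTS : T ≤ S' := by
    apply integral_mono (jm 2) (him i 2)
    intro z
    simp only
    have h8 : χ z * ψ z ≤ ψ z := by nlinarith [(hχ1 z).2, hψ0 z]
    exact mul_le_mul_of_nonneg_right h8 (sq_nonneg _)
  have hAP : (∫ z in ModularGroup.fdo, χ z * ψ z) ^ (j + 1) * P ≤ A ^ (j + 1) * Q :=
    mul_le_mul (pow_le_pow_left₀ hχA0 hχA _) hPQ hP0 (by positivity)
  by_contra hcon
  push Not at hcon
  have hAp : 0 < A ^ (j + 1) := by positivity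
  -- the moment is bounded
  have hQC : Q ≤ C := by
    rw [hC, le_div_iff₀ hAp]
    have h1 : S' ^ (j + 2) ≤ S ^ (j + 2) := pow_le_pow_left₀ hS'0 hS'S _
    have h2 := mul_le_mul_of_nonneg_left h1 hcb.le
    nlinarith
  -- the error
  have hST : S' - T ≤ 2 * e := by
    have i4 : IntegrableOn (fun z : ℍ => (1 - χ z) * ψ z) ModularGroup.fdo :=
      integrableOn_fdo ((continuous_const.sub hχc).mul hψc) (fun z hz h => by
        rw [hYo z hz h]; simp)
    have i3 : IntegrableOn (fun z : ℍ => η * (ψ z * f i z ^ (2 * (j + 2))) +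
        (1 + 1 / η) * ((1 - χ z) * ψ z)) ModularGroup.fdo :=
      ((him i _).const_mul η).add (i4.const_mul _)
    calc S' - T = ∫ z in ModularGroup.fdo, (ψ z * f i z ^ 2 - χ z * ψ z * f i z ^ 2) := by
          rw [integral_sub (him i 2) (jm 2)]
      _ ≤ ∫ z in ModularGroup.fdo, (η * (ψ z * f i z ^ (2 * (j + 2))) +
            (1 + 1 / η) * ((1 - χ z) * ψ z)) := by
          apply integral_mono ((him i 2).sub (jm 2)) i3
          intro z
          simp only [Pi.sub_apply]
          have c1 : 0 ≤ 1 - χ z := by linarith [(hχ1 z).2]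
          have c2 : 1 - χ z ≤ 1 := by linarith [(hχ1 z).1]
          have c3 : f i z ^ 2 ≤ η * f i z ^ (2 * (j + 2)) + (1 + 1 / η) := by
            have := le_pow (sq_nonneg (f i z)) hη0 j
            rwa [← pow_mul] at this
          have c7 : 0 ≤ (1 - χ z) * ψ z := mul_nonneg c1 (hψ0 z)
          have c8 : 0 ≤ η * (ψ z * f i z ^ (2 * (j + 2))) :=
            mul_nonneg hη0.le (mul_nonneg (hψ0 z) (hev z))
          have c9 := mul_le_mul_of_nonneg_right c2 c8
          calc ψ z * f i z ^ 2 - χ z * ψ z * f i z ^ 2 = (1 - χ z) * ψ z * f i z ^ 2 := by ring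
            _ ≤ (1 - χ z) * ψ z * (η * f i z ^ (2 * (j + 2)) + (1 + 1 / η)) :=
                mul_le_mul_of_nonneg_left c3 c7
            _ = (1 - χ z) * (η * (ψ z * f i z ^ (2 * (j + 2)))) +
                (1 + 1 / η) * ((1 - χ z) * ψ z) := by ring
            _ ≤ η * (ψ z * f i z ^ (2 * (j + 2))) + (1 + 1 / η) * ((1 - χ z) * ψ z) := by
                linarith
      _ = η * Q + (1 + 1 / η) * ∫ z in ModularGroup.fdo, (1 - χ z) * ψ z := by
          rw [integral_add ((him i _).const_mul η) (i4.const_mul _), integral_const_mul,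
            integral_const_mul]
      _ ≤ η * C + (1 + 1 / η) * (e / (1 + 1 / η)) := by
          have d1 : η * Q ≤ η * C := mul_le_mul_of_nonneg_left hQC hη0.le
          have d2 : (1 + 1 / η) * (∫ z in ModularGroup.fdo, (1 - χ z) * ψ z) ≤
            (1 + 1 / η) * (e / (1 + 1 / η)) := mul_le_mul_of_nonneg_left herr hη1.le
          linarith
      _ = 2 * e := by
          have e1 : η * C = e := by rw [hη]; field_simp
          have e2 : (1 + 1 / η) * (e / (1 + 1 / η)) = e := mul_div_cancel₀ _ hη1.ne'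
          rw [e1, e2]; ring
  have hDe : D * (2 * e) = ε / 2 := by rw [he]; field_simp; norm_num
  have hpw := pow_sub hT0 hTS hS'S (j + 1)
  have h9 : c * (S' ^ (j + 2) - T ^ (j + 2)) ≤ ε / 2 := by
    calc c * (S' ^ (j + 2) - T ^ (j + 2)) ≤
          c * ((((j + 1 : ℕ) : ℝ) + 1) * S ^ (j + 1) * (S' - T)) :=
          mul_le_mul_of_nonneg_left hpw hcb.le
      _ = D * (S' - T) := by rw [hD]; ring
      _ ≤ D * (2 * e) := mul_le_mul_of_nonneg_left hST hD0.le
      _ = ε / 2 := hDe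
  linarith

end XkM

theorem stmtXk : StmtXk := by
  intro f t hf k hk hR
  obtain ⟨j, rfl⟩ : ∃ j, k = j + 2 := ⟨k - 2, by omega⟩
  exact XkM.main f t hf j hR

end

end Pool.Agent.A54.Ev
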