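import Pool.Agent.Lib.MP_a54f13_nt.Ev.Ldk
import Pool.Agent.Lib.MP_a54f13_nt.Ev.Lkb
import Pool.Agent.Lib.MP_a54f13_nt.Ev.Sml
import Pool.Agent.Lib.MP_a54f13_nt.Ev.De
import Pool.Agent.Lib.MP_a54f13_nt.Ev.Dd
import Pool.Agent.Lib.MP_a54f13_nt.Ev.Dif
import Pool.Agent.Lib.MP_a54f13_nt.Ev.Id1
import Pool.Agent.Lib.MP_a54f13_nt.Ev.Id2
import Pool.Agent.Lib.MP_a54f13_nt.Ev.Chn
import Pool.Agent.Lib.MP_a54f13_nt.Ev.Cmb
import Pool.Agent.Lib.MP_a54f13_nt.Ev.Trk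
import Pool.Agent.Lib.MP_a54f13_nt.Ev.Hlk
import Pool.Agent.Lib.MP_a54f13_nt.Ev.Xk
import Pool.Agent.Lib.MP_a54f13_nt.Dyn.Main

/-!
# Package `Ev`: assembly
-/

set_option autoImplicit false

namespace Pool.Agent.A54.Ev

open MeasureTheory Filter Topology Set
open scoped ContDiff ComplexConjugate UpperHalfPlane MatrixGroups

theorem pLkb : StmtLkb := stmtLkb stmtErr (stmtCacc stmtErr) stmtLdk

theorem pSml : StmtSml := stmtSml pLkb

theorem pDif : StmtDif := stmtDif stmtDe (stmtDd stmtDe)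

theorem pId1 : StmtId1 := stmtId1 pSml stmtDe pDif

theorem pId2 : StmtId2 := stmtId2 pSml stmtDe pDif

theorem pChn : StmtChn := stmtChn stmtDe pId1 pId2

theorem pCmb : StmtCmb := stmtCmb stmtDe pChn pOdd Dyn.pRatioS

theorem pTrk : StmtTrk := stmtTrk pCmb

theorem pHlk : StmtHlk := stmtHlk stmtInt stmtLap pTrk Dyn.pNAf

/-- **even moments**: for every sequence of Hecke–Maass forms -/
theorem finalK {f : ℕ → ℍ → ℝ} {t : ℕ → ℝ} (hf : ∀ i, IsHeckeMaass (f i) (t i))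
    (ht : Tendsto t atTop atTop) (k : ℕ) (hk : 2 ≤ k) : FinalK k f :=
  stmtXk f t hf k hk (pHlk f t ⟨hf, ht⟩ k hk)

end Pool.Agent.A54.Ev
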